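import Pool.Agent.Helper51.PE.St

/-!
PROJECT PE2 (MP_6da2a2_co, helper51), module A2: a token which `e` may not use can be taken out of `phi`.
-/

set_option autoImplicit false

namespace Pool.Agent.Helper51.PE

open MvPolynomial

private theorem pr_cons_A2 (c : Tok) (l : List Tok) : pr (c :: l) = X c * pr l := by
  unfold pr
  rw [List.map_cons, List.prod_cons]

private theorem pr_perm_A2 {l l' : List Tok} (h : l.Perm l') : pr l = pr l' := by
  unfold pr
  exact (h.map _).prod_eq

private theorem pr_sort_A2 (b : ℕ → ℕ) (e : ℕ) (u : Tok →₀ ℕ) :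
    pr ((Finsupp.toMultiset u).sort (tle b e)) = monomial u 1 := by
  unfold pr
  rw [← Multiset.prod_coe, ← Multiset.map_coe, Multiset.sort_eq, Finsupp.toMultiset_map,
    Finsupp.prod_toMultiset, Finsupp.prod_mapDomain_index (fun _ => pow_zero _) (fun _ _ _ => pow_add _ _ _),
    monomial_eq, C_1, one_mul]

private theorem key_A2 {b : ℕ → ℕ} {e : ℕ} {a c : Tok} (hc : ¬ has b e c) (h : ¬ tle b e c a) : ¬ has b e a := by
  intro ha
  apply h
  unfold tle key
  rw [if_neg hc, if_pos ha]
  left
  omega

private theorem phiL_insert_A2 (b : ℕ → ℕ) (ε : ℝ) (e : ℕ) (c : Tok) (hc : ¬ has b e c) :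
    ∀ l : List Tok, phiL b ε e (l.orderedInsert (tle b e) c) = C ε * pr l + X c * phiL b ε e l := by
  have hw : wt b ε e c = ε := by unfold wt; rw [if_neg hc]
  have hct : cut b e c = c := by unfold cut; rw [if_neg hc]
  intro l
  induction l with
  | nil =>
    rw [List.orderedInsert_nil]
    unfold phiL
    rw [hw, hct]
    unfold phiL
    ring
  | cons a l ih =>
    by_cases h : tle b e c a
    · rw [List.orderedInsert_cons_of_le _ _ h]
      conv_lhs => unfold phiL
      rw [hw, hct]
    · have ha : ¬ has b e a := key_A2 hc h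
      have hwa : wt b ε e a = ε := by unfold wt; rw [if_neg ha]
      have hcta : cut b e a = a := by unfold cut; rw [if_neg ha]
      rw [List.orderedInsert_of_not_le _ _ h]
      conv_lhs => unfold phiL
      rw [ih, hwa, hcta, pr_perm_A2 (List.perm_orderedInsert (tle b e) c l), pr_cons_A2, pr_cons_A2]
      conv_rhs => rw [phiL]
      rw [hwa, hcta]
      ring

private theorem mono_A2 (h : StLow) (b : ℕ → ℕ) (ε : ℝ) (e : ℕ) (c : Tok) (hc : ¬ has b e c) (l : List Tok)
    (hl : l.Pairwise (tle b e)) : phi b ε e (X c * pr l) = C ε * pr l + X c * phi b ε e (pr l) := by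
  have h1 := (h b ε e).1 l hl
  have h2 : (l.orderedInsert (tle b e) c).Pairwise (tle b e) := List.Pairwise.orderedInsert c l hl
  have h3 := (h b ε e).1 _ h2
  rw [pr_perm_A2 (List.perm_orderedInsert (tle b e) c l), pr_cons_A2, phiL_insert_A2 b ε e c hc l] at h3
  rw [h3, h1]

/-- A2. -/
theorem pf_Bot (h : StLow) : StBot := by
  intro b ε e c g hc
  induction g using MvPolynomial.induction_on' with
  | monomial u a =>
    have h1 : (monomial u a : Alg) = a • pr ((Finsupp.toMultiset u).sort (tle b e)) := by
      rw [pr_sort_A2, smul_monomial, smul_eq_mul, mul_one]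
    rw [h1, mul_smul_comm, map_smul, map_smul, mul_smul_comm, mul_smul_comm,
      mono_A2 h b ε e c hc _ (Multiset.pairwise_sort _ _), smul_add]
  | add p q hp hq =>
    rw [mul_add, map_add, map_add, hp, hq]
    ring

end Pool.Agent.Helper51.PE
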