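import Pool.Agent.Helper51.PE.St

/-!
PROJECT PE2 (MP_6da2a2_co, helper51), module A3: the Leibniz rule for the operator `phi`.
-/

set_option autoImplicit false

namespace Pool.Agent.Helper51.PE

open MvPolynomial

private theorem pr_append_A3 (l1 l2 : List Tok) : pr (l1 ++ l2) = pr l1 * pr l2 := by
  unfold pr
  rw [List.map_append, List.prod_append]

private theorem pr_cons_A3 (c : Tok) (l : List Tok) : pr (c :: l) = X c * pr l := by
  unfold pr
  rw [List.map_cons, List.prod_cons]

private theorem phiL_append_A3 (b : ℕ → ℕ) (ε : ℝ) (e : ℕ) (l1 l2 : List Tok) :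
    phiL b ε e (l1 ++ l2) =
      phiL b ε e l1 * pr l2 + pr (l1.map (cut b e)) * phiL b ε e l2 := by
  induction l1 with
  | nil => simp [phiL, pr]
  | cons c l ih =>
    rw [List.cons_append, phiL, ih, phiL, pr_append_A3, List.map_cons, pr_cons_A3]
    ring

/-- **A3** the Leibniz rule -/
theorem pf_Leib (h : StLow) : StLeib := by
  intro b ε e l1 l2 hl
  rw [← pr_append_A3, (h b ε e).1 _ hl, (h b ε e).1 _ (List.pairwise_append.1 hl).1,
    (h b ε e).1 _ (List.pairwise_append.1 hl).2.1, phiL_append_A3]

end Pool.Agent.Helper51.PE
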