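import Pool.Agent.Helper51.PE.St

/-!
PROJECT PE2 (MP_6da2a2_co), module A3b: the upper Leibniz rule.
-/

set_option autoImplicit false

namespace Pool.Agent.Helper51.PE

open MvPolynomial

theorem monomial_eq_pr_A3b (b : ℕ → ℕ) (e : ℕ) (m : Tok →₀ ℕ) (r : ℝ) :
    (monomial m r : Alg) = C r * pr ((Finsupp.toMultiset m).sort (tle b e)) := by
  unfold pr
  have h1 : (((Finsupp.toMultiset m).sort (tle b e)).map (X : Tok → Alg)).prod =
      ((Finsupp.toMultiset m).map (X : Tok → Alg)).prod := by
    conv_rhs => rw [← Multiset.sort_eq (Finsupp.toMultiset m) (tle b e)]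
    rw [Multiset.map_coe, Multiset.prod_coe]
  rw [h1, Finsupp.toMultiset_map, Finsupp.prod_toMultiset, Finsupp.prod_mapDomain_index
    (fun _ => pow_zero _) (fun _ _ _ => pow_add _ _ _), monomial_eq]

private theorem phi_C_A3b (b : ℕ → ℕ) (ε : ℝ) (e : ℕ) (r : ℝ) (p : Alg) :
    phi b ε e (C r * p) = C r * phi b ε e p := by
  rw [← smul_eq_C_mul, ← smul_eq_C_mul, map_smul]

private theorem pr_map_A3b (b : ℕ → ℕ) (e : ℕ) (l : List Tok) :
    rename (cut b e) (pr l) = pr (l.map (cut b e)) := by
  unfold pr
  rw [map_list_prod, List.map_map, List.map_map]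
  congr 1
  refine List.map_congr_left fun a _ => ?_
  rw [Function.comp_apply, Function.comp_apply, rename_X]

theorem pf_Up (h1 : StLow) (h3 : StLeib) : StUp := by
  intro b ε e c g hg
  have key : ∀ m ∈ g.support, phi b ε e (X c * monomial m (coeff m g)) =
      X c * phi b ε e (monomial m (coeff m g)) +
        C (wt b ε e c) * rename (cut b e) (monomial m (coeff m g)) := by
    intro m hm
    set l := (Finsupp.toMultiset m).sort (tle b e) with hl
    have hlp : l.Pairwise (tle b e) := Multiset.pairwise_sort _ _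
    have hlc : ∀ a ∈ l, tle b e a c := by
      intro a ha
      rw [hl, Multiset.mem_sort, Finsupp.mem_toMultiset] at ha
      exact hg a (mem_vars a |>.2 ⟨m, hm, ha⟩)
    have hpw : (l ++ [c]).Pairwise (tle b e) := by
      rw [List.pairwise_append]
      refine ⟨hlp, List.pairwise_singleton _ _, fun a ha x hx => ?_⟩
      rw [List.mem_singleton] at hx
      rw [hx]
      exact hlc a ha
    have hL := h3 b ε e l [c] hpw
    have hc : pr [c] = X c := by simp [pr]
    have hpc : phi b ε e (pr [c]) = C (wt b ε e c) := by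
      rw [(h1 b ε e).1 [c] (List.pairwise_singleton _ _)]
      simp [phiL, pr]
    rw [hpc, hc, ← pr_map_A3b] at hL
    rw [monomial_eq_pr_A3b b e, ← hl, map_mul (rename (cut b e)), rename_C]
    have e1 : (X c : Alg) * (C (coeff m g) * pr l) = C (coeff m g) * (pr l * X c) := by ring
    rw [e1, phi_C_A3b, phi_C_A3b, hL]
    ring
  have hsum : g = ∑ m ∈ g.support, monomial m (coeff m g) := g.as_sum
  conv_lhs => rw [hsum]
  conv_rhs => rw [hsum]
  rw [Finset.mul_sum, map_sum, map_sum, map_sum, Finset.mul_sum, Finset.mul_sum,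
    ← Finset.sum_add_distrib]
  exact Finset.sum_congr rfl key

end Pool.Agent.Helper51.PE
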