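import Pool.Agent.Helper51.PE.St

/-!
PROJECT PE2, module A4: signs and degrees of `V`.
-/

set_option autoImplicit false

namespace Pool.Agent.Helper51.PE

open MvPolynomial

/-- sign properties of a functional on monomials -/
private def PosF_A4 (ε : ℝ) (d : ℕ) (W : Alg →ₗ[ℝ] ℝ) : Prop := ∀ S : Multiset Tok,
  (0 ≤ ε → 0 ≤ W (mon S)) ∧ (0 < ε → Multiset.card S = d → 0 < W (mon S)) ∧
  (Multiset.card S ≠ d → W (mon S) = 0)

private theorem mon_coe_A4 (l : List Tok) : mon (l : Multiset Tok) = pr l := by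
  simp [mon, pr]

private theorem mon_add_A4 (S T : Multiset Tok) : mon (S + T) = mon S * mon T := by
  simp [mon]

private theorem mon_cons_A4 (c : Tok) (T : Multiset Tok) : mon (c ::ₘ T) = X c * mon T := by
  simp [mon]

private theorem W_C_mul_A4 (W : Alg →ₗ[ℝ] ℝ) (r : ℝ) (p : Alg) : W (C r * p) = r * W p := by
  rw [← smul_eq_C_mul, map_smul, smul_eq_mul]

private theorem wt_nonneg_A4 (b : ℕ → ℕ) {ε : ℝ} (e : ℕ) (c : Tok) (h : 0 ≤ ε) :
    0 ≤ wt b ε e c := by
  unfold wt
  split_ifs
  · exact zero_le_one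
  · exact h

private theorem wt_pos_A4 (b : ℕ → ℕ) {ε : ℝ} (e : ℕ) (c : Tok) (h : 0 < ε) :
    0 < wt b ε e c := by
  unfold wt
  split_ifs
  · exact zero_lt_one
  · exact h

private theorem phiL_A4 (b : ℕ → ℕ) (ε : ℝ) (e d : ℕ) (W : Alg →ₗ[ℝ] ℝ) (hW : PosF_A4 ε d W)
    (l : List Tok) : ∀ T : Multiset Tok,
    (0 ≤ ε → 0 ≤ W (phiL b ε e l * mon T)) ∧
    (0 < ε → l ≠ [] → l.length + Multiset.card T = d + 1 → 0 < W (phiL b ε e l * mon T)) ∧
    (l.length + Multiset.card T ≠ d + 1 → W (phiL b ε e l * mon T) = 0) := by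
  induction l with
  | nil =>
    intro T
    simp [phiL]
  | cons c l ih =>
    intro T
    have key : W (phiL b ε e (c :: l) * mon T) =
        wt b ε e c * W (mon ((l : Multiset Tok) + T)) +
          W (phiL b ε e l * mon (cut b e c ::ₘ T)) := by
      rw [← W_C_mul_A4, ← map_add, mon_add_A4, mon_coe_A4, mon_cons_A4]
      congr 1
      simp only [phiL]
      ring
    obtain ⟨i1, i2, i3⟩ := ih (cut b e c ::ₘ T)
    obtain ⟨w1, w2, w3⟩ := hW ((l : Multiset Tok) + T)
    have hc : Multiset.card ((l : Multiset Tok) + T) = l.length + Multiset.card T := by simp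
    have hc' : Multiset.card (cut b e c ::ₘ T) = Multiset.card T + 1 := by simp
    rw [key]
    refine ⟨fun h => ?_, fun h _ hcard => ?_, fun hcard => ?_⟩
    · exact add_nonneg (mul_nonneg (wt_nonneg_A4 b e c h) (w1 h)) (i1 h)
    · simp only [List.length_cons] at hcard
      exact add_pos_of_pos_of_nonneg (mul_pos (wt_pos_A4 b e c h) (w2 h (by omega))) (i1 h.le)
    · simp only [List.length_cons] at hcard
      rw [w3 (by omega), i3 (by omega), mul_zero, add_zero]

private theorem zero_A4 (ε : ℝ) : PosF_A4 ε 0 cc0 := by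
  intro S
  have h1 : cc0 (mon S) = if Multiset.card S = 0 then 1 else 0 := by
    induction S using Multiset.induction_on with
    | empty =>
      simp [mon, cc0]
    | cons c S ih =>
      rw [mon_cons_A4]
      have : cc0 (X c * mon S) = coeff 0 (X c * mon S) := rfl
      rw [this]
      rw [← constantCoeff_eq, map_mul, constantCoeff_X, zero_mul]
      simp
  rw [h1]
  refine ⟨fun _ => ?_, fun _ h => ?_, fun h => ?_⟩
  · split_ifs <;> norm_num
  · rw [if_pos h]
    norm_num
  · rw [if_neg h]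

private theorem step_A4 (hL : StLow) (b : ℕ → ℕ) (ε : ℝ) (e d : ℕ) (W : Alg →ₗ[ℝ] ℝ)
    (hW : PosF_A4 ε d W) : PosF_A4 ε (d + 1) (W.comp (phi b ε e)) := by
  intro S
  have hs : (S.sort (tle b e)).Pairwise (tle b e) := Multiset.pairwise_sort _ _
  have h1 : mon S = pr (S.sort (tle b e)) := by
    rw [← mon_coe_A4, Multiset.sort_eq]
  have h2 : (W.comp (phi b ε e)) (mon S) = W (phiL b ε e (S.sort (tle b e)) * mon 0) := by
    rw [LinearMap.comp_apply, h1, (hL b ε e).1 _ hs]
    simp [mon]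
  have hlen : (S.sort (tle b e)).length = Multiset.card S := by simp
  obtain ⟨i1, i2, i3⟩ := phiL_A4 b ε e d W hW (S.sort (tle b e)) 0
  rw [h2]
  refine ⟨i1, fun h hc => i2 h ?_ (by simp [hlen, hc]), fun hc => i3 (by simpa [hlen] using hc)⟩
  intro h0
  rw [h0] at hlen
  simp at hlen
  omega

theorem pf_Pos (h : StLow) : StPos := by
  intro b ε n d
  have hmain : PosF_A4 ε d (V b ε n d) := by
    induction d with
    | zero => exact zero_A4 ε
    | succ d ih => exact step_A4 h b ε (n - (d + 1)) d (V b ε n d) ih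
  exact hmain

end Pool.Agent.Helper51.PE
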