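import Pool.Agent.Helper51.PE.St

/-!
PROJECT PE2, module A5: monotonicity `StMono`.

Proof.  Let `V'` be the functional of the next world.  (1) Replacing `a` by `c` at a fixed position of a
list increases `V' (s * phiL)`; (2) exchanging two neighbours which are in the wrong order increases
`V' (s * phiL)`, hence insertion sort does.
-/

set_option autoImplicit false

namespace Pool.Agent.Helper51.PE

open MvPolynomial

private lemma mon_cons_A5 (c : Tok) (s : Multiset Tok) : mon (c ::ₘ s) = X c * mon s := by
  simp [mon]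

private lemma pr_cons_A5 (c : Tok) (l : List Tok) : pr (c :: l) = X c * pr l := by
  simp [pr]

private lemma pr_nil_A5 : pr ([] : List Tok) = 1 := by
  simp [pr]

private lemma pr_append_A5 (l1 l2 : List Tok) : pr (l1 ++ l2) = pr l1 * pr l2 := by
  simp [pr]

private lemma pr_eq_mon_A5 (l : List Tok) : pr l = mon (l : Multiset Tok) := by
  simp [pr, mon]

private lemma mon_mul_pr_A5 (s : Multiset Tok) (l : List Tok) : mon s * pr l = mon (s + (l : Multiset Tok)) := by
  simp [pr, mon]

private lemma pr_perm_A5 {l1 l2 : List Tok} (h : l1.Perm l2) : pr l1 = pr l2 := by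
  rw [pr_eq_mon_A5, pr_eq_mon_A5, Multiset.coe_eq_coe.mpr h]

section

variable {b : ℕ → ℕ} {ε : ℝ} {e : ℕ} {F : Alg →ₗ[ℝ] ℝ}

private lemma F_C_A5 (r : ℝ) (p : Alg) : F (C r * p) = r * F p := by
  rw [← MvPolynomial.smul_eq_C_mul, map_smul, smul_eq_mul]

/-- the relation `a` below `c` for the functional `F` -/
private def Bel_A5 (F : Alg →ₗ[ℝ] ℝ) (a c : Tok) : Prop :=
  ∀ m : Multiset Tok, F (mon m * X a) ≤ F (mon m * X c)

private lemma wt_nonneg_A5 (hε : 0 ≤ ε) (c : Tok) : 0 ≤ wt b ε e c := by
  unfold wt
  split_ifs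
  · norm_num
  · exact hε

private lemma phiL_cons_A5 (c : Tok) (l : List Tok) :
    phiL b ε e (c :: l) = C (wt b ε e c) * pr l + X (cut b e c) * phiL b ε e l := rfl

private lemma nn_A5 (hε : 0 ≤ ε) {a c : Tok} (h : Bel_A5 F a c) :
    ∀ (L : List Tok) (s : Multiset Tok),
      F (mon s * phiL b ε e L * X a) ≤ F (mon s * phiL b ε e L * X c) := by
  intro L
  induction L with
  | nil => intro s; simp [phiL]
  | cons x L ih =>
    intro s
    have key1 : ∀ z : Tok, F (mon s * phiL b ε e (x :: L) * X z) =
        wt b ε e x * F (mon (s + (L : Multiset Tok)) * X z) +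
          F (mon (cut b e x ::ₘ s) * phiL b ε e L * X z) := by
      intro z
      rw [← F_C_A5, ← map_add, phiL_cons_A5, mon_cons_A5, ← mon_mul_pr_A5]
      congr 1
      ring
    rw [key1, key1]
    have h1 := h (s + (L : Multiset Tok))
    have h2 := ih (cut b e x ::ₘ s)
    have h3 := mul_le_mul_of_nonneg_left h1 (wt_nonneg_A5 (b := b) (e := e) hε x)
    linarith

/-- replacement at a fixed position -/
private lemma rep_A5 (hε : 0 ≤ ε) (hε1 : ε ≤ 1) {a c : Tok}
    (hpos : ∀ m : Multiset Tok, 0 ≤ F (mon m)) (h : Bel_A5 F a c)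
    (h1 : has b e a → has b e c)
    (h2 : ¬ has b e a → Bel_A5 F a (b e, 0)) :
    ∀ (l1 l2 : List Tok) (s : Multiset Tok),
      F (mon s * phiL b ε e (l1 ++ a :: l2)) ≤ F (mon s * phiL b ε e (l1 ++ c :: l2)) := by
  intro l1
  induction l1 with
  | nil =>
    intro l2 s
    simp only [List.nil_append]
    have key1 : ∀ z : Tok, F (mon s * phiL b ε e (z :: l2)) =
        wt b ε e z * F (mon (s + (l2 : Multiset Tok))) +
          F (mon s * phiL b ε e l2 * X (cut b e z)) := by
      intro z
      rw [← F_C_A5, ← map_add, phiL_cons_A5, ← mon_mul_pr_A5]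
      congr 1
      ring
    rw [key1, key1]
    by_cases ha : has b e a
    · have hc := h1 ha
      have e1 : wt b ε e a = wt b ε e c := by simp [wt, ha, hc]
      have e2 : cut b e a = cut b e c := by simp [cut, ha, hc]
      rw [e1, e2]
    · by_cases hc : has b e c
      · have e1 : wt b ε e a = ε := by simp [wt, ha]
        have e2 : wt b ε e c = 1 := by simp [wt, hc]
        have e3 : cut b e a = a := by simp [cut, ha]
        have e4 : cut b e c = (b e, 0) := by simp [cut, hc]
        rw [e1, e2, e3, e4]
        have h3 := nn_A5 (b := b) (e := e) hε (h2 ha) l2 s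
        have h4 := mul_le_mul_of_nonneg_right hε1 (hpos (s + (l2 : Multiset Tok)))
        linarith
      · have e1 : wt b ε e a = ε := by simp [wt, ha]
        have e2 : wt b ε e c = ε := by simp [wt, hc]
        have e3 : cut b e a = a := by simp [cut, ha]
        have e4 : cut b e c = c := by simp [cut, hc]
        rw [e1, e2, e3, e4]
        have h3 := nn_A5 (b := b) (e := e) hε h l2 s
        linarith
  | cons x l1 ih =>
    intro l2 s
    have key1 : ∀ z : Tok, F (mon s * phiL b ε e ((x :: l1) ++ z :: l2)) =
        wt b ε e x * F (mon (s + ((l1 ++ l2 : List Tok) : Multiset Tok)) * X z) +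
          F (mon (cut b e x ::ₘ s) * phiL b ε e (l1 ++ z :: l2)) := by
      intro z
      rw [← F_C_A5, ← map_add, List.cons_append, phiL_cons_A5, mon_cons_A5, ← mon_mul_pr_A5,
        pr_append_A5, pr_cons_A5, pr_append_A5]
      congr 1
      ring
    rw [key1, key1]
    have h3 := h (s + ((l1 ++ l2 : List Tok) : Multiset Tok))
    have h4 := ih l2 (cut b e x ::ₘ s)
    have h5 := mul_le_mul_of_nonneg_left h3 (wt_nonneg_A5 (b := b) (e := e) hε x)
    linarith

/-- exchange of two neighbours -/
private lemma swap_A5 (hε : 0 ≤ ε) (hA : ∀ x : Tok, has b e x → Bel_A5 F (b e, 0) x)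
    (hB : ∀ x y : Tok, has b e x → has b e y → y.1 ≤ x.1 → Bel_A5 F y x)
    (x y : Tok) (hyx : tle b e y x) (L : List Tok) (s : Multiset Tok) :
    F (mon s * phiL b ε e (x :: y :: L)) ≤ F (mon s * phiL b ε e (y :: x :: L)) := by
  have hid : F (mon s * phiL b ε e (y :: x :: L)) - F (mon s * phiL b ε e (x :: y :: L)) =
      wt b ε e y * (F (mon (s + (L : Multiset Tok)) * X x) -
        F (mon (s + (L : Multiset Tok)) * X (cut b e x))) -
      wt b ε e x * (F (mon (s + (L : Multiset Tok)) * X y) -
        F (mon (s + (L : Multiset Tok)) * X (cut b e y))) := by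
    rw [← map_sub, ← map_sub, ← map_sub, ← F_C_A5, ← F_C_A5, ← map_sub, ← mon_mul_pr_A5]
    congr 1
    simp only [phiL_cons_A5, pr_cons_A5]
    ring
  have hkey : key b e y ≤ key b e x := by
    unfold tle at hyx
    omega
  by_cases hx : has b e x
  · by_cases hy : has b e y
    · have e1 : wt b ε e y = 1 := by simp [wt, hy]
      have e2 : wt b ε e x = 1 := by simp [wt, hx]
      have e3 : cut b e x = (b e, 0) := by simp [cut, hx]
      have e4 : cut b e y = (b e, 0) := by simp [cut, hy]
      rw [e1, e2, e3, e4] at hid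
      have h1 : y.1 ≤ x.1 := by
        simp only [key, if_pos hx, if_pos hy] at hkey
        omega
      have h2 := hB x y hx hy h1 (s + (L : Multiset Tok))
      linarith
    · have e1 : wt b ε e y = ε := by simp [wt, hy]
      have e3 : cut b e x = (b e, 0) := by simp [cut, hx]
      have e4 : cut b e y = y := by simp [cut, hy]
      rw [e1, e3, e4] at hid
      have h2 := hA x hx (s + (L : Multiset Tok))
      have h3 : 0 ≤ ε * (F (mon (s + (L : Multiset Tok)) * X x) -
        F (mon (s + (L : Multiset Tok)) * X (b e, 0))) := mul_nonneg hε (by linarith)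
      linarith
  · have hy : ¬ has b e y := by
      intro hy
      simp only [key, if_neg hx, if_pos hy] at hkey
      omega
    have e3 : cut b e x = x := by simp [cut, hx]
    have e4 : cut b e y = y := by simp [cut, hy]
    rw [e3, e4] at hid
    linarith

private lemma ins_A5 (hε : 0 ≤ ε) (hA : ∀ x : Tok, has b e x → Bel_A5 F (b e, 0) x)
    (hB : ∀ x y : Tok, has b e x → has b e y → y.1 ≤ x.1 → Bel_A5 F y x) (x : Tok) :
    ∀ (L : List Tok) (s : Multiset Tok),
      F (mon s * phiL b ε e (x :: L)) ≤ F (mon s * phiL b ε e (L.orderedInsert (tle b e) x)) := by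
  intro L
  induction L with
  | nil => intro s; simp
  | cons y L ih =>
    intro s
    rw [List.orderedInsert_cons]
    split_ifs with h
    · exact le_rfl
    · have hyx : tle b e y x := by
        rcases Std.Total.total (r := tle b e) x y with h' | h'
        · exact absurd h' h
        · exact h'
      refine (swap_A5 hε hA hB x y hyx L s).trans ?_
      have key1 : ∀ M : List Tok, F (mon s * phiL b ε e (y :: M)) =
          wt b ε e y * F (mon s * pr M) + F (mon (cut b e y ::ₘ s) * phiL b ε e M) := by
        intro M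
        rw [← F_C_A5, ← map_add, phiL_cons_A5, mon_cons_A5]
        congr 1
        ring
      rw [key1, key1, pr_perm_A5 (List.perm_orderedInsert (tle b e) x L)]
      have h2 := ih (cut b e y ::ₘ s)
      linarith

private lemma sort_A5 (hε : 0 ≤ ε) (hA : ∀ x : Tok, has b e x → Bel_A5 F (b e, 0) x)
    (hB : ∀ x y : Tok, has b e x → has b e y → y.1 ≤ x.1 → Bel_A5 F y x) :
    ∀ (L : List Tok) (s : Multiset Tok),
      F (mon s * phiL b ε e L) ≤ F (mon s * phiL b ε e (L.insertionSort (tle b e))) := by
  intro L
  induction L with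
  | nil => intro s; simp
  | cons x L ih =>
    intro s
    rw [List.insertionSort_cons]
    refine le_trans ?_ (ins_A5 hε hA hB x _ s)
    have key1 : ∀ M : List Tok, F (mon s * phiL b ε e (x :: M)) =
        wt b ε e x * F (mon s * pr M) + F (mon (cut b e x ::ₘ s) * phiL b ε e M) := by
      intro M
      rw [← F_C_A5, ← map_add, phiL_cons_A5, mon_cons_A5]
      congr 1
      ring
    rw [key1, key1, pr_perm_A5 (List.perm_insertionSort (tle b e) L)]
    have h2 := ih (cut b e x ::ₘ s)
    linarith

end

/-- A5 -/
theorem pf_Mono (h1 : StLow) (_h2 : StBot) (_h3 : StLeib) (h4 : StPos) : StMono := by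
  intro b ε n d hε hε1
  induction d with
  | zero =>
    intro _ m a c _ _ _
    have key1 : ∀ z : Tok, V b ε n 0 (mon m * X z) = 0 := by
      intro z
      show coeff 0 (mon m * X z) = 0
      rw [coeff_mul_X']
      simp
    rw [key1, key1]
  | succ d ih =>
    intro hd m a c ha hc hac
    have hd' : d ≤ n := by omega
    have ih' := ih hd'
    obtain ⟨e, he⟩ : ∃ e, e = n - (d + 1) := ⟨_, rfl⟩
    have he1 : n - d = e + 1 := by omega
    have hen : e < n := by omega
    rw [← he] at ha hc hac
    rw [he1] at ih'
    have hF : ∀ p : Alg, V b ε n (d + 1) p = V b ε n d (phi b ε e p) := by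
      intro p
      rw [he]
      rfl
    obtain ⟨F, hFdef⟩ : ∃ F, F = V b ε n d := ⟨_, rfl⟩
    rw [← hFdef] at ih' hF
    have hpos : ∀ m : Multiset Tok, 0 ≤ F (mon m) := by
      intro m
      rw [hFdef]
      exact (h4 b ε n d m).1 hε
    have hA : ∀ x : Tok, has b e x → Bel_A5 F (b e, 0) x := by
      intro x hx m
      refine ih' m (b e, 0) x (by simp) (by have := hx.1; omega) ?_
      intro v _ _ h3
      have := hx.2
      simp only at h3
      omega
    have hB : ∀ x y : Tok, has b e x → has b e y → y.1 ≤ x.1 → Bel_A5 F y x := by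
      intro x y hx hy hyx m
      refine ih' m y x (by have := hy.1; omega) (by have := hx.1; omega) ?_
      intro v _ _ h3
      omega
    have hBac : Bel_A5 F a c := by
      intro m
      exact ih' m a c (by omega) (by omega) (fun v hv hvn h => hac v (by omega) hvn h)
    have h1' : has b e a → has b e c := by
      intro h
      exact ⟨hc, hac e le_rfl hen h.2⟩
    have h2' : ¬ has b e a → Bel_A5 F a (b e, 0) := by
      intro h m
      refine ih' m a (b e, 0) (by omega) (by simp) ?_
      intro v _ _ h3
      have h5 : ¬ (b e < a.1) := fun h6 => h ⟨ha, h6⟩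
      simp only
      omega
    -- the sorted list of `m + a`
    obtain ⟨L, hL⟩ : ∃ L : List Tok, L = (a ::ₘ m).toList.insertionSort (tle b e) := ⟨_, rfl⟩
    have hLperm : L.Perm (a ::ₘ m).toList := hL ▸ List.perm_insertionSort _ _
    have hLm : (L : Multiset Tok) = a ::ₘ m := by
      rw [Multiset.coe_eq_coe.mpr hLperm, Multiset.coe_toList]
    have hLs : L.Pairwise (tle b e) := hL ▸ List.pairwise_insertionSort _ _
    have haL : a ∈ L := by
      rw [← Multiset.mem_coe, hLm]
      exact Multiset.mem_cons_self a m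
    obtain ⟨l1, l2, hl⟩ := List.append_of_mem haL
    have hm : ((l1 ++ l2 : List Tok) : Multiset Tok) = m := by
      have h5 : ((l1 ++ a :: l2 : List Tok) : Multiset Tok) = a ::ₘ m := by rw [← hl, hLm]
      have h6 : ((l1 ++ a :: l2 : List Tok) : Multiset Tok) = a ::ₘ ((l1 ++ l2 : List Tok) : Multiset Tok) := by
        rw [Multiset.cons_coe, Multiset.coe_eq_coe]
        exact List.perm_middle
      rw [h6] at h5
      exact (Multiset.cons_inj_right a).mp h5
    have hpz : ∀ z : Tok, mon m * X z = pr (l1 ++ z :: l2) := by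
      intro z
      rw [← hm, ← pr_eq_mon_A5, pr_append_A5, pr_append_A5, pr_cons_A5]
      ring
    have hps : ∀ M : List Tok, phi b ε e (pr M) = phiL b ε e (M.insertionSort (tle b e)) := by
      intro M
      rw [pr_perm_A5 (List.perm_insertionSort (tle b e) M).symm]
      exact (h1 b ε e).1 _ (List.pairwise_insertionSort _ _)
    rw [hF, hF, hpz a, hpz c, ← hl, (h1 b ε e).1 L hLs, hl, hps]
    have h7 := rep_A5 hε hε1 hpos hBac h1' h2' l1 l2 0
    have h8 := sort_A5 hε hA hB (l1 ++ c :: l2) 0
    have h9 : mon (0 : Multiset Tok) = 1 := by simp [mon]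
    rw [h9, one_mul, one_mul] at h7 h8
    exact h7.trans h8

end Pool.Agent.Helper51.PE
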