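import Pool.Agent.Helper51.PE.St

/-!
PROJECT PE2 (MP_6da2a2_co), module A6: monotonicity of `DD`.
-/

set_option autoImplicit false

namespace Pool.Agent.Helper51.PE

open MvPolynomial

private theorem DD_not_A6 (b : ℕ → ℕ) (ε : ℝ) (e : ℕ) (c : Tok) (h : ¬ has b e c) :
    DD b ε e c = 0 := by
  unfold DD cut
  rw [if_neg h, sub_self, mul_zero]

private theorem DD_has_A6 (b : ℕ → ℕ) (ε : ℝ) (e : ℕ) (c : Tok) (h : has b e c) :
    DD b ε e c = X c - X (b e, 0) := by
  unfold DD cut wt
  rw [if_pos h, if_pos h, inv_one, C_1, one_mul]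

theorem pf_DMono (h5 : StMono) : StDMono := by
  intro b ε n d h0 h1 hd m c0 c ht
  have key5 := fun a c ha hc hv => h5 b ε n d h0.le h1 (by omega : d ≤ n) m a c ha hc hv
  by_cases hc : has b (n - (d + 1)) c
  · have hc' : c.2 ≤ n - (d + 1) ∧ b (n - (d + 1)) < c.1 := hc
    by_cases hc0 : has b (n - (d + 1)) c0
    · have hc0' : c0.2 ≤ n - (d + 1) ∧ b (n - (d + 1)) < c0.1 := hc0
      have hle : c0.1 ≤ c.1 := by
        unfold tle key at ht
        rw [if_pos hc, if_pos hc0] at ht
        omega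
      rw [DD_has_A6 b ε _ c hc, DD_has_A6 b ε _ c0 hc0, mul_sub, mul_sub, map_sub, map_sub]
      have := key5 c0 c (by omega) (by omega) (fun v _ _ hv => lt_of_lt_of_le hv hle)
      linarith
    · rw [DD_has_A6 b ε _ c hc, DD_not_A6 b ε _ c0 hc0, mul_zero, map_zero, mul_sub, map_sub]
      have := key5 (b (n - (d + 1)), 0) c (Nat.zero_le _) (by omega)
        (fun v _ _ hv => lt_trans hv hc'.2)
      linarith
  · have hc0 : ¬ has b (n - (d + 1)) c0 := by
      intro h
      unfold tle key at ht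
      rw [if_pos h, if_neg hc] at ht
      omega
    rw [DD_not_A6 b ε _ c hc, DD_not_A6 b ε _ c0 hc0]

end Pool.Agent.Helper51.PE
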