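import Pool.Agent.Helper51.PE.St

set_option autoImplicit false

namespace Pool.Agent.Helper51.PE

open MvPolynomial

private theorem vars_fixP_B1 (l : List Item) : ∀ a ∈ (fixP l).vars, ∃ p ∈ l, p.1 = a := by
  induction l with
  | nil =>
    intro a ha
    simp [fixP] at ha
  | cons p l ih =>
    obtain ⟨c, o⟩ := p
    intro a ha
    cases o with
    | none =>
      simp only [fixP] at ha
      have := vars_mul _ _ ha
      rw [Finset.mem_union] at this
      rcases this with h | h
      · rw [vars_X, Finset.mem_singleton] at h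
        exact ⟨(c, none), by simp, h.symm⟩
      · obtain ⟨p, hp, hpa⟩ := ih a h
        exact ⟨p, List.mem_cons_of_mem _ hp, hpa⟩
    | some r =>
      simp only [fixP] at ha
      obtain ⟨p, hp, hpa⟩ := ih a ha
      exact ⟨p, List.mem_cons_of_mem _ hp, hpa⟩

private theorem vars_varP_B1 (l : List Item) : ∀ a ∈ (varP l).vars, ∃ p ∈ l, p.1 = a := by
  induction l with
  | nil =>
    intro a ha
    simp [varP] at ha
  | cons p l ih =>
    obtain ⟨c, o⟩ := p
    intro a ha
    cases o with
    | none =>
      simp only [varP] at ha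
      obtain ⟨p, hp, hpa⟩ := ih a ha
      exact ⟨p, List.mem_cons_of_mem _ hp, hpa⟩
    | some r =>
      simp only [varP] at ha
      have := vars_add_subset _ _ ha
      rw [Finset.mem_union] at this
      rcases this with h | h
      · have h' := vars_mul _ _ h
        rw [Finset.mem_union, vars_C, vars_X] at h'
        rcases h' with h' | h'
        · simp at h'
        · rw [Finset.mem_singleton] at h'
          exact ⟨(c, some r), by simp, h'.symm⟩
      · obtain ⟨p, hp, hpa⟩ := ih a h
        exact ⟨p, List.mem_cons_of_mem _ hp, hpa⟩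

theorem pf_Psi (h1 : StLow) : StPsi := by
  intro b ε e c l y hl
  have hrefl : tle b e c c := by
    unfold tle
    right
    exact ⟨rfl, Or.inr ⟨rfl, le_refl _⟩⟩
  have hF : ∀ a ∈ (fixP l).vars, tle b e c a := by
    intro a ha
    obtain ⟨p, hp, rfl⟩ := vars_fixP_B1 l a ha
    exact hl p hp
  have hv : ∀ a ∈ (varP l).vars, tle b e c a := by
    intro a ha
    obtain ⟨p, hp, rfl⟩ := vars_varP_B1 l a ha
    exact hl p hp
  have hmul : ∀ f g : Alg, (∀ a ∈ f.vars, tle b e c a) → (∀ a ∈ g.vars, tle b e c a) →
      (∀ a ∈ (f * g).vars, tle b e c a) := by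
    intro f g hf hg a ha
    have := vars_mul _ _ ha
    rw [Finset.mem_union] at this
    rcases this with h | h
    · exact hf a h
    · exact hg a h
  have hX : ∀ a ∈ (X c : Alg).vars, tle b e c a := by
    intro a ha
    rw [vars_X, Finset.mem_singleton] at ha
    rw [ha]; exact hrefl
  have low := (h1 b ε e).2 c
  have hFv : ∀ a ∈ (fixP l * varP l).vars, tle b e c a := hmul _ _ hF hv
  have hFvv : ∀ a ∈ (fixP l * varP l ^ 2).vars, tle b e c a := by
    have h3 := hmul _ _ hFv hv
    have : fixP l * varP l ^ 2 = fixP l * varP l * varP l := by ring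
    rw [this]; exact h3
  have hXF : ∀ a ∈ (X c * fixP l : Alg).vars, tle b e c a := hmul _ _ hX hF
  have p0 := low (fixP l) hF
  have p1 := low (fixP l * varP l) hFv
  have p2 := low (fixP l * varP l ^ 2) hFvv
  have p3 := low (X c * fixP l) hXF
  have hC : ∀ (r : ℝ) (p : Alg), phi b ε e (C r * p) = C r * phi b ε e p := by
    intro r p
    rw [← smul_eq_C_mul, ← smul_eq_C_mul, map_smul]
  constructor
  · simp only [Psi, fixP, varP]
    have e2 : X c * fixP l * varP l ^ 2 = X c * (fixP l * varP l ^ 2) := by ring
    have e1 : X c * fixP l * varP l = X c * (fixP l * varP l) := by ring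
    rw [e2, e1, p0, p1, p2]
    ring
  · intro r
    simp only [Psi, fixP, varP]
    have e2 : fixP l * (C r * X c + varP l) ^ 2 =
        C (r ^ 2) * (X c * (X c * fixP l)) + C (2 * r) * (X c * (fixP l * varP l))
          + fixP l * varP l ^ 2 := by
      simp only [map_pow, map_mul]
      have : (C (2 : ℝ) : Alg) = 2 := map_ofNat C 2
      rw [this]
      ring
    have e1 : fixP l * (C r * X c + varP l) =
        C r * (X c * fixP l) + fixP l * varP l := by ring
    rw [e2, e1]
    simp only [map_add, hC]
    rw [p3, p0, p1]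
    simp only [map_pow, map_mul]
    have : (C (2 : ℝ) : Alg) = 2 := map_ofNat C 2
    rw [this]
    ring

end Pool.Agent.Helper51.PE
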