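import Pool.Agent.Helper51.PE.St

/-! PE2 module B2 (helper58): reversed Cauchy-Schwarz. -/

set_option autoImplicit false

namespace Pool.Agent.Helper51.PE

theorem pf_RCS : StRCS := by
  intro W _ _ B hsym hH x p hp
  obtain ⟨φ, hφ⟩ := hH
  have hφp : φ p ≠ 0 := by
    intro h0
    have h1 := hφ p h0
    simp only at h1
    linarith
  set t : ℝ := φ x / φ p with ht
  have hz : φ (x - t • p) = 0 := by
    rw [map_sub, map_smul, smul_eq_mul, ht, div_mul_cancel₀ _ hφp, sub_self]
  have h1 := hφ (x - t • p) hz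
  simp only [map_sub, map_smul, LinearMap.sub_apply, LinearMap.smul_apply, smul_eq_mul] at h1
  rw [hsym p x] at h1
  nlinarith [sq_nonneg (B x p - t * B p p), mul_le_mul_of_nonneg_right h1 hp.le]

end Pool.Agent.Helper51.PE
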