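import Pool.Agent.Helper51.PE.St

set_option autoImplicit false

namespace Pool.Agent.Helper51.PE

theorem pf_Real : StReal := by
  intro q α β θ η κ ρ σ hκ hη hρ h
  obtain ⟨t, rfl⟩ : ∃ t, σ = ρ * t := ⟨σ / ρ, by field_simp⟩
  have e1 : ρ * t / ρ = t := by field_simp
  rw [e1] at h
  refine ⟨ρ * ((α + t * η) / κ), ?_⟩
  set τ : ℝ := (α + t * η) / κ with hτ
  have hτκ : α + t * η = κ * τ := by rw [hτ]; field_simp
  have h2 : q + 2 * t * β + t ^ 2 * θ ≤ κ * τ ^ 2 := by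
    rw [hτκ] at h
    have h3 : (q + 2 * t * β + t ^ 2 * θ) * κ ≤ (κ * τ ^ 2) * κ := by nlinarith
    exact le_of_mul_le_mul_right h3 hκ
  have e2 : ρ * q + 2 * (ρ * t) * β - (ρ * t) ^ 2 * ((η - θ) / ρ) =
      ρ * (q + 2 * t * β - t ^ 2 * (η - θ)) := by field_simp
  have e3 : 2 * (ρ * τ) * α - (ρ * τ) ^ 2 * ((κ - η) / ρ) =
      ρ * (2 * τ * α - τ ^ 2 * (κ - η)) := by field_simp
  rw [e2, e3]
  apply mul_le_mul_of_nonneg_left _ hρ.le
  have hα : α = κ * τ - t * η := by linarith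
  have h4 : 0 ≤ η * (τ - t) ^ 2 := mul_nonneg hη (sq_nonneg _)
  rw [hα]
  nlinarith

end Pool.Agent.Helper51.PE
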