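import Pool.Agent.Helper51.PE.St

/-!
# Project PE2, module B4: the path lemma
-/

set_option autoImplicit false

namespace Pool.Agent.Helper51.PE

open MvPolynomial

private theorem phi_one_B4 (b : ℕ → ℕ) (ε : ℝ) (e : ℕ) : phi b ε e 1 = 0 := by
  have h : (1 : Alg) = basisMonomials Tok ℝ 0 := by
    rw [coe_basisMonomials]
    rfl
  rw [h, phi, Module.Basis.constr_basis]
  simp [phiL]

private theorem lin_eq_B4 (v : Tok →₀ ℝ) :
    lin v = Finsupp.linearCombination ℝ (fun c : Tok => (X c : Alg)) v := by
  rw [Finsupp.linearCombination_apply, lin]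
  refine Finsupp.sum_congr fun c _ => ?_
  rw [smul_eq_C_mul]

private theorem lin_add_B4 (v w : Tok →₀ ℝ) : lin (v + w) = lin v + lin w := by
  simp only [lin_eq_B4, map_add]

private theorem lin_smul_B4 (r : ℝ) (v : Tok →₀ ℝ) : lin (r • v) = C r * lin v := by
  simp only [lin_eq_B4, map_smul, smul_eq_C_mul]

private theorem lin_single_B4 (c : Tok) (r : ℝ) : lin (Finsupp.single c r) = C r * X c := by
  rw [lin_eq_B4, Finsupp.linearCombination_single, smul_eq_C_mul]

private theorem varP_lin_B4 (l : List Item) : ∃ w : Tok →₀ ℝ, varP l = lin w := by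
  induction l with
  | nil => exact ⟨0, by simp [varP, lin]⟩
  | cons p l ih =>
    obtain ⟨w, hw⟩ := ih
    obtain ⟨c, o⟩ := p
    cases o with
    | none => exact ⟨w, by simpa [varP] using hw⟩
    | some r =>
      refine ⟨Finsupp.single c r + w, ?_⟩
      rw [lin_add_B4, lin_single_B4, ← hw]
      rfl

private theorem mon_cons_B4 (c : Tok) (S : Multiset Tok) : mon (c ::ₘ S) = X c * mon S := by
  simp [mon]

private theorem fixP_mon_B4 (l : List Item) : ∃ S : Multiset Tok, fixP l = mon S ∧ Multiset.card S = nfix l := by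
  induction l with
  | nil => exact ⟨0, by simp [fixP, mon], by simp [nfix]⟩
  | cons p l ih =>
    obtain ⟨S, hS, hc⟩ := ih
    obtain ⟨c, o⟩ := p
    cases o with
    | none =>
      refine ⟨c ::ₘ S, ?_, ?_⟩
      · rw [mon_cons_B4, ← hS]
        rfl
      · rw [Multiset.card_cons, hc]
        rfl
    | some r => exact ⟨S, hS, hc⟩

private theorem mon_add_B4 (S T : Multiset Tok) : mon (S + T) = mon S * mon T := by
  simp [mon]

private theorem wt_pos_B4 (b : ℕ → ℕ) (ε : ℝ) (hε : 0 < ε) (e : ℕ) (c : Tok) : 0 < wt b ε e c := by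
  unfold wt
  split_ifs
  · exact one_pos
  · exact hε

private theorem V_C_B4 (b : ℕ → ℕ) (ε : ℝ) (n d : ℕ) (r : ℝ) (p : Alg) :
    V b ε n d (C r * p) = r * V b ε n d p := by
  rw [← smul_eq_C_mul, map_smul, smul_eq_mul]

/-- The bilinear form `L (G * lin p * lin q)`. -/
private noncomputable def bil_B4 (L : Alg →ₗ[ℝ] ℝ) (G : Alg) :
    (Tok →₀ ℝ) →ₗ[ℝ] (Tok →₀ ℝ) →ₗ[ℝ] ℝ :=
  LinearMap.mk₂ ℝ (fun p q => L (G * (lin p * lin q)))
    (by intro p p' q; rw [lin_add_B4, add_mul, mul_add, map_add])
    (by
      intro r p q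
      rw [lin_smul_B4, show G * (C r * lin p * lin q) = C r * (G * (lin p * lin q)) by ring,
        ← smul_eq_C_mul, map_smul])
    (by intro p q q'; rw [lin_add_B4, mul_add, mul_add, map_add])
    (by
      intro r p q
      rw [lin_smul_B4, show G * (lin p * (C r * lin q)) = C r * (G * (lin p * lin q)) by ring,
        ← smul_eq_C_mul, map_smul])

private theorem bil_apply_B4 (L : Alg →ₗ[ℝ] ℝ) (G : Alg) (p q : Tok →₀ ℝ) :
    bil_B4 L G p q = L (G * (lin p * lin q)) := rfl

theorem pf_Path (h4 : StPos) (h6 : StDMono) (b1 : StPsi) (b2 : StRCS) (b3 : StReal) : StPath := by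
  intro b ε n d hε hε1 hdn hyp l
  induction l with
  | nil =>
    intro _ s _ v
    refine ⟨0, fun c0 _ => ?_⟩
    have h0 : Psi b ε (n - (d + 1)) [] (lin v) = 0 := by
      simp only [Psi, fixP, varP]
      have e1 : (1 : Alg) * 0 ^ 2 = 0 := by ring
      have e2 : (1 : Alg) * 0 = 0 := by ring
      rw [e1, e2, map_zero, phi_one_B4]
      ring
    rw [h0, mul_zero, map_zero]
    have : (2 : ℝ) * 0 * V b ε n d (mon s * fixP [] * (lin v + varP []))
        - 0 ^ 2 * V b ε n d (mon s * fixP [] * DD b ε (n - (d + 1)) c0) = 0 := by ring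
    rw [this]
  | cons p l ih =>
    obtain ⟨c, o⟩ := p
    intro hsort s hcard v
    rw [List.pairwise_cons] at hsort
    obtain ⟨hcl, hl⟩ := hsort
    have ih' := ih hl
    obtain ⟨S, hS, hSc⟩ := fixP_mon_B4 l
    obtain ⟨w, hw⟩ := varP_lin_B4 l
    set e := n - (d + 1) with he
    have hρ := wt_pos_B4 b ε hε e c
    set ρ := wt b ε e c with hρdef
    obtain ⟨B1n, B1s⟩ := b1 b ε e c l (lin v) hcl
    -- the value of `DD c`
    have hDD : ∀ G : Alg, V b ε n d (G * DD b ε e c) =
        (V b ε n d (G * X c) - V b ε n d (G * X (cut b e c))) / ρ := by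
      intro G
      rw [DD, ← hρdef, show G * (C ρ⁻¹ * (X c - X (cut b e c))) = C ρ⁻¹ * (G * X c - G * X (cut b e c)) by ring,
        V_C_B4, map_sub]
      field_simp
    cases o with
    | some r =>
      have hcard' : Multiset.card s + nfix l + 1 = d := hcard
      obtain ⟨σ, hσ⟩ := ih' s hcard' (v + Finsupp.single (cut b e c) r)
      have hσc := hσ c hcl
      refine ⟨σ + r * ρ, fun c0 hc0 => ?_⟩
      have hc0c : tle b e c0 c := hc0 (c, some r) (List.mem_cons_self ..)
      have hmono := h6 b ε n d hε hε1 hdn (s + S) c0 c hc0c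
      rw [mon_add_B4, ← hS, ← he] at hmono
      have hy : lin (v + Finsupp.single (cut b e c) r) = lin v + C r * X (cut b e c) := by
        rw [lin_add_B4, lin_single_B4]
      rw [hy] at hσc
      rw [B1s r]
      have hfix : fixP ((c, some r) :: l) = fixP l := rfl
      have hvar : varP ((c, some r) :: l) = C r * X c + varP l := rfl
      rw [hfix, hvar]
      set G := mon s * fixP l with hG
      set a := V b ε n d (G * (lin v + varP l)) with ha
      set x := V b ε n d (G * X c) with hx
      set xc := V b ε n d (G * X (cut b e c)) with hxc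
      have e1 : V b ε n d (mon s * (C (r * ρ) * fixP l * (2 * (lin v + varP l) + C r * (X c + X (cut b e c)))
          + Psi b ε e l (lin v + C r * X (cut b e c)))) =
          r * ρ * (2 * a + r * (x + xc)) + V b ε n d (mon s * Psi b ε e l (lin v + C r * X (cut b e c))) := by
        rw [show mon s * (C (r * ρ) * fixP l * (2 * (lin v + varP l) + C r * (X c + X (cut b e c)))
          + Psi b ε e l (lin v + C r * X (cut b e c))) =
          C (r * ρ) * (G * (lin v + varP l) + G * (lin v + varP l) + C r * (G * X c + G * X (cut b e c)))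
          + mon s * Psi b ε e l (lin v + C r * X (cut b e c)) by rw [hG]; ring]
        rw [map_add, V_C_B4, map_add, map_add, V_C_B4, map_add, ← ha, ← hx, ← hxc]
        ring
      have e2 : V b ε n d (G * (lin v + C r * X (cut b e c) + varP l)) = a + r * xc := by
        rw [show G * (lin v + C r * X (cut b e c) + varP l) =
          G * (lin v + varP l) + C r * (G * X (cut b e c)) by ring, map_add, V_C_B4]
      have e3 : V b ε n d (G * (lin v + (C r * X c + varP l))) = a + r * x := by
        rw [show G * (lin v + (C r * X c + varP l)) =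
          G * (lin v + varP l) + C r * (G * X c) by ring, map_add, V_C_B4]
      rw [e2] at hσc
      rw [e1, e3]
      have hD := hDD G
      set D := V b ε n d (G * DD b ε e c) with hDdef
      have hxx : x = xc + ρ * D := by
        rw [hD, ← hx, ← hxc]
        field_simp
        ring
      have hsq : 0 ≤ (σ + r * ρ) ^ 2 := sq_nonneg _
      have hprod : (σ + r * ρ) ^ 2 * V b ε n d (G * DD b ε e c0) ≤ (σ + r * ρ) ^ 2 * D :=
        mul_le_mul_of_nonneg_left hmono hsq
      have hid : r * ρ * (2 * a + r * (x + xc)) + (2 * σ * (a + r * xc) - σ ^ 2 * D) =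
          2 * (σ + r * ρ) * (a + r * x) - (σ + r * ρ) ^ 2 * D := by
        rw [hxx]
        ring
      linarith
    | none =>
      have hcard' : Multiset.card s + (nfix l + 1) + 1 = d := hcard
      obtain ⟨σ, hσ⟩ := ih' (cut b e c ::ₘ s) (by rw [Multiset.card_cons]; omega) v
      have hσc := hσ c hcl
      rw [mon_cons_B4] at hσc
      -- the monomial
      have hGm : mon s * fixP l = mon (s + S) := by rw [mon_add_B4, hS]
      set G := mon s * fixP l with hG
      have hScard : Multiset.card (s + S) + 2 = d := by
        rw [Multiset.card_add, hSc]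
        omega
      -- the form
      set B := bil_B4 (V b ε n d) G with hB
      have hsymm : ∀ x z, B x z = B z x := by
        intro x z
        rw [hB, bil_apply_B4, bil_apply_B4, mul_comm (lin x)]
      have hhyp : Hyp (fun u => B u u) := by
        have h := hyp (s + S) hScard
        rw [← hGm] at h
        have : (fun u : Tok →₀ ℝ => B u u) = fun u => V b ε n d (G * lin u ^ 2) := by
          funext u
          rw [hB, bil_apply_B4, sq]
        rw [this]
        exact h
      have hX1 : ∀ a : Tok, lin (Finsupp.single a 1) = X a := by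
        intro a
        rw [lin_single_B4, C_1, one_mul]
      have hBXX : ∀ a a' : Tok, B (Finsupp.single a 1) (Finsupp.single a' 1) =
          V b ε n d (mon (a ::ₘ a' ::ₘ (s + S))) := by
        intro a a'
        rw [hB, bil_apply_B4, hX1, hX1, mon_cons_B4, mon_cons_B4, ← hGm]
        congr 1
        ring
      set p : Tok →₀ ℝ := Finsupp.single c 1 with hp
      set pc : Tok →₀ ℝ := Finsupp.single (cut b e c) 1 with hpc
      set Y : Tok →₀ ℝ := v + w with hY
      have hlinY : lin Y = lin v + varP l := by rw [hY, lin_add_B4, hw]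
      set κ := B p p with hκ
      set η := B pc p with hη
      set θ := B pc pc with hθ
      set α := B Y p with hα
      set β := B Y pc with hβ
      set q := B Y Y with hq
      have hκpos : 0 < κ := by
        rw [hκ, hp, hBXX]
        refine (h4 b ε n d _).2.1 hε ?_
        rw [Multiset.card_cons, Multiset.card_cons]
        omega
      have hηnn : 0 ≤ η := by
        rw [hη, hp, hpc, hBXX]
        exact (h4 b ε n d _).1 hε.le
      have hcs := b2 (Tok →₀ ℝ) B hsymm hhyp (Y + (σ / ρ) • pc) p hκpos
      have hxx : B (Y + (σ / ρ) • pc) (Y + (σ / ρ) • pc) = q + 2 * (σ / ρ) * β + (σ / ρ) ^ 2 * θ := by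
        simp only [map_add, map_smul, LinearMap.add_apply, LinearMap.smul_apply, smul_eq_mul]
        rw [hsymm pc Y, ← hq, ← hβ, ← hθ]
        ring
      have hxp : B (Y + (σ / ρ) • pc) p = α + (σ / ρ) * η := by
        simp only [map_add, map_smul, LinearMap.add_apply, LinearMap.smul_apply, smul_eq_mul]
        rw [← hα, ← hη]
      rw [hxx, hxp] at hcs
      obtain ⟨σ', hσ'⟩ := b3 q α β θ η κ ρ σ hκpos hηnn hρ hcs
      refine ⟨σ', fun c0 hc0 => ?_⟩
      have hc0c : tle b e c0 c := hc0 (c, none) (List.mem_cons_self ..)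
      have hmono := h6 b ε n d hε hε1 hdn (c ::ₘ (s + S)) c0 c hc0c
      rw [mon_cons_B4, ← hGm, ← he] at hmono
      rw [B1n]
      have hfix : fixP ((c, none) :: l) = X c * fixP l := rfl
      have hvar : varP ((c, none) :: l) = varP l := rfl
      rw [hfix, hvar]
      have e1 : V b ε n d (mon s * (C ρ * fixP l * (lin v + varP l) ^ 2 + X (cut b e c) * Psi b ε e l (lin v))) =
          ρ * q + V b ε n d (X (cut b e c) * mon s * Psi b ε e l (lin v)) := by
        rw [hq, hB, bil_apply_B4, hlinY, ← V_C_B4, ← map_add]
        congr 1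
        rw [hG]
        ring
      have e2 : V b ε n d (X (cut b e c) * mon s * fixP l * (lin v + varP l)) = β := by
        rw [hβ, hB, bil_apply_B4, hlinY, hpc, hX1]
        congr 1
        rw [hG]
        ring
      have e3 : V b ε n d (X (cut b e c) * mon s * fixP l * DD b ε e c) = (η - θ) / ρ := by
        rw [hDD, hη, hθ, hB, bil_apply_B4, bil_apply_B4, hpc, hp, hX1, hX1]
        congr 2
        · congr 1
          rw [hG]
          ring
        · congr 1
          rw [hG]
          ring
      have e4 : V b ε n d (mon s * (X c * fixP l) * (lin v + varP l)) = α := by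
        rw [hα, hB, bil_apply_B4, hlinY, hp, hX1]
        congr 1
        rw [hG]
        ring
      have e5 : V b ε n d (X c * G * DD b ε e c) = (κ - η) / ρ := by
        rw [hDD, hκ, hη, hB, bil_apply_B4, bil_apply_B4, hpc, hp, hX1, hX1]
        congr 2
        · congr 1
          ring
        · congr 1
          ring
      rw [e2, e3] at hσc
      rw [e1, e4]
      rw [e5] at hmono
      have hmono' : V b ε n d (mon s * (X c * fixP l) * DD b ε e c0) ≤ (κ - η) / ρ := by
        have : mon s * (X c * fixP l) * DD b ε e c0 = X c * G * DD b ε e c0 := by rw [hG]; ring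
        rw [this]
        exact hmono
      have hsq : 0 ≤ σ' ^ 2 := sq_nonneg _
      have hprod := mul_le_mul_of_nonneg_left hmono' hsq
      linarith

end Pool.Agent.Helper51.PE
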