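import Pool.Agent.Helper51.PE.St

set_option autoImplicit false

namespace Pool.Agent.Helper51.PE

open MvPolynomial

private theorem fixP_perm_B5 {l₁ l₂ : List Item} (h : l₁.Perm l₂) : fixP l₁ = fixP l₂ := by
  induction h with
  | nil => rfl
  | cons x _ ih => rcases x with ⟨c, _ | r⟩ <;> simp [fixP, ih]
  | swap x y l =>
    rcases x with ⟨c, _ | r⟩ <;> rcases y with ⟨c', _ | r'⟩ <;> simp only [fixP] <;> ring
  | trans _ _ h1 h2 => exact h1.trans h2

private theorem varP_perm_B5 {l₁ l₂ : List Item} (h : l₁.Perm l₂) : varP l₁ = varP l₂ := by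
  induction h with
  | nil => rfl
  | cons x _ ih => rcases x with ⟨c, _ | r⟩ <;> simp [varP, ih]
  | swap x y l =>
    rcases x with ⟨c, _ | r⟩ <;> rcases y with ⟨c', _ | r'⟩ <;> simp only [varP] <;> ring
  | trans _ _ h1 h2 => exact h1.trans h2

private theorem nfix_perm_B5 {l₁ l₂ : List Item} (h : l₁.Perm l₂) : nfix l₁ = nfix l₂ := by
  induction h with
  | nil => rfl
  | cons x _ ih => rcases x with ⟨c, _ | r⟩ <;> simp [nfix, ih]
  | swap x y l =>
    rcases x with ⟨c, _ | r⟩ <;> rcases y with ⟨c', _ | r'⟩ <;> simp only [nfix]
  | trans _ _ h1 h2 => exact h1.trans h2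

private theorem fixP_none_B5 (l : List Tok) (m : List Item) :
    fixP (l.map (fun c => ((c, none) : Item)) ++ m) = (l.map X).prod * fixP m := by
  induction l with
  | nil => simp
  | cons c l ih => simp only [List.map_cons, List.cons_append, fixP, ih, List.prod_cons, mul_assoc]

private theorem varP_none_B5 (l : List Tok) (m : List Item) :
    varP (l.map (fun c => ((c, none) : Item)) ++ m) = varP m := by
  induction l with
  | nil => simp
  | cons c l ih => simp only [List.map_cons, List.cons_append, varP, ih]

private theorem nfix_none_B5 (l : List Tok) (m : List Item) :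
    nfix (l.map (fun c => ((c, none) : Item)) ++ m) = l.length + nfix m := by
  induction l with
  | nil => simp
  | cons c l ih => simp only [List.map_cons, List.cons_append, nfix, ih, List.length_cons]; omega

private theorem fixP_some_B5 (l : List Tok) (v : Tok → ℝ) :
    fixP (l.map (fun c => ((c, some (v c)) : Item))) = 1 := by
  induction l with
  | nil => rfl
  | cons c l ih => simp only [List.map_cons, fixP, ih]

private theorem varP_some_B5 (l : List Tok) (v : Tok → ℝ) :
    varP (l.map (fun c => ((c, some (v c)) : Item))) = (l.map (fun c => C (v c) * X c)).sum := by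
  induction l with
  | nil => rfl
  | cons c l ih => simp only [List.map_cons, varP, ih, List.sum_cons]

private theorem nfix_some_B5 (l : List Tok) (v : Tok → ℝ) :
    nfix (l.map (fun c => ((c, some (v c)) : Item))) = 0 := by
  induction l with
  | nil => rfl
  | cons c l ih => simp only [List.map_cons, nfix, ih]

private theorem exists_M_B5 (l : List Item) : ∃ M : ℕ, ∀ p ∈ l, p.1.2 ≤ M := by
  induction l with
  | nil => exact ⟨0, by simp⟩
  | cons x l ih =>
    obtain ⟨M, hM⟩ := ih
    refine ⟨max M x.1.2, ?_⟩
    intro p hp
    rcases List.mem_cons.mp hp with h | h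
    · rw [h]; exact le_max_right _ _
    · exact (hM p h).trans (le_max_left _ _)

private noncomputable def linL_B5 : (Tok →₀ ℝ) →ₗ[ℝ] Alg :=
  Finsupp.linearCombination ℝ (fun c : Tok => (X c : Alg))

private theorem lin_eq_B5 (v : Tok →₀ ℝ) : lin v = linL_B5 v := by
  unfold lin linL_B5
  rw [Finsupp.linearCombination_apply]
  refine Finsupp.sum_congr fun c _ => ?_
  rw [smul_eq_C_mul]

theorem pf_AF (b4 : StPath) (_h1 : StLow) : StAF := by
  intro b ε n d hε hε1
  induction d with
  | zero =>
    intro _ S hS
    omega
  | succ d ih =>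
    intro hd S hS
    have ih' := ih (by omega)
    refine ⟨(V b ε n d).comp ((LinearMap.mulLeft ℝ (mon S)).comp linL_B5), ?_⟩
    intro v hv
    have hv' : V b ε n d (mon S * lin v) = 0 := by
      rw [lin_eq_B5]
      exact hv
    set e := n - (d + 1) with he
    -- the list
    let l0 : List Item := S.toList.map (fun c => ((c, none) : Item)) ++
      v.support.toList.map (fun c => ((c, some (v c)) : Item))
    let le : Item → Item → Bool := fun p q => decide (tle b e p.1 q.1)
    let l : List Item := l0.mergeSort le
    have hperm : l.Perm l0 := List.mergeSort_perm l0 le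
    have hsort : l.Pairwise (fun p q => tle b e p.1 q.1) := by
      have h := List.pairwise_mergeSort (le := le) (by
        intro x y z hxy hyz
        simp only [le, decide_eq_true_eq] at hxy hyz ⊢
        exact IsTrans.trans _ _ _ hxy hyz) (by
        intro x y
        simp only [le, Bool.or_eq_true, decide_eq_true_eq]
        exact Std.Total.total _ _) l0
      exact h.imp (fun {x y} hxy => by simpa only [le, decide_eq_true_eq] using hxy)
    have hfix : fixP l = mon S := by
      rw [fixP_perm_B5 hperm, fixP_none_B5, fixP_some_B5, mul_one]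
      unfold mon
      rw [← Multiset.prod_coe, ← Multiset.map_coe, Multiset.coe_toList]
    have hvar : varP l = lin v := by
      rw [varP_perm_B5 hperm, varP_none_B5, varP_some_B5]
      unfold lin Finsupp.sum
      exact Finset.sum_map_toList _ _
    have hnf : nfix l = Multiset.card S := by
      rw [nfix_perm_B5 hperm, nfix_none_B5, nfix_some_B5, Multiset.length_toList, add_zero]
    obtain ⟨σ, hσ⟩ := b4 b ε n d hε hε1 hd ih' l hsort 0 (by
      rw [hnf, Multiset.card_zero]; omega) 0
    obtain ⟨M, hM⟩ := exists_M_B5 l
    have hnot : ∀ k, ¬ has b e (0, k) := fun k h => absurd h.2 (Nat.not_lt_zero _)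
    have hbelow : ∀ p ∈ l, tle b e (0, M) p.1 := by
      intro p hp
      have h1 := hM p hp
      unfold tle
      have hk : key b e (0, M) = 0 := by
        unfold key
        rw [if_neg (hnot M)]
      rw [hk]
      simp only
      omega
    have h2 := hσ (0, M) hbelow
    have hDD : DD b ε e (0, M) = 0 := by
      unfold DD cut
      rw [if_neg (hnot M), sub_self, mul_zero]
    have hmon : mon (0 : Multiset Tok) = 1 := by
      unfold mon
      rw [Multiset.map_zero, Multiset.prod_zero]
    have hlin0 : lin (0 : Tok →₀ ℝ) = 0 := by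
      rw [lin_eq_B5, map_zero]
    rw [hmon, hlin0, hfix, hvar, hDD, one_mul, one_mul, mul_zero, map_zero, mul_zero, sub_zero,
      zero_add, hv', mul_zero] at h2
    have h3 : Psi b ε e l 0 = phi b ε e (mon S * lin v ^ 2) := by
      unfold Psi
      rw [hfix, hvar]
      ring
    rw [h3] at h2
    exact h2

end Pool.Agent.Helper51.PE
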