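import Pool.Agent.Helper51.PE.St

/-!
PROJECT PE2, module C1: the local-global (Bochner) lemma `StBoch`.
-/

set_option autoImplicit false

namespace Pool.Agent.Helper51.PE

open Finset

/-- the spectral part -/
private lemma spec_C1 {E : Type} [NormedAddCommGroup E] [InnerProductSpace ℝ E] [FiniteDimensional ℝ E]
    (T : E →ₗ[ℝ] E) (hT : T.IsSymmetric) (x0 : E)
    (h1 : ∀ x, inner ℝ x (T x) ≤ inner ℝ (T x) (T x))
    (h2 : ∀ x, inner ℝ x x ≤ inner ℝ x (T x) → ∃ t : ℝ, x = t • x0)
    (x : E) (hx : inner ℝ x0 x = 0) : inner ℝ x (T x) ≤ 0 := by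
  rw [← (hT.eigenvectorBasis rfl).sum_inner_mul_inner x (T x)]
  apply Finset.sum_nonpos
  intro i _
  have hi := hT.apply_eigenvectorBasis rfl i
  simp only [RCLike.ofReal_real_eq_id, id_eq] at hi
  obtain ⟨y, hy⟩ : ∃ y, y = (hT.eigenvectorBasis rfl) i := ⟨_, rfl⟩
  obtain ⟨l, hl⟩ : ∃ l, l = hT.eigenvalues rfl i := ⟨_, rfl⟩
  have hyn : inner ℝ y y = 1 := by
    rw [hy, real_inner_self_eq_norm_sq, (hT.eigenvectorBasis rfl).norm_eq_one]
    norm_num
  rw [← hy, ← hl] at hi
  rw [← hy, ← hT y x, hi, real_inner_smul_left, real_inner_comm y x]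
  have e1 := h1 y
  rw [hi, real_inner_smul_left, real_inner_smul_right, hyn] at e1
  by_cases hl0 : l ≤ 0
  · nlinarith [mul_self_nonneg (inner ℝ y x)]
  · push Not at hl0
    have hl1 : 1 ≤ l := by nlinarith
    obtain ⟨t, ht⟩ := h2 y (by rw [hi, real_inner_smul_right, hyn]; linarith)
    rw [ht, real_inner_smul_left, hx]
    simp

/-- reversed Cauchy-Schwarz inequality in coordinates -/
private lemma rcs_C1 {ι : Type} [Fintype ι] (c : ι → ι → ℝ) (hs : ∀ a b, c a b = c b a)
    (h : Hyp (fun v : ι → ℝ => ∑ a, ∑ b, c a b * v a * v b)) (v u : ι → ℝ)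
    (hu : 0 < ∑ a, ∑ b, c a b * u a * u b) :
    (∑ a, ∑ b, c a b * v a * v b) * (∑ a, ∑ b, c a b * u a * u b) ≤
      (∑ a, ∑ b, c a b * v a * u b) ^ 2 := by
  obtain ⟨φ, hφ⟩ := h
  have hφu : φ u ≠ 0 := by
    intro h0
    have := hφ u h0
    simp only at this
    linarith
  obtain ⟨t, ht⟩ : ∃ t, t = φ v / φ u := ⟨_, rfl⟩
  have h0 : φ (v - t • u) = 0 := by
    rw [map_sub, map_smul, smul_eq_mul, ht]
    field_simp
    ring
  have h1 := hφ _ h0
  simp only at h1
  have hsym : ∑ a, ∑ b, c a b * u a * v b = ∑ a, ∑ b, c a b * v a * u b := by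
    rw [Finset.sum_comm]
    refine Finset.sum_congr rfl fun a _ => Finset.sum_congr rfl fun b _ => ?_
    rw [hs b a]
    ring
  have h2 : ∑ a, ∑ b, c a b * (v - t • u) a * (v - t • u) b =
      (∑ a, ∑ b, c a b * v a * v b) - t * (∑ a, ∑ b, c a b * v a * u b)
        - t * (∑ a, ∑ b, c a b * u a * v b) + t ^ 2 * (∑ a, ∑ b, c a b * u a * u b) := by
    simp only [Finset.mul_sum, ← Finset.sum_sub_distrib, ← Finset.sum_add_distrib]
    refine Finset.sum_congr rfl fun a _ => Finset.sum_congr rfl fun b _ => ?_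
    simp only [Pi.sub_apply, Pi.smul_apply, smul_eq_mul]
    ring
  rw [h2, hsym] at h1
  obtain ⟨q, hq⟩ : ∃ q, q = ∑ a, ∑ b, c a b * v a * v b := ⟨_, rfl⟩
  obtain ⟨r, hr⟩ : ∃ r, r = ∑ a, ∑ b, c a b * u a * u b := ⟨_, rfl⟩
  obtain ⟨s, hs'⟩ : ∃ s, s = ∑ a, ∑ b, c a b * v a * u b := ⟨_, rfl⟩
  rw [← hq, ← hr, ← hs'] at h1
  rw [← hr] at hu
  rw [← hq, ← hr, ← hs']
  nlinarith [sq_nonneg (s - t * r), mul_nonneg hu.le (sub_nonneg.mpr h1)]

/-- C1 -/
theorem pf_Boch : StBoch := by
  intro ι _ _ c u hs1 hs2 hpos hz hu hhyp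
  -- symmetries
  have hz2 : ∀ g a, c g a a = 0 := by
    intro g a
    rw [hs2 g a a, hs1 a g a, hz]
  have hz3 : ∀ g a, c g a g = 0 := by
    intro g a
    rw [hs1 g a g, hz]
  have hc0 : ∀ g a b, 0 ≤ c g a b := by
    intro g a b
    by_cases h1 : g = a
    · subst h1; rw [hz]
    by_cases h2 : a = b
    · subst h2; rw [hz2]
    by_cases h3 : g = b
    · subst h3; rw [hz3]
    exact (hpos g a b h1 h2 h3).le
  obtain ⟨H, hH⟩ : ∃ H : ι → ι → ℝ, H = fun a b => ∑ g, u g * c g a b := ⟨_, rfl⟩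
  have hHs : ∀ a b, H a b = H b a := by
    intro a b
    simp only [hH]
    exact Finset.sum_congr rfl fun g _ => by rw [hs1]
  have hH0 : ∀ a b, 0 ≤ H a b := by
    intro a b
    simp only [hH]
    exact Finset.sum_nonneg fun g _ => mul_nonneg (hu g).le (hc0 g a b)
  have hHform : ∀ v : ι → ℝ, ∑ g, ∑ a, ∑ b, u g * c g a b * v a * v b = ∑ a, ∑ b, H a b * v a * v b := by
    intro v
    rw [Finset.sum_comm]
    refine Finset.sum_congr rfl fun a _ => ?_
    rw [Finset.sum_comm]
    refine Finset.sum_congr rfl fun b _ => ?_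
    simp only [hH, Finset.sum_mul]
  by_cases hthree : ∀ a b : ι, ∃ g, g ≠ a ∧ g ≠ b
  swap
  · -- fewer than three elements
    push Not at hthree
    obtain ⟨p, q, hpq⟩ := hthree
    have hall : ∀ g a b, c g a b = 0 := by
      intro g a b
      by_cases h1 : g = a
      · subst h1; rw [hz]
      by_cases h2 : a = b
      · subst h2; rw [hz2]
      by_cases h3 : g = b
      · subst h3; rw [hz3]
      exfalso
      by_cases hg : g = p
      · by_cases ha : a = p
        · exact h1 (hg.trans ha.symm)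
        · by_cases hb : b = p
          · exact h3 (hg.trans hb.symm)
          · exact h2 ((hpq a ha).trans (hpq b hb).symm)
      · have hg' := hpq g hg
        by_cases ha : a = p
        · by_cases hb : b = p
          · exact h2 (ha.trans hb.symm)
          · exact h3 (hg'.trans (hpq b hb).symm)
        · exact h1 (hg'.trans (hpq a ha).symm)
    refine ⟨0, fun v _ => ?_⟩
    simp [hall]
  -- at least three elements
  have hHpos : ∀ a b, a ≠ b → 0 < H a b := by
    intro a b hab
    obtain ⟨g, hga, hgb⟩ := hthree a b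
    simp only [hH]
    exact Finset.sum_pos' (fun g _ => mul_nonneg (hu g).le (hc0 g a b))
      ⟨g, Finset.mem_univ _, mul_pos (hu g) (hpos g a b hga hab hgb)⟩
  obtain ⟨w, hw⟩ : ∃ w : ι → ℝ, w = fun a => ∑ b, H a b * u b := ⟨_, rfl⟩
  have hwpos : ∀ a, 0 < w a := by
    intro a
    obtain ⟨g, hga, _⟩ := hthree a a
    simp only [hw]
    exact Finset.sum_pos' (fun b _ => mul_nonneg (hH0 a b) (hu b).le)
      ⟨g, Finset.mem_univ _, mul_pos (hHpos a g hga.symm) (hu g)⟩
  -- the inequality (1)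
  have hcu : ∀ g a, ∑ b, c g a b * u b = H g a := by
    intro g a
    simp only [hH]
    refine Finset.sum_congr rfl fun b _ => ?_
    rw [hs1 g a b, hs2 g b a]
    ring
  have hone : ∀ v : ι → ℝ, ∑ a, ∑ b, H a b * v a * v b ≤
      ∑ g, u g / w g * (∑ a, H g a * v a) ^ 2 := by
    intro v
    rw [← hHform v]
    refine Finset.sum_le_sum fun g _ => ?_
    have e1 : ∑ a, ∑ b, c g a b * u a * u b = w g := by
      simp only [hw]
      refine Finset.sum_congr rfl fun a _ => ?_
      rw [← hcu g a, Finset.sum_mul]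
      exact Finset.sum_congr rfl fun b _ => by ring
    have e2 : ∑ a, ∑ b, c g a b * v a * u b = ∑ a, H g a * v a := by
      refine Finset.sum_congr rfl fun a _ => ?_
      rw [← hcu g a, Finset.sum_mul]
      exact Finset.sum_congr rfl fun b _ => by ring
    have e3 := rcs_C1 (c g) (hs1 g) (hhyp g) v u (by rw [e1]; exact hwpos g)
    rw [e1, e2] at e3
    have e4 : ∑ a, ∑ b, u g * c g a b * v a * v b = u g * ∑ a, ∑ b, c g a b * v a * v b := by
      rw [Finset.mul_sum]
      refine Finset.sum_congr rfl fun a _ => ?_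
      rw [Finset.mul_sum]
      exact Finset.sum_congr rfl fun b _ => by ring
    rw [e4]
    have hwg := hwpos g
    have e5 : u g / w g * (∑ a, H g a * v a) ^ 2 = u g * ((∑ a, H g a * v a) ^ 2 / w g) := by ring
    rw [e5]
    apply mul_le_mul_of_nonneg_left _ (hu g).le
    rw [le_div_iff₀ hwg]
    exact e3
  -- the matrix `M`
  obtain ⟨D, hD⟩ : ∃ D : ι → ℝ, D = fun a => w a / u a := ⟨_, rfl⟩
  have hDpos : ∀ a, 0 < D a := by
    intro a; simp only [hD]; exact div_pos (hwpos a) (hu a)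
  obtain ⟨s, hs⟩ : ∃ s : ι → ℝ, s = fun a => Real.sqrt (D a) := ⟨_, rfl⟩
  have hspos : ∀ a, 0 < s a := by
    intro a; simp only [hs]; exact Real.sqrt_pos.mpr (hDpos a)
  have hss : ∀ a, s a * s a = D a := by
    intro a; simp only [hs]; exact Real.mul_self_sqrt (hDpos a).le
  obtain ⟨M, hM⟩ : ∃ M : Matrix ι ι ℝ, M = Matrix.of fun a b => H a b / (s a * s b) := ⟨_, rfl⟩
  have hMs : M.IsHermitian := by
    refine Matrix.IsHermitian.ext fun a b => ?_
    simp only [hM, Matrix.of_apply, star_trivial]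
    rw [hHs b a, mul_comm (s b)]
  obtain ⟨T, hTd⟩ : ∃ T, T = Matrix.toEuclideanLin M := ⟨_, rfl⟩
  have hTsym : T.IsSymmetric := by
    rw [hTd]
    exact Matrix.isSymmetric_toEuclideanLin_iff.mpr hMs
  have hTapp : ∀ (x : EuclideanSpace ℝ ι) (a : ι), T x a = (∑ b, H a b * (x b / s b)) / s a := by
    intro x a
    rw [hTd, Matrix.toLpLin_apply]
    simp only [Matrix.mulVec, dotProduct, hM, Matrix.of_apply]
    rw [Finset.sum_div]
    refine Finset.sum_congr rfl fun b _ => ?_
    have := (hspos a).ne'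
    have := (hspos b).ne'
    field_simp
  have hin : ∀ x y : EuclideanSpace ℝ ι, inner ℝ x y = ∑ a, x a * y a := by
    intro x y
    rw [PiLp.inner_apply]
    refine Finset.sum_congr rfl fun a _ => ?_
    simp [mul_comm]
  have hxTx : ∀ x : EuclideanSpace ℝ ι, inner ℝ x (T x) = ∑ a, ∑ b, H a b * (x a / s a) * (x b / s b) := by
    intro x
    rw [hin]
    refine Finset.sum_congr rfl fun a _ => ?_
    rw [hTapp, Finset.sum_div, Finset.mul_sum]
    refine Finset.sum_congr rfl fun b _ => ?_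
    ring
  have hTT : ∀ x : EuclideanSpace ℝ ι, inner ℝ (T x) (T x) =
      ∑ g, u g / w g * (∑ a, H g a * (x a / s a)) ^ 2 := by
    intro x
    rw [hin]
    refine Finset.sum_congr rfl fun a _ => ?_
    rw [hTapp]
    have e1 : u a / w a = 1 / (s a * s a) := by
      rw [hss, hD]
      have := (hu a).ne'
      have := (hwpos a).ne'
      field_simp
    rw [e1]
    ring
  obtain ⟨x0, hx0⟩ : ∃ x0 : EuclideanSpace ℝ ι, x0 = WithLp.toLp 2 (fun a => s a * u a) := ⟨_, rfl⟩
  have hx0a : ∀ a, x0 a = s a * u a := by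
    intro a; rw [hx0]
  have h1 : ∀ x : EuclideanSpace ℝ ι, inner ℝ x (T x) ≤ inner ℝ (T x) (T x) := by
    intro x
    rw [hxTx, hTT]
    exact hone (fun a => x a / s a)
  have h2 : ∀ x : EuclideanSpace ℝ ι, inner ℝ x x ≤ inner ℝ x (T x) → ∃ t : ℝ, x = t • x0 := by
    intro x hx
    obtain ⟨v, hv⟩ : ∃ v : ι → ℝ, v = fun a => x a / s a := ⟨_, rfl⟩
    have hva : ∀ a, x a = s a * v a := by
      intro a
      have := (hspos a).ne'
      simp only [hv]
      field_simp
    have e1 : inner ℝ x x = ∑ a, ∑ b, H a b * (u b / u a) * v a ^ 2 := by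
      rw [hin]
      refine Finset.sum_congr rfl fun a _ => ?_
      have e2 : x a * x a = D a * v a ^ 2 := by
        rw [hva a, ← hss a]; ring
      rw [e2, hD, hw]
      simp only
      rw [Finset.sum_div, Finset.sum_mul]
      refine Finset.sum_congr rfl fun b _ => ?_
      ring
    have e1' : inner ℝ x x = ∑ a, ∑ b, H a b * (u a / u b) * v b ^ 2 := by
      rw [e1, Finset.sum_comm]
      refine Finset.sum_congr rfl fun a _ => Finset.sum_congr rfl fun b _ => ?_
      rw [hHs b a]
    have e3 : inner ℝ x (T x) = ∑ a, ∑ b, H a b * v a * v b := by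
      rw [hxTx, hv]
    have e4 : ∑ a, ∑ b, H a b * (u a * u b) * (v a / u a - v b / u b) ^ 2 ≤ 0 := by
      have e5 : ∑ a, ∑ b, H a b * (u a * u b) * (v a / u a - v b / u b) ^ 2 =
          (∑ a, ∑ b, H a b * (u b / u a) * v a ^ 2) + (∑ a, ∑ b, H a b * (u a / u b) * v b ^ 2)
            - 2 * ∑ a, ∑ b, H a b * v a * v b := by
        rw [Finset.mul_sum, ← Finset.sum_add_distrib, ← Finset.sum_sub_distrib]
        refine Finset.sum_congr rfl fun a _ => ?_
        rw [Finset.mul_sum, ← Finset.sum_add_distrib, ← Finset.sum_sub_distrib]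
        refine Finset.sum_congr rfl fun b _ => ?_
        have := (hu a).ne'
        have := (hu b).ne'
        field_simp
        ring
      rw [e5, ← e1, ← e1', ← e3]
      linarith
    have e6 : ∀ a b, 0 ≤ H a b * (u a * u b) * (v a / u a - v b / u b) ^ 2 := fun a b =>
      mul_nonneg (mul_nonneg (hH0 a b) (mul_nonneg (hu a).le (hu b).le)) (sq_nonneg _)
    have e7 : ∀ a b, a ≠ b → v a / u a = v b / u b := by
      intro a b hab
      have e8 := (Finset.sum_eq_zero_iff_of_nonneg
        (fun a _ => Finset.sum_nonneg fun b _ => e6 a b)).mp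
        (le_antisymm e4 (Finset.sum_nonneg fun a _ => Finset.sum_nonneg fun b _ => e6 a b))
        a (Finset.mem_univ a)
      have e9 := (Finset.sum_eq_zero_iff_of_nonneg (fun b _ => e6 a b)).mp e8 b (Finset.mem_univ b)
      have e10 : 0 < H a b * (u a * u b) := mul_pos (hHpos a b hab) (mul_pos (hu a) (hu b))
      rcases mul_eq_zero.mp e9 with h | h
      · exact absurd h e10.ne'
      · have := pow_eq_zero_iff (two_ne_zero) |>.mp h
        linarith
    by_cases hne : Nonempty ι
    · obtain ⟨p⟩ := hne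
      refine ⟨v p / u p, ?_⟩
      ext a
      rw [PiLp.smul_apply, smul_eq_mul, hx0a, hva]
      have e11 : v a / u a = v p / u p := by
        by_cases h : a = p
        · rw [h]
        · exact e7 a p h
      have := (hu a).ne'
      rw [← e11]
      field_simp
    · refine ⟨0, ?_⟩
      ext a
      exact absurd ⟨a⟩ hne
  refine ⟨∑ a, (w a) • LinearMap.proj a, fun v hv => ?_⟩
  simp only
  rw [hHform v]
  obtain ⟨x, hx⟩ : ∃ x : EuclideanSpace ℝ ι, x = WithLp.toLp 2 (fun a => s a * v a) := ⟨_, rfl⟩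
  have hxa : ∀ a, x a = s a * v a := by
    intro a; rw [hx]
  have h3 : inner ℝ x0 x = 0 := by
    rw [hin]
    simp only [LinearMap.sum_apply, LinearMap.smul_apply, LinearMap.proj_apply, smul_eq_mul] at hv
    rw [← hv]
    refine Finset.sum_congr rfl fun a _ => ?_
    rw [hx0a, hxa]
    have e2 : w a = D a * u a := by
      have := (hu a).ne'
      simp only [hD]
      field_simp
    rw [e2, ← hss a]
    ring
  have h4 := spec_C1 T hTsym x0 h1 h2 x h3
  rw [hxTx] at h4
  convert h4 using 4 with a _ b _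
  · rw [hxa]
    have := (hspos a).ne'
    field_simp
  · rw [hxa]
    have := (hspos b).ne'
    field_simp

end Pool.Agent.Helper51.PE
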