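import Pool.Agent.Helper51.PE.St

/-!
PROJECT PE2 (MP_6da2a2_co), module C3: the inequality for two positive directions.
-/

set_option autoImplicit false

namespace Pool.Agent.Helper51.PE

open MvPolynomial

theorem DU2_C3 {ι : Type} [Fintype ι] [DecidableEq ι] (u w : ι → ℝ) (f : Finset ι → ℝ)
    (K : Finset ι) :
    DU u (DU w f) K =
      ∑ g ∈ Kᶜ, ∑ h ∈ Kᶜ, if g = h then 0 else f (insert g (insert h K)) * u g * w h := by
  unfold DU
  refine Finset.sum_congr rfl fun g _ => ?_
  rw [Finset.compl_insert, Finset.mul_sum]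
  rw [← Finset.sum_erase (s := Kᶜ) (a := g)
    (f := fun h => if g = h then 0 else f (insert g (insert h K)) * u g * w h) (if_pos rfl)]
  refine Finset.sum_congr rfl fun h hh => ?_
  rw [Finset.mem_erase] at hh
  rw [if_neg (fun h' => hh.1 h'.symm), Finset.insert_comm]
  ring

theorem DU_comm_C3 {ι : Type} [Fintype ι] [DecidableEq ι] (u w : ι → ℝ) :
    Function.Commute (DU u : (Finset ι → ℝ) → Finset ι → ℝ) (DU w) := by
  intro f
  funext K
  rw [DU2_C3, DU2_C3, Finset.sum_comm]
  refine Finset.sum_congr rfl fun g _ => Finset.sum_congr rfl fun h _ => ?_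
  by_cases hgh : g = h
  · rw [if_pos hgh, if_pos hgh.symm]
  · rw [if_neg hgh, if_neg (fun h' => hgh h'.symm), Finset.insert_comm]
    ring

theorem Lor_iter_C3 (c2 : StDU) {ι : Type} [Fintype ι] [DecidableEq ι] (d : ℕ)
    (f : Finset ι → ℝ) (u : ι → ℝ) (hd : d ≤ Fintype.card ι) (hu : ∀ g, 0 < u g)
    (hf : Lor d f) (k : ℕ) (hk : k + 2 ≤ d) : Lor (d - k) ((DU u)^[k] f) := by
  induction k with
  | zero => exact hf
  | succ k ih =>
    rw [Function.iterate_succ_apply']
    have h := c2 ι (d - k) ((DU u)^[k] f) u (by omega) (by omega) hu (ih (by omega))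
    have e : d - (k + 1) = d - k - 1 := by omega
    rw [e]
    exact h

/-- the bilinear form -/
private noncomputable def BB_C3 {ι : Type} [Fintype ι] [DecidableEq ι] (f : Finset ι → ℝ) :
    (ι → ℝ) →ₗ[ℝ] (ι → ℝ) →ₗ[ℝ] ℝ :=
  LinearMap.mk₂ ℝ (fun x z => ∑ g, ∑ h, if g = h then 0 else f (insert g (insert h ∅)) * x g * z h)
    (fun x y z => by
      rw [← Finset.sum_add_distrib]
      refine Finset.sum_congr rfl fun g _ => ?_
      rw [← Finset.sum_add_distrib]
      refine Finset.sum_congr rfl fun h _ => ?_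
      split_ifs
      · ring
      · rw [Pi.add_apply]; ring)
    (fun c x z => by
      rw [smul_eq_mul, Finset.mul_sum]
      refine Finset.sum_congr rfl fun g _ => ?_
      rw [Finset.mul_sum]
      refine Finset.sum_congr rfl fun h _ => ?_
      split_ifs
      · ring
      · rw [Pi.smul_apply, smul_eq_mul]; ring)
    (fun x y z => by
      rw [← Finset.sum_add_distrib]
      refine Finset.sum_congr rfl fun g _ => ?_
      rw [← Finset.sum_add_distrib]
      refine Finset.sum_congr rfl fun h _ => ?_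
      split_ifs
      · ring
      · rw [Pi.add_apply]; ring)
    (fun c x z => by
      rw [smul_eq_mul, Finset.mul_sum]
      refine Finset.sum_congr rfl fun g _ => ?_
      rw [Finset.mul_sum]
      refine Finset.sum_congr rfl fun h _ => ?_
      split_ifs
      · ring
      · rw [Pi.smul_apply, smul_eq_mul]; ring)

private theorem BB_apply_C3 {ι : Type} [Fintype ι] [DecidableEq ι] (f : Finset ι → ℝ)
    (x z : ι → ℝ) : BB_C3 f x z =
      ∑ g, ∑ h, if g = h then 0 else f (insert g (insert h ∅)) * x g * z h := rfl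

private theorem BB_DU_C3 {ι : Type} [Fintype ι] [DecidableEq ι] (f : Finset ι → ℝ)
    (x z : ι → ℝ) : DU x (DU z f) ∅ = BB_C3 f x z := by
  rw [DU2_C3, BB_apply_C3, Finset.compl_empty]

theorem pf_T (c2 : StDU) (b2 : StRCS) : StT := by
  intro ι _ _ d f u w i j hd hij hu hw hf
  set q := (DU u)^[i] ((DU w)^[j] f) with hq
  have hq2 : Lor 2 q := by
    have h1 := Lor_iter_C3 c2 d f w hd hw hf j (by omega)
    have h2 := Lor_iter_C3 c2 (d - j) _ u (by omega) hu h1 i (by omega)
    have e : d - j - i = 2 := by omega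
    rw [e] at h2
    exact h2
  have e1 : (DU u)^[i + 2] ((DU w)^[j] f) ∅ = BB_C3 q u u := by
    rw [← BB_DU_C3, Function.iterate_succ_apply', Function.iterate_succ_apply']
  have e2 : (DU u)^[i] ((DU w)^[j + 2] f) ∅ = BB_C3 q w w := by
    rw [← BB_DU_C3, Function.iterate_succ_apply', Function.iterate_succ_apply',
      ((DU_comm_C3 u w).iterate_left i).eq, ((DU_comm_C3 u w).iterate_left i).eq]
  have e3 : (DU u)^[i + 1] ((DU w)^[j + 1] f) ∅ = BB_C3 q u w := by
    rw [← BB_DU_C3, Function.iterate_succ_apply', Function.iterate_succ_apply' (DU w),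
      ((DU_comm_C3 u w).iterate_left i).eq]
  have hsymm : ∀ x z, BB_C3 q x z = BB_C3 q z x := by
    intro x z
    rw [← BB_DU_C3, ← BB_DU_C3, (DU_comm_C3 x z).eq]
  have hhyp : Hyp (fun v : ι → ℝ => BB_C3 q v v) := by
    have h := hq2.2 ∅ rfl
    rw [Finset.compl_empty] at h
    exact h
  have hpos : 0 < BB_C3 q u u := by
    rw [BB_apply_C3]
    have hcard : 1 < Fintype.card ι := by omega
    obtain ⟨a, c, hac⟩ := Fintype.one_lt_card_iff.1 hcard
    have hqp : ∀ g h : ι, g ≠ h → 0 < q (insert g (insert h ∅)) := by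
      intro g h hgh
      refine hq2.1 _ ?_
      rw [Finset.card_insert_of_notMem (by simpa using hgh), Finset.card_insert_of_notMem (by simp),
        Finset.card_empty]
    have hnn : ∀ g h : ι, 0 ≤ if g = h then 0 else q (insert g (insert h ∅)) * u g * u h := by
      intro g h
      split_ifs with hgh
      · exact le_rfl
      · exact (mul_pos (mul_pos (hqp g h hgh) (hu g)) (hu h)).le
    refine Finset.sum_pos' (fun g _ => Finset.sum_nonneg fun h _ => hnn g h)
      ⟨a, Finset.mem_univ _, ?_⟩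
    refine Finset.sum_pos' (fun h _ => hnn a h) ⟨c, Finset.mem_univ _, ?_⟩
    rw [if_neg hac]
    exact mul_pos (mul_pos (hqp a c hac) (hu a)) (hu c)
  have h := b2 (ι → ℝ) (BB_C3 q) hsymm hhyp w u hpos
  rw [e1, e2, e3, hsymm u w, mul_comm]
  exact h

end Pool.Agent.Helper51.PE
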