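import Pool.Agent.Helper51.PE.St

/-!
PROJECT PE2 (MP_6da2a2_co, helper51), module C4: iterated directional derivatives in the directions of
indicator functions.
-/

set_option autoImplicit false

namespace Pool.Agent.Helper51.PE

open MvPolynomial

private theorem pairs_C4 {ι : Type} [DecidableEq ι] (R : Finset ι) (p : ℕ) (F : Finset ι → ℝ) :
    ∑ g ∈ R, ∑ L ∈ Finset.powersetCard p (R.erase g), F (insert g L) =
      ((p : ℝ) + 1) * ∑ L ∈ Finset.powersetCard (p + 1) R, F L := by
  have h1 : ((p : ℝ) + 1) * ∑ L ∈ Finset.powersetCard (p + 1) R, F L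
      = ∑ L ∈ Finset.powersetCard (p + 1) R, ∑ _g ∈ L, F L := by
    rw [Finset.mul_sum]
    refine Finset.sum_congr rfl fun L hL => ?_
    rw [Finset.sum_const, (Finset.mem_powersetCard.1 hL).2, nsmul_eq_mul]
    push_cast
    ring
  rw [h1, Finset.sum_sigma', Finset.sum_sigma']
  refine Finset.sum_bij' (fun x _ => ⟨insert x.1 x.2, x.1⟩) (fun x _ => ⟨x.2, x.1.erase x.2⟩) ?_ ?_ ?_ ?_ ?_
  · rintro ⟨g, L⟩ hx
    simp only [Finset.mem_sigma, Finset.mem_powersetCard] at hx ⊢
    obtain ⟨hg, hL, hc⟩ := hx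
    have hgL : g ∉ L := fun h => by simpa using hL h
    refine ⟨⟨?_, ?_⟩, Finset.mem_insert_self _ _⟩
    · intro x hx
      rcases Finset.mem_insert.1 hx with rfl | hx
      · exact hg
      · exact Finset.mem_of_mem_erase (hL hx)
    · rw [Finset.card_insert_of_notMem hgL, hc]
  · rintro ⟨L, g⟩ hx
    simp only [Finset.mem_sigma, Finset.mem_powersetCard] at hx ⊢
    obtain ⟨⟨hL, hc⟩, hg⟩ := hx
    refine ⟨hL hg, Finset.erase_subset_erase _ hL, ?_⟩
    rw [Finset.card_erase_of_mem hg, hc]
    rfl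
  · rintro ⟨g, L⟩ hx
    simp only [Finset.mem_sigma, Finset.mem_powersetCard] at hx
    obtain ⟨hg, hL, hc⟩ := hx
    have hgL : g ∉ L := fun h => by simpa using hL h
    simp only [Finset.erase_insert hgL]
  · rintro ⟨L, g⟩ hx
    simp only [Finset.mem_sigma, Finset.mem_powersetCard] at hx
    obtain ⟨⟨hL, hc⟩, hg⟩ := hx
    simp only [Finset.insert_erase hg]
  · rintro ⟨g, L⟩ hx
    rfl

private theorem DU_ind_C4 {ι : Type} [Fintype ι] [DecidableEq ι] (B : Finset ι) (f : Finset ι → ℝ) (K : Finset ι) :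
    DU (fun g => if g ∈ B then (1 : ℝ) else 0) f K = ∑ g ∈ B \ K, f (insert g K) := by
  unfold DU
  have h1 : ∀ g ∈ Kᶜ, (if g ∈ B then (1 : ℝ) else 0) * f (insert g K) =
      if g ∈ B then f (insert g K) else 0 := by
    intro g _
    split_ifs <;> simp
  rw [Finset.sum_congr rfl h1, ← Finset.sum_filter]
  refine Finset.sum_congr ?_ fun _ _ => rfl
  ext g
  simp only [Finset.mem_filter, Finset.mem_compl, Finset.mem_sdiff]
  exact and_comm

private theorem iter_C4 {ι : Type} [Fintype ι] [DecidableEq ι] (B : Finset ι) (f : Finset ι → ℝ) (p : ℕ) :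
    ∀ K : Finset ι, ((DU (fun g => if g ∈ B then (1 : ℝ) else 0))^[p] f) K =
      (p.factorial : ℝ) * ∑ L ∈ Finset.powersetCard p (B \ K), f (K ∪ L) := by
  induction p with
  | zero =>
    intro K
    simp
  | succ p ih =>
    intro K
    rw [Function.iterate_succ_apply', DU_ind_C4]
    have h1 : ∀ g ∈ B \ K, ((DU (fun g => if g ∈ B then (1 : ℝ) else 0))^[p] f) (insert g K) =
        (p.factorial : ℝ) * ∑ L ∈ Finset.powersetCard p ((B \ K).erase g), f (K ∪ insert g L) := by
      intro g _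
      rw [ih]
      have h2 : B \ insert g K = (B \ K).erase g := by
        ext x
        simp only [Finset.mem_sdiff, Finset.mem_insert, Finset.mem_erase]
        tauto
      rw [h2]
      congr 1
      refine Finset.sum_congr rfl fun L _ => ?_
      rw [Finset.insert_union, Finset.union_insert]
    rw [Finset.sum_congr rfl h1, ← Finset.mul_sum, pairs_C4 (B \ K) p (fun L => f (K ∪ L)),
      Nat.factorial_succ]
    push_cast
    ring

/-- C4. -/
theorem pf_Count : StCount := by
  intro ι _ _ f A p q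
  have hA : (fun g => if g ∈ A then (0 : ℝ) else 1) = fun g => if g ∈ Aᶜ then (1 : ℝ) else 0 := by
    funext g
    by_cases h : g ∈ A
    · simp [h]
    · simp [h]
  rw [hA, iter_C4 A]
  have h1 : ∀ L ∈ Finset.powersetCard p (A \ ∅),
      ((DU (fun g => if g ∈ Aᶜ then (1 : ℝ) else 0))^[q] f) (∅ ∪ L) =
      (q.factorial : ℝ) * ∑ M ∈ Finset.powersetCard q Aᶜ, f (L ∪ M) := by
    intro L hL
    rw [Finset.empty_union, iter_C4 Aᶜ]
    have h2 : Aᶜ \ L = Aᶜ := by
      have hLA := (Finset.mem_powersetCard.1 hL).1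
      rw [Finset.sdiff_empty] at hLA
      ext x
      simp only [Finset.mem_sdiff, Finset.mem_compl]
      constructor
      · exact fun h => h.1
      · exact fun h => ⟨h, fun hx => h (hLA hx)⟩
    rw [h2]
  rw [Finset.sum_congr rfl h1, ← Finset.mul_sum, Finset.sdiff_empty, ← mul_assoc]
  congr 1
  rw [Finset.sum_sigma']
  refine Finset.sum_bij' (fun x _ => x.1 ∪ x.2) (fun K _ => ⟨K ∩ A, K \ A⟩) ?_ ?_ ?_ ?_ ?_
  · rintro ⟨L, M⟩ hx
    simp only [Finset.mem_sigma, Finset.mem_powersetCard] at hx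
    obtain ⟨⟨hL, hLc⟩, hM, hMc⟩ := hx
    have hMA : ∀ x ∈ M, x ∉ A := fun x hx => Finset.mem_compl.1 (hM hx)
    have hd : Disjoint L M := Finset.disjoint_left.2 fun x hxL hxM => hMA x hxM (hL hxL)
    simp only [Finset.mem_filter, Finset.mem_univ, true_and]
    refine ⟨by rw [Finset.card_union_of_disjoint hd, hLc, hMc], ?_⟩
    rw [← hLc]
    congr 1
    ext x
    simp only [Finset.mem_inter, Finset.mem_union]
    constructor
    · rintro ⟨hx | hx, hxA⟩
      · exact hx
      · exact absurd hxA (hMA x hx)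
    · exact fun hx => ⟨Or.inl hx, hL hx⟩
  · intro K hK
    simp only [Finset.mem_filter, Finset.mem_univ, true_and] at hK
    simp only [Finset.mem_sigma, Finset.mem_powersetCard]
    refine ⟨⟨Finset.inter_subset_right, hK.2⟩, ?_, ?_⟩
    · intro x hx
      exact Finset.mem_compl.2 (Finset.mem_sdiff.1 hx).2
    · have := Finset.card_inter_add_card_sdiff K A
      omega
  · rintro ⟨L, M⟩ hx
    simp only [Finset.mem_sigma, Finset.mem_powersetCard] at hx
    obtain ⟨⟨hL, hLc⟩, hM, hMc⟩ := hx
    have hMA : ∀ x ∈ M, x ∉ A := fun x hx => Finset.mem_compl.1 (hM hx)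
    have e1 : (L ∪ M) ∩ A = L := by
      ext x
      simp only [Finset.mem_inter, Finset.mem_union]
      constructor
      · rintro ⟨hx | hx, hxA⟩
        · exact hx
        · exact absurd hxA (hMA x hx)
      · exact fun hx => ⟨Or.inl hx, hL hx⟩
    have e2 : (L ∪ M) \ A = M := by
      ext x
      simp only [Finset.mem_sdiff, Finset.mem_union]
      constructor
      · rintro ⟨hx | hx, hxA⟩
        · exact absurd (hL hx) hxA
        · exact hx
      · exact fun hx => ⟨Or.inr hx, hMA x hx⟩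
    simp only [e1, e2]
  · intro K _
    show K ∩ A ∪ K \ A = K
    ext x
    simp only [Finset.mem_union, Finset.mem_inter, Finset.mem_sdiff]
    tauto
  · rintro ⟨L, M⟩ _
    rfl

end Pool.Agent.Helper51.PE
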