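import Pool.Agent.Helper51.PE.St

set_option autoImplicit false

namespace Pool.Agent.Helper51.PE

private theorem cont_C5 {ι : Type} [Fintype ι] [DecidableEq ι] (u : ℝ → ι → ℝ)
    (hu : ∀ g, Continuous fun δ => u δ g) (p : ℕ) :
    ∀ (F : ℝ → Finset ι → ℝ), (∀ K, Continuous fun δ => F δ K) →
      ∀ K, Continuous fun δ => ((DU (u δ))^[p] (F δ)) K := by
  induction p with
  | zero => intro F hF K; simpa using hF K
  | succ p ih =>
    intro F hF K
    simp only [Function.iterate_succ_apply']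
    have h : ∀ K, Continuous fun δ => DU (u δ) ((DU (u δ))^[p] (F δ)) K := by
      intro K
      unfold DU
      exact continuous_finsetSum _ fun g _ => (hu g).mul (ih F hF _)
    exact h K

theorem pf_ULC (c3 : StT) (c4 : StCount) : StULC := by
  intro ι _ _ d k f A hd hk1 hkd hf
  obtain ⟨i, rfl⟩ : ∃ i, k = i + 1 := ⟨k - 1, by omega⟩
  obtain ⟨j, rfl⟩ : ∃ j, d = i + j + 2 := ⟨d - i - 2, by omega⟩
  set u : ℝ → ι → ℝ := fun δ g => if g ∈ A then 1 else δ with hu
  set w : ℝ → ι → ℝ := fun δ g => if g ∈ A then δ else 1 with hw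
  have hcu : ∀ g, Continuous fun δ => u δ g := by
    intro g
    simp only [hu]
    split_ifs
    · exact continuous_const
    · exact continuous_id
  have hcw : ∀ g, Continuous fun δ => w δ g := by
    intro g
    simp only [hw]
    split_ifs
    · exact continuous_id
    · exact continuous_const
  have hc : ∀ p q : ℕ, Continuous fun δ => ((DU (u δ))^[p] ((DU (w δ))^[q] f)) ∅ := by
    intro p q
    exact cont_C5 u hcu p (fun δ => (DU (w δ))^[q] f)
      (fun K => cont_C5 w hcw q (fun _ => f) (fun K => continuous_const) K) ∅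
  have hpos : ∀ δ : ℝ, 0 < δ →
      ((DU (u δ))^[i + 2] ((DU (w δ))^[j] f) ∅) * ((DU (u δ))^[i] ((DU (w δ))^[j + 2] f) ∅) ≤
      ((DU (u δ))^[i + 1] ((DU (w δ))^[j + 1] f) ∅) ^ 2 := by
    intro δ hδ
    refine c3 ι (i + j + 2) f (u δ) (w δ) i j hd rfl ?_ ?_ hf
    · intro g
      simp only [hu]
      split_ifs <;> first | exact one_pos | exact hδ
    · intro g
      simp only [hw]
      split_ifs <;> first | exact one_pos | exact hδ
  have h0 : ((DU (u 0))^[i + 2] ((DU (w 0))^[j] f) ∅) * ((DU (u 0))^[i] ((DU (w 0))^[j + 2] f) ∅) ≤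
      ((DU (u 0))^[i + 1] ((DU (w 0))^[j + 1] f) ∅) ^ 2 := by
    have t1 := ((hc (i + 2) j).mul (hc i (j + 2))).tendsto 0
    have t2 := ((hc (i + 1) (j + 1)).pow 2).tendsto 0
    have t1' := t1.mono_left (nhdsWithin_le_nhds (s := Set.Ioi (0 : ℝ)))
    have t2' := t2.mono_left (nhdsWithin_le_nhds (s := Set.Ioi (0 : ℝ)))
    exact le_of_tendsto_of_tendsto t1' t2' (Filter.eventually_of_mem self_mem_nhdsWithin
      (fun δ hδ => hpos δ hδ))
  have e1 := c4 ι f A (i + 2) j
  have e2 := c4 ι f A i (j + 2)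
  have e3 := c4 ι f A (i + 1) (j + 1)
  have hu0 : u 0 = fun g => if g ∈ A then 1 else 0 := rfl
  have hw0 : w 0 = fun g => if g ∈ A then 0 else 1 := rfl
  rw [hu0, hw0, e1, e2, e3] at h0
  have s1 : i + 2 + j = i + j + 2 := by omega
  have s2 : i + (j + 2) = i + j + 2 := by omega
  have s3 : i + 1 + (j + 1) = i + j + 2 := by omega
  rw [s1, s2, s3] at h0
  have s4 : i + 1 - 1 = i := by omega
  have s5 : i + 1 + 1 = i + 2 := by omega
  rw [s4, s5]
  set a := ∑ K ∈ (Finset.univ : Finset (Finset ι)).filter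
    (fun K => K.card = i + j + 2 ∧ (K ∩ A).card = i), f K
  set b := ∑ K ∈ (Finset.univ : Finset (Finset ι)).filter
    (fun K => K.card = i + j + 2 ∧ (K ∩ A).card = i + 2), f K
  set c := ∑ K ∈ (Finset.univ : Finset (Finset ι)).filter
    (fun K => K.card = i + j + 2 ∧ (K ∩ A).card = i + 1), f K
  have f1 : ((i + 2).factorial : ℝ) = ((i : ℝ) + 2) * (((i : ℝ) + 1) * (i.factorial : ℝ)) := by
    rw [Nat.factorial_succ, Nat.factorial_succ]; push_cast; ring
  have f2 : ((j + 2).factorial : ℝ) = ((j : ℝ) + 2) * (((j : ℝ) + 1) * (j.factorial : ℝ)) := by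
    rw [Nat.factorial_succ, Nat.factorial_succ]; push_cast; ring
  have f3 : ((i + 1).factorial : ℝ) = ((i : ℝ) + 1) * (i.factorial : ℝ) := by
    rw [Nat.factorial_succ]; push_cast; ring
  have f4 : ((j + 1).factorial : ℝ) = ((j : ℝ) + 1) * (j.factorial : ℝ) := by
    rw [Nat.factorial_succ]; push_cast; ring
  rw [f1, f2, f3, f4] at h0
  have p1 : (0 : ℝ) < (i.factorial : ℝ) := by exact_mod_cast Nat.factorial_pos i
  have p2 : (0 : ℝ) < (j.factorial : ℝ) := by exact_mod_cast Nat.factorial_pos j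
  have p3 : (0 : ℝ) < (i : ℝ) + 1 := by positivity
  have p4 : (0 : ℝ) < (j : ℝ) + 1 := by positivity
  have hM : (0 : ℝ) < ((i : ℝ) + 1) * ((j : ℝ) + 1) * ((i.factorial : ℝ) ^ 2 * (j.factorial : ℝ) ^ 2) := by
    positivity
  refine le_of_mul_le_mul_left ?_ hM
  push_cast
  calc _ = ((i : ℝ) + 2) * (((i : ℝ) + 1) * (i.factorial : ℝ)) * (j.factorial : ℝ) * b *
        ((i.factorial : ℝ) * (((j : ℝ) + 2) * (((j : ℝ) + 1) * (j.factorial : ℝ))) * a) := by ring
    _ ≤ _ := h0
    _ = _ := by ring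

end Pool.Agent.Helper51.PE
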