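import Pool.Agent.Helper51.PE.St

/-!
PROJECT PE2 (MP_6da2a2_co), module C6: the Lorentzian property of the lifted polynomial.
-/

set_option autoImplicit false

namespace Pool.Agent.Helper51.PE

open MvPolynomial

private theorem lin_eq_C6 (v : Tok →₀ ℝ) :
    lin v = Finsupp.linearCombination ℝ (fun c => (X c : Alg)) v := by
  unfold lin
  rw [Finsupp.linearCombination_apply]
  refine Finsupp.sum_congr fun c _ => ?_
  rw [smul_eq_C_mul]

private theorem prod_eq_C6 {ι : Type} (t : ι → Tok) (K : Finset ι) :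
    (∏ g ∈ K, (X (t g) : Alg)) = mon (K.val.map t) := by
  unfold mon
  rw [Multiset.map_map]
  rfl

private theorem mon_cons_C6 (S : Multiset Tok) (a c : Tok) :
    mon S * ((X a : Alg) * X c) = mon (a ::ₘ c ::ₘ S) := by
  unfold mon
  rw [Multiset.map_cons, Multiset.map_cons, Multiset.prod_cons, Multiset.prod_cons]
  ring

/-- the linear map collecting the coefficients -/
private noncomputable def LL_C6 {ι : Type} (t : ι → Tok) (A : Finset ι) :
    (ι → ℝ) →ₗ[ℝ] (Tok →₀ ℝ) :=
  ∑ x ∈ A, (Finsupp.lsingle (t x)).comp (LinearMap.proj x)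

private theorem lin_LL_C6 {ι : Type} (t : ι → Tok) (A : Finset ι) (v : ι → ℝ) :
    lin (LL_C6 t A v) = ∑ x ∈ A, v x • (X (t x) : Alg) := by
  rw [lin_eq_C6]
  unfold LL_C6
  rw [LinearMap.sum_apply, map_sum]
  refine Finset.sum_congr rfl fun x _ => ?_
  rw [LinearMap.comp_apply, LinearMap.proj_apply, Finsupp.lsingle_apply,
    Finsupp.linearCombination_single]

theorem pf_LorV (h4 : StPos) (b5 : StAF) : StLorV := by
  intro ι _ _ b ε n d t hε hε1 hd
  refine ⟨?_, ?_⟩
  · intro K hK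
    show 0 < V b ε n d (∏ g ∈ K, X (t g))
    rw [prod_eq_C6]
    refine (h4 b ε n d _).2.1 hε ?_
    rw [Multiset.card_map]
    exact hK
  · intro S hS
    obtain ⟨φ, hφ⟩ := b5 b ε n d hε hε1 hd (S.val.map t) (by rw [Multiset.card_map]; exact hS)
    refine ⟨φ.comp (LL_C6 t Sᶜ), fun v hv => ?_⟩
    have h1 := hφ (LL_C6 t Sᶜ v) hv
    have h2 : V b ε n d (mon (S.val.map t) * lin (LL_C6 t Sᶜ v) ^ 2) =
        ∑ x ∈ Sᶜ, ∑ z ∈ Sᶜ, v x * v z * V b ε n d (mon (t x ::ₘ t z ::ₘ S.val.map t)) := by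
      rw [lin_LL_C6, sq, Finset.sum_mul_sum, Finset.mul_sum, map_sum]
      refine Finset.sum_congr rfl fun x _ => ?_
      rw [Finset.mul_sum, map_sum]
      refine Finset.sum_congr rfl fun z _ => ?_
      rw [← mon_cons_C6, smul_mul_smul_comm, mul_smul_comm, map_smul, smul_eq_mul]
    have h3 : (∑ x ∈ Sᶜ, ∑ z ∈ Sᶜ, if x = z then 0 else
        V b ε n d (∏ g ∈ insert x (insert z S), X (t g)) * v x * v z) ≤
        ∑ x ∈ Sᶜ, ∑ z ∈ Sᶜ, v x * v z * V b ε n d (mon (t x ::ₘ t z ::ₘ S.val.map t)) := by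
      refine Finset.sum_le_sum fun x hx => Finset.sum_le_sum fun z hz => ?_
      rw [Finset.mem_compl] at hx hz
      split_ifs with hxz
      · subst hxz
        exact mul_nonneg (mul_self_nonneg _) ((h4 b ε n d _).1 hε.le)
      · have hx' : x ∉ insert z S := by
          rw [Finset.mem_insert, not_or]
          exact ⟨hxz, hx⟩
        rw [Finset.prod_insert hx', Finset.prod_insert hz, prod_eq_C6, ← mon_cons_C6]
        have e : (X (t x) : Alg) * (X (t z) * mon (S.val.map t)) =
            mon (S.val.map t) * (X (t x) * X (t z)) := by ring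
        rw [e]
        exact le_of_eq (by ring)
    exact h3.trans (h2 ▸ h1)

end Pool.Agent.Helper51.PE
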