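import Pool.Agent.Helper51.PE.St

/-!
PROJECT PE2, module C7: continuity in `ε`.
-/

set_option autoImplicit false

namespace Pool.Agent.Helper51.PE

open MvPolynomial

private theorem wt_cont_C7 (b : ℕ → ℕ) (e : ℕ) (c : Tok) : Continuous (fun ε : ℝ => wt b ε e c) := by
  unfold wt
  by_cases h : has b e c
  · simp only [if_pos h]
    exact continuous_const
  · simp only [if_neg h]
    exact continuous_id

private theorem phiL_cont_C7 (b : ℕ → ℕ) (n d e : ℕ)
    (ih : ∀ p : Alg, Continuous (fun ε : ℝ => V b ε n d p)) (l : List Tok) :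
    ∀ q : Alg, Continuous (fun ε : ℝ => V b ε n d (q * phiL b ε e l)) := by
  induction l with
  | nil =>
    intro q
    have : (fun ε : ℝ => V b ε n d (q * phiL b ε e [])) = fun _ => (0 : ℝ) := by
      funext ε
      rw [phiL, mul_zero, map_zero]
    rw [this]
    exact continuous_const
  | cons c l ihl =>
    intro q
    have : (fun ε : ℝ => V b ε n d (q * phiL b ε e (c :: l))) =
        fun ε : ℝ => wt b ε e c * V b ε n d (q * pr l) + V b ε n d ((q * X (cut b e c)) * phiL b ε e l) := by
      funext ε
      have h1 : q * phiL b ε e (c :: l) =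
          wt b ε e c • (q * pr l) + (q * X (cut b e c)) * phiL b ε e l := by
        rw [phiL, ← C_mul']
        ring
      rw [h1, map_add, map_smul, smul_eq_mul]
    rw [this]
    exact ((wt_cont_C7 b e c).mul (ih _)).add (ihl _)

/-- continuity in `ε` -/
theorem pf_Cont (_h1 : StLow) : StCont := by
  intro b n d
  induction d with
  | zero =>
    intro p
    exact continuous_const
  | succ d ih =>
    intro p
    have hmon : ∀ (m : Tok →₀ ℕ) (ε : ℝ), phi b ε (n - (d + 1)) (monomial m 1) =
        phiL b ε (n - (d + 1)) ((Finsupp.toMultiset m).sort (tle b (n - (d + 1)))) := by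
      intro m ε
      have h := (basisMonomials Tok ℝ).constr_basis ℝ
        (fun m => phiL b ε (n - (d + 1)) ((Finsupp.toMultiset m).sort (tle b (n - (d + 1))))) m
      rw [coe_basisMonomials] at h
      exact h
    have hsum : (fun ε : ℝ => V b ε n (d + 1) p) = fun ε : ℝ => ∑ m ∈ p.support,
        coeff m p * V b ε n d
          (1 * phiL b ε (n - (d + 1)) ((Finsupp.toMultiset m).sort (tle b (n - (d + 1))))) := by
      funext ε
      have h1 : V b ε n (d + 1) p = V b ε n d (phi b ε (n - (d + 1)) p) := rfl
      rw [h1]
      conv_lhs => rw [p.as_sum]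
      rw [map_sum, map_sum]
      refine Finset.sum_congr rfl fun m _ => ?_
      have h2 : (monomial m (coeff m p) : Alg) = coeff m p • monomial m 1 := by
        rw [smul_monomial, smul_eq_mul, mul_one]
      rw [h2, map_smul, map_smul, hmon, smul_eq_mul, one_mul]
    rw [hsum]
    refine continuous_finsetSum _ fun m _ => ?_
    exact continuous_const.mul (phiL_cont_C7 b n d _ ih _ 1)

end Pool.Agent.Helper51.PE
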