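import Pool.Agent.Helper51.PE.St

set_option autoImplicit false

namespace Pool.Agent.Helper51.PE

open MvPolynomial

private lemma phi_sum_D1 (b : ℕ → ℕ) (ε : ℝ) (e : ℕ) (f : Alg) :
    phi b ε e f = ∑ m ∈ f.support,
      coeff m f • phiL b ε e ((Finsupp.toMultiset m).sort (tle b e)) := by
  conv_lhs => rw [f.as_sum]
  rw [map_sum]
  refine Finset.sum_congr rfl fun m _ => ?_
  have h : monomial m (coeff m f) = coeff m f • (basisMonomials Tok ℝ) m := by
    rw [coe_basisMonomials, smul_monomial, smul_eq_mul, mul_one]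
  rw [h, map_smul, phi, Module.Basis.constr_basis]

private lemma zero_D1 (b : ℕ → ℕ) (e : ℕ) : ∀ l : List Tok, (∀ c ∈ l, c.1 ≤ b e) →
    phiL b 0 e l = 0
  | [], _ => rfl
  | c :: l, h => by
      have h1 : ¬ has b e c := by
        intro h2
        have h3 := h c (List.mem_cons_self ..)
        exact absurd h2.2 (not_lt.2 h3)
      have h2 : phiL b 0 e l = 0 := zero_D1 b e l fun a ha => h a (List.mem_cons_of_mem _ ha)
      rw [phiL, h2, wt, if_neg h1, C_0, zero_mul, mul_zero, add_zero]

private lemma supp_D1 (b : ℕ → ℕ) (ε : ℝ) (e B : ℕ) : ∀ l : List Tok, (∀ c ∈ l, c.1 ≤ B) →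
    phiL b ε e l ∈ supported ℝ {c : Tok | c.1 ≤ B}
  | [], _ => by
      rw [phiL]
      exact Subalgebra.zero_mem _
  | c :: l, h => by
      have hc : c.1 ≤ B := h c (List.mem_cons_self ..)
      have hl : ∀ a ∈ l, a.1 ≤ B := fun a ha => h a (List.mem_cons_of_mem _ ha)
      have h2 := supp_D1 b ε e B l hl
      have h3 : ∀ l : List Tok, (∀ c ∈ l, c.1 ≤ B) → pr l ∈ supported ℝ {c : Tok | c.1 ≤ B} := by
        intro l hl
        unfold pr
        apply Subalgebra.list_prod_mem
        intro x hx
        rw [List.mem_map] at hx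
        obtain ⟨a, ha, rfl⟩ := hx
        exact X_mem_supported.2 (hl a ha)
      have h4 : (cut b e c).1 ≤ B := by
        unfold cut
        split_ifs with h5
        · exact h5.2.le.trans hc
        · exact hc
      rw [phiL]
      refine Subalgebra.add_mem _ (Subalgebra.mul_mem _ ?_ (h3 l hl))
        (Subalgebra.mul_mem _ (X_mem_supported.2 h4) h2)
      exact Subalgebra.algebraMap_mem _ _

/-- vanishing -/
theorem pf_Van (_h1 : StLow) : StVan := by
  intro b n d
  induction d with
  | zero =>
    intro z f _ h2 h3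
    omega
  | succ d ih =>
    intro z f hd hz hzn hf
    change V b 0 n d (phi b 0 (n - (d + 1)) f) = 0
    rw [phi_sum_D1, map_sum]
    refine Finset.sum_eq_zero fun m hm => ?_
    rw [map_smul]
    have hl : ∀ c ∈ (Finsupp.toMultiset m).sort (tle b (n - (d + 1))), c.1 ≤ b z := by
      intro c hc
      rw [Multiset.mem_sort, Finsupp.mem_toMultiset] at hc
      exact hf c ((mem_vars c).2 ⟨m, hm, hc⟩)
    by_cases he : n - (d + 1) = z
    · rw [← he] at hl
      rw [zero_D1 b _ _ hl, map_zero, smul_zero]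
    · have h5 : V b 0 n d (phiL b 0 (n - (d + 1))
          ((Finsupp.toMultiset m).sort (tle b (n - (d + 1))))) = 0 := by
        apply ih z _ (by omega) (by omega) hzn
        intro c hc
        exact (mem_supported.1 (supp_D1 b 0 (n - (d + 1)) (b z) _ hl)) hc
      rw [h5, smul_zero]

end Pool.Agent.Helper51.PE
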