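import Pool.Agent.Helper51.PE.St

/-!
# PE2, module D2: the step on products over present links
-/

set_option autoImplicit false

namespace Pool.Agent.Helper51.PE

open MvPolynomial

private theorem phi_one_D2 (b : ℕ → ℕ) (ε : ℝ) (e : ℕ) : phi b ε e 1 = 0 := by
  have h1 : (1 : Alg) = basisMonomials Tok ℝ 0 := by
    rw [coe_basisMonomials]
    rfl
  rw [phi, h1, Module.Basis.constr_basis]
  simp [phiL]

private theorem phi_C_D2 (b : ℕ → ℕ) (ε : ℝ) (e : ℕ) (r : ℝ) (h : Alg) :
    phi b ε e (C r * h) = C r * phi b ε e h := by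
  rw [← smul_eq_C_mul, ← smul_eq_C_mul, map_smul]

private theorem phi_out_D2 (h2 : StBot) (b : ℕ → ℕ) (e : ℕ) (g h : Alg)
    (hg : ∀ c ∈ g.vars, ¬ has b e c) : phi b 0 e (g * h) = g * phi b 0 e h := by
  have hmem : g ∈ supported ℝ {c : Tok | ¬ has b e c} := by
    rw [mem_supported]
    intro c hc
    exact hg c hc
  rw [supported] at hmem
  clear hg
  have key : ∀ h : Alg, phi b 0 e (g * h) = g * phi b 0 e h := by
    clear h
    induction hmem using Algebra.adjoin_induction with
    | mem x hx =>
      obtain ⟨c, hc, rfl⟩ := hx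
      intro h
      rw [h2 b 0 e c h hc]
      simp
    | algebraMap r =>
      intro h
      exact phi_C_D2 b 0 e r h
    | add x y _ _ hx hy =>
      intro h
      rw [add_mul, map_add, hx, hy, add_mul]
    | mul x y _ _ hx hy =>
      intro h
      rw [mul_assoc, hx, hy, mul_assoc]
  exact key h

private theorem vars_prodL_D2 (y : ℝ) : ∀ (L : List (ℕ × Bool)) (a : Tok), a ∈ (prodL y L).vars →
    ∃ q ∈ L, a = (q.1, 0) := by
  intro L
  induction L with
  | nil =>
    intro a ha
    rw [prodL, vars_one] at ha
    exact absurd ha (Finset.notMem_empty a)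
  | cons p L ih =>
    obtain ⟨β, t⟩ := p
    intro a ha
    rw [prodL] at ha
    have h1 := vars_mul _ _ ha
    rcases Finset.mem_union.1 h1 with h3 | h3
    · have h4 := vars_add_subset _ _ h3
      rcases Finset.mem_union.1 h4 with h5 | h5
      · rw [vars_one] at h5
        exact absurd h5 (Finset.notMem_empty a)
      · have h6 := vars_mul _ _ h5
        rw [vars_C, Finset.empty_union, vars_X, Finset.mem_singleton] at h6
        exact ⟨(β, t), List.mem_cons_self, h6⟩
    · obtain ⟨q, hq, h6⟩ := ih a h3
      exact ⟨q, List.mem_cons_of_mem _ hq, h6⟩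

private theorem rename_prodL_D2 (b : ℕ → ℕ) (e : ℕ) (y : ℝ) (L : List (ℕ × Bool)) :
    rename (cut b e) (prodL y L) = prodL y (L.map (cutL b e)) := by
  induction L with
  | nil => simp [prodL]
  | cons p L ih =>
    obtain ⟨β, t⟩ := p
    rw [prodL, map_mul, ih, map_add, map_mul, map_one, rename_C, rename_X, List.map_cons, cutL, prodL]
    have h1 : cut b e (β, 0) = (min β (b e), 0) := by
      unfold cut has
      by_cases h : b e < β
      · rw [if_pos ⟨Nat.zero_le e, h⟩, min_eq_right h.le]
      · rw [if_neg (fun hh => h hh.2), min_eq_left (not_lt.1 h)]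
    rw [h1]

theorem pf_SS (h2 : StBot) (h3 : StUp) : StSS := by
  intro b e y
  refine ⟨phi_out_D2 h2 b e, ?_⟩
  have hA : has b e (b e + 1, e) := ⟨le_refl e, Nat.lt_succ_self _⟩
  have hcutA : cut b e (b e + 1, e) = (b e, 0) := by
    unfold cut; rw [if_pos hA]
  intro L
  induction L with
  | nil =>
    intro _
    refine ⟨by rw [prodL, SS, phi_one_D2], ?_⟩
    have h4 := h3 b 0 e (b e + 1, e) 1 (by intro a ha; rw [vars_one] at ha; exact absurd ha (Finset.notMem_empty a))
    rw [mul_one, phi_one_D2, mul_zero, zero_add, map_one, mul_one] at h4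
    rw [prodL, SS, one_mul, map_add, phi_one_D2, h4, wt, if_pos hA]
    simp
  | cons p L ih =>
    obtain ⟨β, t⟩ := p
    intro hL
    rw [List.pairwise_cons] at hL
    obtain ⟨ih1, ih2⟩ := ih hL.2
    by_cases hβ : b e < β
    · have hB : has b e (β, 0) := ⟨Nat.zero_le e, hβ⟩
      have hwt : wt b 0 e (β, 0) = 1 := by rw [wt, if_pos hB]
      have hkβ : key b e (β, 0) = β + 1 := by rw [key, if_pos hB]
      have hv : ∀ a ∈ (prodL y L).vars, tle b e a (β, 0) := by
        intro a ha
        obtain ⟨q, hq, rfl⟩ := vars_prodL_D2 y L a ha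
        have hq1 : q.1 ≤ β := hL.1 q hq
        unfold tle
        rw [hkβ]
        by_cases hb : has b e (q.1, 0)
        · have hk : key b e (q.1, 0) = q.1 + 1 := by rw [key, if_pos hb]
          rw [hk]
          rcases lt_or_eq_of_le hq1 with h5 | h5
          · left; omega
          · right
            exact ⟨by omega, Or.inr ⟨h5, le_refl 0⟩⟩
        · have hk : key b e (q.1, 0) = 0 := by rw [key, if_neg hb]
          rw [hk]
          left; omega
      have hv2 : ∀ a ∈ (prodL y L * (1 + X (b e + 1, e))).vars, tle b e a (β, 0) := by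
        intro a ha
        rcases Finset.mem_union.1 (vars_mul _ _ ha) with h5 | h5
        · exact hv a h5
        · rcases Finset.mem_union.1 (vars_add_subset _ _ h5) with h6 | h6
          · rw [vars_one] at h6
            exact absurd h6 (Finset.notMem_empty a)
          · rw [vars_X, Finset.mem_singleton] at h6
            subst h6
            unfold tle
            rw [hkβ]
            have hk : key b e (b e + 1, e) = b e + 1 + 1 := by rw [key, if_pos hA]
            rw [hk]
            rcases lt_or_eq_of_le (Nat.succ_le_of_lt hβ) with h7 | h7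
            · left; omega
            · right
              exact ⟨by omega, Or.inr ⟨h7, Nat.zero_le e⟩⟩
      have e1 := h3 b 0 e (β, 0) (prodL y L) hv
      have e2 := h3 b 0 e (β, 0) (prodL y L * (1 + X (b e + 1, e))) hv2
      rw [hwt, C_1, one_mul, rename_prodL_D2, ih1] at e1
      have hren : rename (cut b e) (prodL y L * (1 + X (b e + 1, e))) =
          prodL y (L.map (cutL b e)) * (1 + X (b e, 0)) := by
        rw [map_mul, rename_prodL_D2, map_add, map_one, rename_X, hcutA]
      rw [hwt, C_1, one_mul, hren, ih2] at e2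
      constructor
      · rw [prodL, SS, if_pos hβ, add_mul, one_mul, map_add, mul_assoc, phi_C_D2, e1, ih1]
        ring
      · rw [prodL, SS, if_pos hβ]
        have e3 : (1 + C (tw y t) * X (β, 0)) * prodL y L * (1 + X (b e + 1, e)) =
            prodL y L * (1 + X (b e + 1, e)) +
              C (tw y t) * (X (β, 0) * (prodL y L * (1 + X (b e + 1, e)))) := by ring
        rw [e3, map_add, phi_C_D2, e2, ih2]
        ring
    · have hB : ¬ has b e (β, 0) := fun hh => hβ hh.2
      have hvars : ∀ c ∈ (1 + C (tw y t) * X (β, 0) : Alg).vars, ¬ has b e c := by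
        intro c hc
        rcases Finset.mem_union.1 (vars_add_subset _ _ hc) with h5 | h5
        · rw [vars_one] at h5
          exact absurd h5 (Finset.notMem_empty c)
        · have h6 := vars_mul _ _ h5
          rw [vars_C, Finset.empty_union, vars_X, Finset.mem_singleton] at h6
          rw [h6]
          exact hB
      constructor
      · rw [prodL, SS, if_neg hβ, zero_add, phi_out_D2 h2 b e _ _ hvars, ih1]
      · rw [prodL, SS, if_neg hβ, zero_add, mul_assoc, phi_out_D2 h2 b e _ _ hvars, ih2]
        ring

end Pool.Agent.Helper51.PE
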