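import Pool.Agent.Helper51.PE.St

set_option autoImplicit false

namespace Pool.Agent.Helper51.PE

open MvPolynomial

theorem pf_Tel : StTel := by
  intro b e y L
  induction L with
  | nil => simp [SX, SS, prodL]
  | cons p L ih =>
    obtain ⟨β, t⟩ := p
    simp only [SX, SS, List.map_cons, cutL, prodL]
    by_cases h : b e < β
    · simp only [if_pos h, min_eq_right h.le]
      linear_combination (1 + C (tw y t) * X (β, 0)) * ih
    · simp only [if_neg h, min_eq_left (not_lt.mp h)]
      linear_combination (1 + C (tw y t) * X (β, 0)) * ih

end Pool.Agent.Helper51.PE
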