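import Pool.Agent.Helper51.PE.St

set_option autoImplicit false

namespace Pool.Agent.Helper51.PE

open MvPolynomial

private theorem mon_toMultiset_D4 (s : Tok →₀ ℕ) : monomial s (1 : ℝ) = mon (Finsupp.toMultiset s) := by
  unfold mon
  rw [Finsupp.toMultiset_map, Finsupp.prod_toMultiset, MvPolynomial.monomial_eq, C_1, one_mul]
  rw [Finsupp.prod_mapDomain_index]
  · intro b; exact pow_zero _
  · intro b m n; exact pow_add _ _ _

theorem pf_Eqv (h5 : StMono) : StEqv := by
  intro b n d a c f hd ha hc hac
  induction f using MvPolynomial.induction_on' with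
  | monomial s r =>
    have h1 : (monomial s r : Alg) = C r * mon (Finsupp.toMultiset s) := by
      rw [← mon_toMultiset_D4, C_mul_monomial, mul_one]
    have key : V b 0 n d (mon (Finsupp.toMultiset s) * X a) =
        V b 0 n d (mon (Finsupp.toMultiset s) * X c) := by
      apply le_antisymm
      · exact h5 b 0 n d le_rfl zero_le_one hd _ a c ha hc (fun v hv hvn h => (hac v hv hvn).mp h)
      · exact h5 b 0 n d le_rfl zero_le_one hd _ c a hc ha (fun v hv hvn h => (hac v hv hvn).mpr h)
    have h2 : ∀ p : Alg, V b 0 n d (C r * p) = r * V b 0 n d p := by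
      intro p
      rw [← smul_eq_C_mul, map_smul, smul_eq_mul]
    rw [h1, mul_assoc, mul_assoc, h2, h2, key]
  | add p q hp hq =>
    rw [add_mul, add_mul, map_add, map_add, hp, hq]

end Pool.Agent.Helper51.PE
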