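import Pool.Agent.Helper51.PE.St

/-!
PROJECT PE2 (MP_6da2a2_co), module D5: the recursion of `FF` in terms of `SX`.
-/

set_option autoImplicit false

namespace Pool.Agent.Helper51.PE

open MvPolynomial

private theorem spl_pw_D5 (b : ℕ → ℕ) (e : ℕ) : ∀ L : List (ℕ × Bool),
    L.Pairwise (fun p q => q.1 ≤ p.1) → ∀ p ∈ spl b e L,
      p.2.Pairwise (fun p q => q.1 ≤ p.1) ∧
      ∀ B : ℕ, (∀ z ∈ L, z.1 ≤ B) → ∀ x ∈ p.2, x.1 ≤ B := by
  intro L
  induction L with
  | nil => intro _ p hp; simp [spl] at hp
  | cons a L ih =>
    obtain ⟨β, t⟩ := a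
    intro hL p hp
    rw [List.pairwise_cons] at hL
    obtain ⟨h1, h2⟩ := hL
    simp only [spl, List.mem_append, List.mem_map] at hp
    rcases hp with hp | ⟨q, hq, rfl⟩
    · split_ifs at hp with hb
      · rw [List.mem_singleton] at hp
        subst hp
        refine ⟨?_, ?_⟩
        · simp only [List.pairwise_cons, List.mem_cons, List.mem_map]
          refine ⟨?_, ?_, ?_⟩
          · rintro x (rfl | ⟨z, _, rfl⟩)
            · exact hb.le
            · exact (min_le_right _ _).trans hb.le
          · rintro x ⟨z, _, rfl⟩
            exact min_le_right _ _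
          · rw [List.pairwise_map]
            exact h2.imp (fun h => min_le_min h le_rfl)
        · intro B hB x hx
          have hβ : β ≤ B := hB (β, t) List.mem_cons_self
          simp only [List.mem_cons, List.mem_map] at hx
          rcases hx with rfl | rfl | ⟨z, _, rfl⟩
          · exact hβ
          · exact hb.le.trans hβ
          · exact (min_le_right _ _).trans (hb.le.trans hβ)
      · simp at hp
    · obtain ⟨i1, i2⟩ := ih h2 q hq
      refine ⟨?_, ?_⟩
      · rw [List.pairwise_cons]
        exact ⟨fun x hx => i2 β (fun z hz => h1 z hz) x hx, i1⟩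
      · intro B hB x hx
        rw [List.mem_cons] at hx
        rcases hx with rfl | hx
        · exact hB (β, t) List.mem_cons_self
        · exact i2 B (fun z hz => hB z (List.mem_cons_of_mem _ hz)) x hx

private theorem sum_D5 (b : ℕ → ℕ) (e : ℕ) (y : ℝ) (K : Alg →ₗ[ℝ] ℝ) (r : Alg) :
    ∀ (L : List (ℕ × Bool)) (q : Alg),
      ((spl b e L).map (fun p => tw y p.1 * K (q * prodL y p.2 * r))).sum =
        K (q * SX b e y L * (1 + C y * X (b e, 0)) * r) := by
  have hC : ∀ (c : ℝ) (f : Alg), c * K f = K (C c * f) := by
    intro c f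
    rw [← smul_eq_C_mul, map_smul, smul_eq_mul]
  intro L
  induction L with
  | nil => intro q; simp [spl, SX]
  | cons a L ih =>
    obtain ⟨β, t⟩ := a
    intro q
    have e2 : (((spl b e L).map (fun p => (p.1, (β, t) :: p.2))).map
        (fun p => tw y p.1 * K (q * prodL y p.2 * r))).sum =
        K (q * ((1 + C (tw y t) * X (β, 0)) * SX b e y L) * (1 + C y * X (b e, 0)) * r) := by
      rw [List.map_map]
      have := ih (q * (1 + C (tw y t) * X (β, 0)))
      rw [show q * ((1 + C (tw y t) * X (β, 0)) * SX b e y L) * (1 + C y * X (b e, 0)) * r =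
        q * (1 + C (tw y t) * X (β, 0)) * SX b e y L * (1 + C y * X (b e, 0)) * r by ring, ← this]
      congr 1
      apply List.map_congr_left
      intro p _
      simp only [Function.comp, prodL]
      congr 2
      ring
    simp only [spl, List.map_append, List.sum_append, SX]
    rw [e2]
    by_cases hb : b e < β
    · simp only [if_pos hb, List.map_cons, List.map_nil, List.sum_cons, List.sum_nil, add_zero, prodL]
      rw [hC, ← map_add]
      congr 1
      have h1 : tw y false = 1 := rfl
      have h2 : tw y true = y := rfl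
      rw [h1, h2, C_1]
      ring
    · simp only [if_neg hb, List.map_nil, List.sum_nil, zero_add]

theorem pf_SplSX : StSplSX := by
  intro b e y K F r hF L hL
  have h := sum_D5 b e y K r L 1
  rw [one_mul] at h
  rw [← h]
  congr 1
  apply List.map_congr_left
  intro p hp
  rw [hF p.2 (spl_pw_D5 b e L hL p hp).1, one_mul]

end Pool.Agent.Helper51.PE
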