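import Pool.Agent.Helper51.PE.St

/-!
PROJECT PE2 (MP_6da2a2_co), module D6: the static identity
-/

set_option autoImplicit false

namespace Pool.Agent.Helper51.PE

open MvPolynomial

/-- the constant coefficient of `prodL` -/
private theorem cc_prodL_D6 (y : ℝ) : ∀ L : List (ℕ × Bool), cc0 (prodL y L) = 1 := by
  intro L
  show coeff 0 (prodL y L) = 1
  rw [← constantCoeff_eq]
  induction L with
  | nil => simp [prodL]
  | cons p L ih =>
    obtain ⟨β, t⟩ := p
    simp [prodL, ih]

/-- replacing a token in a linear factor -/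
private theorem rep_D6 (W : Alg →ₗ[ℝ] ℝ) (a c : Tok) (h : ∀ f : Alg, W (f * X a) = W (f * X c))
    (f : Alg) (r : ℝ) : W (f * (1 + C r * X a)) = W (f * (1 + C r * X c)) := by
  rw [mul_add, mul_add, map_add, map_add, mul_one, ← mul_assoc, ← mul_assoc, h]

private theorem rep1_D6 (W : Alg →ₗ[ℝ] ℝ) (a c : Tok) (h : ∀ f : Alg, W (f * X a) = W (f * X c))
    (f : Alg) : W (f * (1 + X a)) = W (f * (1 + X c)) := by
  rw [mul_add, mul_add, map_add, map_add, h]

/-- variables of `fut` -/
private theorem vars_fut_D6 (b : ℕ → ℕ) (n : ℕ) (y : ℝ) : ∀ d : ℕ, d ≤ n →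
    ∀ c ∈ (fut b n y d).vars, ∃ u, n - d ≤ u ∧ u < n ∧ (c = yt b u ∨ c = xt b n u) := by
  intro d
  induction d with
  | zero =>
    intro _ c hc
    rw [fut] at hc
    rw [vars_one] at hc
    exact absurd hc (Finset.notMem_empty c)
  | succ d ih =>
    intro hd c hc
    rw [fut] at hc
    have h1 := vars_mul _ _ hc
    rw [Finset.mem_union] at h1
    rcases h1 with h1 | h1
    · have h2 := vars_mul _ _ h1
      rw [Finset.mem_union] at h2
      rcases h2 with h2 | h2
      · have h3 := vars_add_subset _ _ h2
        rw [Finset.mem_union, vars_one] at h3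
        rcases h3 with h3 | h3
        · exact absurd h3 (Finset.notMem_empty c)
        · have h4 := vars_mul _ _ h3
          rw [Finset.mem_union, vars_C, vars_X] at h4
          rcases h4 with h4 | h4
          · exact absurd h4 (Finset.notMem_empty c)
          · exact ⟨n - (d + 1), le_rfl, by omega, Or.inl (Finset.mem_singleton.1 h4)⟩
      · have h3 := vars_add_subset _ _ h2
        rw [Finset.mem_union, vars_one, vars_X] at h3
        rcases h3 with h3 | h3
        · exact absurd h3 (Finset.notMem_empty c)
        · exact ⟨n - (d + 1), le_rfl, by omega, Or.inr (Finset.mem_singleton.1 h3)⟩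
    · obtain ⟨u, h2, h3, h4⟩ := ih (by omega) c h1
      exact ⟨u, by omega, h3, h4⟩

/-- variables of `prodL` -/
private theorem vars_prodL_D6 (y : ℝ) : ∀ (L : List (ℕ × Bool)), ∀ c ∈ (prodL y L).vars,
    ∃ p ∈ L, c = (p.1, 0) := by
  intro L
  induction L with
  | nil =>
    intro c hc
    rw [prodL, vars_one] at hc
    exact absurd hc (Finset.notMem_empty c)
  | cons p L ih =>
    obtain ⟨β, t⟩ := p
    intro c hc
    rw [prodL] at hc
    have h1 := vars_mul _ _ hc
    rw [Finset.mem_union] at h1
    rcases h1 with h1 | h1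
    · have h3 := vars_add_subset _ _ h1
      rw [Finset.mem_union, vars_one] at h3
      rcases h3 with h3 | h3
      · exact absurd h3 (Finset.notMem_empty c)
      · have h4 := vars_mul _ _ h3
        rw [Finset.mem_union, vars_C, vars_X] at h4
        rcases h4 with h4 | h4
        · exact absurd h4 (Finset.notMem_empty c)
        · exact ⟨(β, t), List.mem_cons_self, Finset.mem_singleton.1 h4⟩
    · obtain ⟨p, hp, h2⟩ := ih c h1
      exact ⟨p, List.mem_cons_of_mem _ hp, h2⟩

/-- the first coordinate of `xt` -/
private theorem xt_D6 (b : ℕ → ℕ) (n u : ℕ) :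
    (xt b n u).2 = u ∧ ((xt b n u).1 = b u ∨
      ((xt b n u).1 = b u + 1 ∧ ∃ v, u < v ∧ v < n ∧ b u < b v)) := by
  unfold xt
  split_ifs with h
  · exact ⟨rfl, Or.inr ⟨rfl, h⟩⟩
  · exact ⟨rfl, Or.inl rfl⟩

/-- `SX` and `SS` have the same value if all tokens above `b e` are equivalent to `(b e, 0)` -/
private theorem sx_ss_D6 (b : ℕ → ℕ) (e : ℕ) (y : ℝ) (W : Alg →ₗ[ℝ] ℝ)
    (hW : ∀ β, b e < β → ∀ f : Alg, W (f * X ((β, 0) : Tok)) = W (f * X ((b e, 0) : Tok))) :
    ∀ (L : List (ℕ × Bool)) (h : Alg),
      W (h * SX b e y L) = W (h * ((1 + X ((b e, 0) : Tok)) * SS b e y L)) := by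
  intro L
  induction L with
  | nil =>
    intro h
    rw [SX, SS, mul_zero, mul_zero, mul_zero]
  | cons p L ih =>
    obtain ⟨β, t⟩ := p
    intro h
    rw [SX, SS]
    have h1 := ih (h * (1 + C (tw y t) * X (β, 0)))
    by_cases hb : b e < β
    · rw [if_pos hb, if_pos hb]
      have h2 := rep1_D6 W (β, 0) (b e, 0) (hW β hb) (h * (C (tw y t) * prodL y (L.map (cutL b e))))
      have e1 : h * (C (tw y t) * (1 + X ((β, 0) : Tok)) * prodL y (L.map (cutL b e)) +
          (1 + C (tw y t) * X (β, 0)) * SX b e y L) =
          h * (C (tw y t) * prodL y (L.map (cutL b e))) * (1 + X ((β, 0) : Tok)) +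
          h * (1 + C (tw y t) * X (β, 0)) * SX b e y L := by ring
      have e2 : h * ((1 + X ((b e, 0) : Tok)) * (C (tw y t) * prodL y (L.map (cutL b e)) +
          (1 + C (tw y t) * X (β, 0)) * SS b e y L)) =
          h * (C (tw y t) * prodL y (L.map (cutL b e))) * (1 + X ((b e, 0) : Tok)) +
          h * (1 + C (tw y t) * X (β, 0)) * ((1 + X ((b e, 0) : Tok)) * SS b e y L) := by ring
      rw [e1, e2, map_add, map_add, h1, h2]
    · rw [if_neg hb, if_neg hb, zero_add, zero_add]
      have e2 : h * ((1 + X ((b e, 0) : Tok)) * ((1 + C (tw y t) * X (β, 0)) * SS b e y L)) =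
          h * (1 + C (tw y t) * X (β, 0)) * ((1 + X ((b e, 0) : Tok)) * SS b e y L) := by ring
      rw [e2, ← h1, mul_assoc]

theorem pf_Static (d1 : StVan) (d2 : StSS) (d3 : StTel) (d4 : StEqv) (d5 : StSplSX) : StStatic := by
  intro b n y hinj d
  induction d with
  | zero =>
    intro _ L _
    show (1 : ℝ) = cc0 (prodL y L * fut b n y 0)
    rw [fut, mul_one, cc_prodL_D6]
  | succ d ih =>
    intro hd L hL
    have ih' := ih (by omega)
    obtain ⟨e, he⟩ : ∃ e, e = n - (d + 1) := ⟨_, rfl⟩
    have hed : n - d = e + 1 := by omega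
    have hen : e < n := by omega
    set R := fut b n y d with hR
    set W := V b 0 n d with hWdef
    have hleft : FF b n y (d + 1) L = W (SX b e y L * (1 + C y * X (b e, 0)) * R) := by
      have := d5 b e y W (FF b n y d) R (fun L' hL' => ih' L' hL') L hL
      rw [← this, FF, ← he]
    have hright : V b 0 n (d + 1) (prodL y L * fut b n y (d + 1)) =
        W (phi b 0 e (prodL y L * ((1 + C y * X (yt b e)) * (1 + X (xt b n e)) * R))) := by
      rw [V, fut, ← he]
      rfl
    have hRvars : ∀ c ∈ R.vars, ∃ u, e < u ∧ u < n ∧ (c = yt b u ∨ c = xt b n u) := by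
      intro c hc
      obtain ⟨u, h1, h2, h3⟩ := vars_fut_D6 b n y d (by omega) c hc
      exact ⟨u, by omega, h2, h3⟩
    -- `e` may not use the variables of `R`
    have hRno : ∀ c ∈ R.vars, ¬ has b e c := by
      intro c hc
      obtain ⟨u, h1, h2, h3⟩ := hRvars c hc
      rintro ⟨h4, -⟩
      rcases h3 with rfl | rfl
      · change u ≤ e at h4
        omega
      · rw [(xt_D6 b n u).1] at h4
        omega
    have hyno : ∀ c ∈ ((1 + C y * X (yt b e)) : Alg).vars, c = (b e, e) := by
      intro c hc
      have h3 := vars_add_subset _ _ hc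
      rw [Finset.mem_union, vars_one] at h3
      rcases h3 with h3 | h3
      · exact absurd h3 (Finset.notMem_empty c)
      · have h4 := vars_mul _ _ h3
        rw [Finset.mem_union, vars_C, vars_X] at h4
        rcases h4 with h4 | h4
        · exact absurd h4 (Finset.notMem_empty c)
        · exact Finset.mem_singleton.1 h4
    have hgno : ∀ c ∈ ((1 + C y * X (yt b e)) * R : Alg).vars, ¬ has b e c := by
      intro c hc
      have h1 := vars_mul _ _ hc
      rw [Finset.mem_union] at h1
      rcases h1 with h1 | h1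
      · rw [hyno c h1]
        rintro ⟨-, h2⟩
        exact lt_irrefl _ h2
      · exact hRno c h1
    have hrep : ∀ f : Alg, W (f * X ((b e, e) : Tok)) = W (f * X ((b e, 0) : Tok)) := by
      intro f
      exact d4 b n d (b e, e) (b e, 0) f (by omega) (by show e ≤ n - d; omega) (Nat.zero_le _)
        (fun v _ _ => Iff.rfl)
    obtain ⟨s1, s2⟩ := d2 b e y
    obtain ⟨s3, s4⟩ := s2 L hL
    rw [hleft, hright]
    by_cases hv : ∃ v, e < v ∧ v < n ∧ b e < b v
    · -- case (a)
      have hxt : xt b n e = (b e + 1, e) := by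
        unfold xt
        rw [if_pos hv]
      rw [hxt]
      have e1 : prodL y L * ((1 + C y * X (yt b e)) * (1 + X ((b e + 1, e) : Tok)) * R) =
          ((1 + C y * X (yt b e)) * R) * (prodL y L * (1 + X ((b e + 1, e) : Tok))) := by ring
      have h3 := d3 b e y L
      rw [e1, s1 _ _ hgno, s4]
      have e2 : prodL y L + (1 + X ((b e, 0) : Tok)) * SS b e y L =
          SX b e y L + prodL y (L.map (cutL b e)) := by
        rw [h3]
        ring
      rw [e2, mul_add ((1 + C y * X (yt b e)) * R) (SX b e y L), map_add]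
      -- the second part vanishes
      obtain ⟨z, hz1, hz2⟩ : ∃ z ∈ Finset.Ioo e n, ∀ u ∈ Finset.Ioo e n, b u ≤ b z := by
        obtain ⟨v, hv1, hv2, -⟩ := hv
        exact Finset.exists_max_image (Finset.Ioo e n) b ⟨v, Finset.mem_Ioo.2 ⟨hv1, hv2⟩⟩
      rw [Finset.mem_Ioo] at hz1
      have hbe : b e ≤ b z := by
        obtain ⟨v, hv1, hv2, hv3⟩ := hv
        exact hv3.le.trans (hz2 v (Finset.mem_Ioo.2 ⟨hv1, hv2⟩))
      have hzero : W ((1 + C y * X (yt b e)) * R * prodL y (L.map (cutL b e))) = 0 := by
        refine d1 b n d z _ (by omega) (by omega) hz1.2 ?_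
        intro c hc
        have h1 := vars_mul _ _ hc
        rw [Finset.mem_union] at h1
        rcases h1 with h1 | h1
        · have h2 := vars_mul _ _ h1
          rw [Finset.mem_union] at h2
          rcases h2 with h2 | h2
          · rw [hyno c h2]
            exact hbe
          · obtain ⟨u, h4, h5, h6⟩ := hRvars c h2
            have h7 := hz2 u (Finset.mem_Ioo.2 ⟨h4, h5⟩)
            rcases h6 with rfl | rfl
            · exact h7
            · rcases (xt_D6 b n u).2 with h8 | ⟨h8, v, h9, h10, h11⟩
              · rw [h8]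
                exact h7
              · rw [h8]
                have := hz2 v (Finset.mem_Ioo.2 ⟨by omega, h10⟩)
                omega
        · obtain ⟨p, hp, rfl⟩ := vars_prodL_D6 y _ c h1
          obtain ⟨q, hq, rfl⟩ := List.mem_map.1 hp
          show min q.1 (b e) ≤ b z
          exact (min_le_right _ _).trans hbe
      rw [hzero, add_zero]
      have e3 : (1 + C y * X (yt b e)) * R * SX b e y L =
          (R * SX b e y L) * (1 + C y * X ((b e, e) : Tok)) := by
        have : yt b e = (b e, e) := rfl
        rw [this]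
        ring
      have e4 : SX b e y L * (1 + C y * X ((b e, 0) : Tok)) * R =
          (R * SX b e y L) * (1 + C y * X ((b e, 0) : Tok)) := by ring
      rw [e3, e4, rep_D6 W _ _ hrep]
    · -- case (b)
      have hxt : xt b n e = (b e, e) := by
        unfold xt
        rw [if_neg hv]
      have hlt : ∀ v, e < v → v < n → b v < b e := by
        intro v h1 h2
        have h3 : b v ≠ b e := fun h => by
          have := hinj (Set.mem_Iio.2 h2) (Set.mem_Iio.2 hen) h
          omega
        have h4 : ¬ b e < b v := fun h => hv ⟨v, h1, h2, h⟩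
        omega
      rw [hxt]
      have hxno : ∀ c ∈ ((1 + X ((b e, e) : Tok)) : Alg).vars, c = (b e, e) := by
        intro c hc
        have h3 := vars_add_subset _ _ hc
        rw [Finset.mem_union, vars_one, vars_X] at h3
        rcases h3 with h3 | h3
        · exact absurd h3 (Finset.notMem_empty c)
        · exact Finset.mem_singleton.1 h3
      have hgno2 : ∀ c ∈ ((1 + C y * X (yt b e)) * R * (1 + X ((b e, e) : Tok)) : Alg).vars,
          ¬ has b e c := by
        intro c hc
        have h1 := vars_mul _ _ hc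
        rw [Finset.mem_union] at h1
        rcases h1 with h1 | h1
        · exact hgno c h1
        · rw [hxno c h1]
          rintro ⟨-, h2⟩
          exact lt_irrefl _ h2
      have e1 : prodL y L * ((1 + C y * X (yt b e)) * (1 + X ((b e, e) : Tok)) * R) =
          ((1 + C y * X (yt b e)) * R * (1 + X ((b e, e) : Tok))) * prodL y L := by ring
      rw [e1, s1 _ _ hgno2, s3]
      have e2 : (1 + C y * X (yt b e)) * R * (1 + X ((b e, e) : Tok)) * SS b e y L =
          (R * SS b e y L * (1 + X ((b e, e) : Tok))) * (1 + C y * X ((b e, e) : Tok)) := by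
        have : yt b e = (b e, e) := rfl
        rw [this]
        ring
      have e3 : (R * SS b e y L * (1 + X ((b e, e) : Tok))) * (1 + C y * X ((b e, 0) : Tok)) =
          (R * SS b e y L * (1 + C y * X ((b e, 0) : Tok))) * (1 + X ((b e, e) : Tok)) := by ring
      rw [e2, rep_D6 W _ _ hrep, e3, rep1_D6 W _ _ hrep]
      have h5 := sx_ss_D6 b e y W (fun β hβ f => by
        refine d4 b n d (β, 0) (b e, 0) f (by omega) (Nat.zero_le _) (Nat.zero_le _) ?_
        intro v h6 h7
        have h8 := hlt v (by omega) h7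
        show b v < β ↔ b v < b e
        constructor
        · intro _
          exact h8
        · intro _
          omega) L ((1 + C y * X ((b e, 0) : Tok)) * R)
      have e4 : SX b e y L * (1 + C y * X ((b e, 0) : Tok)) * R =
          (1 + C y * X ((b e, 0) : Tok)) * R * SX b e y L := by ring
      have e5 : (R * SS b e y L * (1 + C y * X ((b e, 0) : Tok))) * (1 + X ((b e, 0) : Tok)) =
          (1 + C y * X ((b e, 0) : Tok)) * R * ((1 + X ((b e, 0) : Tok)) * SS b e y L) := by ring
      rw [e4, e5, h5]

end Pool.Agent.Helper51.PE
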