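import Pool.Agent.Helper51.PE.St

/-!
PROJECT PE2 (MP_6da2a2_co, helper51), module E4: ultra-log-concavity of `nd (leb b) (range n)`.
-/

set_option autoImplicit false

namespace Pool.Agent.Helper51.PE

open MvPolynomial
open Pool.Agent.Helper16.PEul (IsExt des leN numExt)
open Pool.Agent.Helper50.PE (exts nd)

private theorem aa_cont_E4 (c7 : StCont) (b : ℕ → ℕ) (n N j : ℕ) :
    Continuous (fun ε : ℝ => aa b ε n N j) := by
  unfold aa
  exact continuous_finsetSum _ fun K _ => c7 b n (n - 1) _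

private theorem sum_eq_E4 (b : ℕ → ℕ) (ε : ℝ) (n N j : ℕ) :
    (∑ K ∈ (Finset.univ : Finset (Finset (Fin n × Bool))).filter
      (fun K => K.card = n - 1 ∧
        (K ∩ (Finset.univ : Finset (Fin n × Bool)).filter (fun g => g.2 = true)).card = j),
      V b ε n (n - 1) (∏ g ∈ K, X (gt b n N g))) = aa b ε n N j := by
  unfold aa
  refine Finset.sum_congr ?_ fun _ _ => rfl
  refine Finset.filter_congr fun K _ => ?_
  rw [Finset.inter_filter, Finset.inter_univ]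

private theorem pos_E4 (c5 : StULC) (c6 : StLorV) (b : ℕ → ℕ) (n N k : ℕ) (hk : 1 ≤ k) (hk2 : k + 1 ≤ n - 1)
    (ε : ℝ) (h0 : 0 < ε) (h1 : ε ≤ 1) :
    ((k : ℝ) + 1) * (((n - 1 : ℕ) : ℝ) - k + 1) * (aa b ε n N (k - 1) * aa b ε n N (k + 1)) ≤
    (k : ℝ) * (((n - 1 : ℕ) : ℝ) - k) * (aa b ε n N k) ^ 2 := by
  have hL := c6 (Fin n × Bool) b ε n (n - 1) (gt b n N) h0 h1 (Nat.sub_le _ _)
  have hcard : n - 1 ≤ Fintype.card (Fin n × Bool) := by
    rw [Fintype.card_prod, Fintype.card_fin, Fintype.card_bool]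
    omega
  have h := c5 (Fin n × Bool) (n - 1) k _
    ((Finset.univ : Finset (Fin n × Bool)).filter (fun g => g.2 = true)) hcard hk hk2 hL
  simp only [sum_eq_E4] at h
  exact h

private theorem zero_E4 (c5 : StULC) (c6 : StLorV) (c7 : StCont) (b : ℕ → ℕ) (n N k : ℕ) (hk : 1 ≤ k)
    (hk2 : k + 1 ≤ n - 1) :
    ((k : ℝ) + 1) * (((n - 1 : ℕ) : ℝ) - k + 1) * (aa b 0 n N (k - 1) * aa b 0 n N (k + 1)) ≤
    (k : ℝ) * (((n - 1 : ℕ) : ℝ) - k) * (aa b 0 n N k) ^ 2 := by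
  have hc1 : Continuous (fun ε : ℝ => ((k : ℝ) + 1) * (((n - 1 : ℕ) : ℝ) - k + 1) *
      (aa b ε n N (k - 1) * aa b ε n N (k + 1))) :=
    continuous_const.mul ((aa_cont_E4 c7 b n N (k - 1)).mul (aa_cont_E4 c7 b n N (k + 1)))
  have hc2 : Continuous (fun ε : ℝ => (k : ℝ) * (((n - 1 : ℕ) : ℝ) - k) * (aa b ε n N k) ^ 2) :=
    continuous_const.mul ((aa_cont_E4 c7 b n N k).pow 2)
  refine le_of_tendsto_of_tendsto (b := nhdsWithin (0 : ℝ) (Set.Ioi 0))
    ((hc1.tendsto 0).mono_left nhdsWithin_le_nhds) ((hc2.tendsto 0).mono_left nhdsWithin_le_nhds) ?_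
  filter_upwards [Ioc_mem_nhdsGT (zero_lt_one : (0 : ℝ) < 1)] with ε hε
  exact pos_E4 c5 c6 b n N k hk hk2 ε hε.1 hε.2

/-- E4. -/
theorem pf_Main (c5 : StULC) (c6 : StLorV) (c7 : StCont) (e3 : StCoef) : StMain := by
  intro b n k hn hb hk
  by_cases hkn : n ≤ k + 1
  · have h0 : nd (leb b) (Finset.range n) (k + 1) = 0 :=
      Pool.Agent.Helper50.PE.nd_zero (Finset.nonempty_range_iff.2 (by omega)) (by rw [Finset.card_range]; exact hkn)
    rw [h0, mul_zero, mul_zero]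
    exact Nat.zero_le _
  · push Not at hkn
    have hk2 : k + 1 ≤ n - 1 := by omega
    have hN : ∀ v, v < n → b v < 1 + (Finset.range n).sup b := by
      intro v hv
      have : b v ≤ (Finset.range n).sup b := Finset.le_sup (f := b) (Finset.mem_range.2 hv)
      omega
    have h := zero_E4 c5 c6 c7 b n (1 + (Finset.range n).sup b) k hk hk2
    rw [← e3 b n _ (k - 1) hn hb hN, ← e3 b n _ (k + 1) hn hb hN, ← e3 b n _ k hn hb hN] at h
    have e1 : (((n - 1 : ℕ) : ℝ) - k + 1) = ((n - k : ℕ) : ℝ) := by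
      rw [Nat.cast_sub (by omega), Nat.cast_sub (by omega)]
      push_cast; ring
    have e2 : (((n - 1 : ℕ) : ℝ) - k) = ((n - 1 - k : ℕ) : ℝ) := by
      rw [Nat.cast_sub (by omega : k ≤ n - 1)]
    rw [e1, e2] at h
    exact_mod_cast h

end Pool.Agent.Helper51.PE
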