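import Pool.Agent.Helper51.PE.St

set_option autoImplicit false

namespace Pool.Agent.Helper51.PE

open Pool.Agent.Helper16.PEul (IsExt des leN numExt)

private lemma sw_lt_E5 {n : ℕ} {u v x y : Fin n} (h : v.val = u.val + 1 ∨ u.val = v.val + 1)
    (h1 : ¬ (x = u ∧ y = v)) (h2 : ¬ (x = v ∧ y = u)) :
    Equiv.swap u v x < Equiv.swap u v y ↔ x < y := by
  simp only [Equiv.swap_apply_def]
  simp only [Fin.ext_iff] at h1 h2
  split_ifs with a1 a2 a3 a4 a5 a6 a7 a8 <;> simp only [Fin.ext_iff, Fin.lt_def] at * <;> omega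

private def adj_E5 {n : ℕ} (i j : Fin n) (σ : Equiv.Perm (Fin n)) : Prop :=
  (σ.symm j).val = (σ.symm i).val + 1 ∨ (σ.symm i).val = (σ.symm j).val + 1

private lemma adj_swap_E5 {n : ℕ} (i j : Fin n) (σ : Equiv.Perm (Fin n)) :
    adj_E5 i j (σ.trans (Equiv.swap i j)) ↔ adj_E5 i j σ := by
  unfold adj_E5
  rw [Equiv.symm_trans_apply, Equiv.symm_trans_apply, Equiv.symm_swap, Equiv.swap_apply_left,
    Equiv.swap_apply_right]
  exact or_comm

open Classical in
private noncomputable def phi_E5 {n : ℕ} (i j : Fin n) (σ : Equiv.Perm (Fin n)) : Equiv.Perm (Fin n) :=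
  if adj_E5 i j σ then σ else σ.trans (Equiv.swap i j)

private lemma phi_inv_E5 {n : ℕ} (i j : Fin n) : Function.Involutive (phi_E5 (n := n) i j) := by
  intro σ
  by_cases h : adj_E5 i j σ
  · have e1 : phi_E5 i j σ = σ := by unfold phi_E5; rw [if_pos h]
    rw [e1, e1]
  · have h2 : ¬ adj_E5 i j (σ.trans (Equiv.swap i j)) := fun h3 => h ((adj_swap_E5 i j σ).1 h3)
    have e1 : phi_E5 i j σ = σ.trans (Equiv.swap i j) := by unfold phi_E5; rw [if_neg h]
    have e2 : phi_E5 i j (σ.trans (Equiv.swap i j)) = (σ.trans (Equiv.swap i j)).trans (Equiv.swap i j) := by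
      unfold phi_E5; rw [if_neg h2]
    rw [e1, e2]
    ext x
    simp

private lemma ext_adj_E5 {n : ℕ} (le : Fin n → Fin n → Prop) (i j : Fin n) (hij : ¬ le i j) (hji : ¬ le j i)
    (σ : Equiv.Perm (Fin n)) (h : adj_E5 i j σ) (hσ : ∀ a b : Fin n, le (σ a) (σ b) → σ a ≠ σ b → a < b) :
    ∀ a b : Fin n, le (Equiv.swap i j (σ a)) (Equiv.swap i j (σ b)) → σ a ≠ σ b → a < b := by
  intro a b hab hne
  have e : ∀ x : Fin n, Equiv.swap i j (σ x) = σ (Equiv.swap (σ.symm i) (σ.symm j) x) := by
    intro x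
    simp only [Equiv.swap_apply_def, Equiv.eq_symm_apply]
    split_ifs <;> simp
  have h1 : Equiv.swap (σ.symm i) (σ.symm j) a < Equiv.swap (σ.symm i) (σ.symm j) b := by
    apply hσ
    · rw [← e, ← e]; exact hab
    · rw [← e, ← e]
      intro h2
      exact hne ((Equiv.swap i j).injective h2)
  rw [sw_lt_E5 h] at h1
  · exact h1
  · rintro ⟨ha, hb⟩
    rw [ha, hb] at hab
    simp only [Equiv.apply_symm_apply, Equiv.swap_apply_left, Equiv.swap_apply_right] at hab
    exact hji hab
  · rintro ⟨ha, hb⟩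
    rw [ha, hb] at hab
    simp only [Equiv.apply_symm_apply, Equiv.swap_apply_left, Equiv.swap_apply_right] at hab
    exact hij hab

open Classical in
theorem pf_Swap : StSwap := by
  intro n le i j hij h1 h2 k
  unfold numExt
  refine Finset.card_equiv (phi_inv_E5 i j).toPerm ?_
  intro σ
  rw [Finset.mem_filter, Finset.mem_filter]
  simp only [Finset.mem_univ, true_and]
  show _ ↔ (∀ a b : Fin n, le (Equiv.swap i j (phi_E5 i j σ a)) (Equiv.swap i j (phi_E5 i j σ b)) →
    phi_E5 i j σ a ≠ phi_E5 i j σ b → a < b) ∧ (Finset.filter (fun p : Fin n × Fin n => p.2.val = p.1.val + 1 ∧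
      phi_E5 i j σ p.2 < phi_E5 i j σ p.1) Finset.univ).card = k
  by_cases h : adj_E5 i j σ
  · simp only [phi_E5, if_pos h]
    refine and_congr_left fun _ => ?_
    constructor
    · intro hσ
      exact ext_adj_E5 le i j h1 h2 σ h hσ
    · intro hσ
      have := ext_adj_E5 (fun a c => le (Equiv.swap i j a) (Equiv.swap i j c)) i j (by simpa using h2)
        (by simpa using h1) σ h hσ
      simpa using this
  · simp only [phi_E5, if_neg h, Equiv.trans_apply, Equiv.swap_apply_self, ne_eq, EmbeddingLike.apply_eq_iff_eq]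
    refine and_congr Iff.rfl ?_
    have e : ∀ p : Fin n × Fin n, (p.2.val = p.1.val + 1 ∧ σ p.2 < σ p.1) ↔
        (p.2.val = p.1.val + 1 ∧ Equiv.swap i j (σ p.2) < Equiv.swap i j (σ p.1)) := by
      intro p
      refine and_congr_right fun hp => ?_
      rw [sw_lt_E5 (Or.inl hij)]
      · rintro ⟨ha, hb⟩
        apply h
        right
        rw [← ha, ← hb]
        simpa using hp
      · rintro ⟨ha, hb⟩
        apply h
        left
        rw [← ha, ← hb]
        simpa using hp
    simp only [e]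

end Pool.Agent.Helper51.PE
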