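import Pool.Agent.Helper51.PE.St

/-!
PROJECT PE2 (MP_6da2a2_co, helper51), module E6: `W` does not depend on the natural labelling.
-/

set_option autoImplicit false

namespace Pool.Agent.Helper51.PE

open Pool.Agent.Helper16.PEul (numExt)

/-- a permutation without a descent is the identity -/
private theorem exists_desc_E6 {n : ℕ} (π : Equiv.Perm (Fin n)) (hπ : π ≠ 1) :
    ∃ i j : Fin n, j.val = i.val + 1 ∧ π j < π i := by
  by_contra hcon
  push Not at hcon
  apply hπ
  have hmono : StrictMono π := by
    cases n with
    | zero => intro a; exact a.elim0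
    | succ m =>
      rw [Fin.strictMono_iff_lt_succ]
      intro i
      refine lt_of_le_of_ne (hcon i.castSucc i.succ (by simp)) ?_
      intro h
      have h2 := π.injective h
      have h3 := congrArg Fin.val h2
      simp at h3
  have h1 : hmono.orderIsoOfSurjective π π.surjective = OrderIso.refl (Fin n) := Subsingleton.elim _ _
  ext a
  have h2 := congrArg (fun e : Fin n ≃o Fin n => (e a).val) h1
  simpa using h2

/-- the measure of the induction -/
private def mu_E6 {n : ℕ} (π : Equiv.Perm (Fin n)) : ℕ := ∑ a : Fin n, (n - a.val) * (π a).val

/-- the measure decreases -/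
private theorem mu_lt_E6 {n : ℕ} (π : Equiv.Perm (Fin n)) (i j : Fin n) (hij : j.val = i.val + 1)
    (h : π j < π i) : mu_E6 (π * Equiv.swap i j) < mu_E6 π := by
  have hne : i ≠ j := by
    intro h'
    rw [h'] at hij
    omega
  unfold mu_E6
  have e1 : ∀ f : Fin n → ℕ, ∑ a, f a = f i + (f j + ∑ a ∈ (Finset.univ.erase i).erase j, f a) := by
    intro f
    rw [Finset.add_sum_erase _ _ (by simp [Ne.symm hne]), Finset.add_sum_erase _ _ (by simp)]
  rw [e1, e1 (fun a => (n - a.val) * (π a).val)]
  have e2 : ∑ a ∈ (Finset.univ.erase i).erase j, (n - a.val) * ((π * Equiv.swap i j) a).val =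
      ∑ a ∈ (Finset.univ.erase i).erase j, (n - a.val) * (π a).val := by
    apply Finset.sum_congr rfl
    intro a ha
    simp only [Finset.mem_erase, Finset.mem_univ, and_true] at ha
    rw [Equiv.Perm.mul_apply, Equiv.swap_apply_of_ne_of_ne ha.2 ha.1]
  rw [e2]
  simp only [Equiv.Perm.mul_apply, Equiv.swap_apply_left, Equiv.swap_apply_right]
  have hj := j.isLt
  obtain ⟨u, hu⟩ : ∃ u, n - j.val = u := ⟨_, rfl⟩
  have hu' : n - i.val = u + 1 := by omega
  rw [hu, hu']
  have h' : (π j).val < (π i).val := h
  nlinarith

/-- **E6** `W` does not depend on the natural labelling -/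
theorem pf_Nat (e5 : StSwap) : StNat := by
  intro n le π h1 h2 k
  obtain ⟨N, hN⟩ : ∃ N, mu_E6 π = N := ⟨_, rfl⟩
  induction N using Nat.strong_induction_on generalizing le π with
  | _ N ih =>
    by_cases hπ : π = 1
    · rw [hπ]
      rfl
    · obtain ⟨i, j, hij, hlt⟩ := exists_desc_E6 π hπ
      have hnij : ¬ le i j := fun h => absurd (h2 i j h) (not_le.2 hlt)
      have hnji : ¬ le j i := fun h => by
        have h3 : j.val ≤ i.val := h1 j i h
        omega
      rw [e5 n le i j hij hnij hnji k]
      have key := ih (mu_E6 (π * Equiv.swap i j)) (hN ▸ mu_lt_E6 π i j hij hlt)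
        (fun a c => le (Equiv.swap i j a) (Equiv.swap i j c)) (π * Equiv.swap i j) ?_ ?_ rfl
      · rw [key]
        congr 1
        funext a c
        simp [← Equiv.Perm.inv_def]
      · intro a c hac
        have h3 : (Equiv.swap i j a).val ≤ (Equiv.swap i j c).val := h1 _ _ hac
        by_contra hcon
        have hcon' : c.val < a.val := not_le.1 hcon
        by_cases ha : a = i
        · rw [ha, Equiv.swap_apply_left] at h3
          by_cases hc : c = j
          · rw [ha, hc] at hcon'
            omega
          · rw [Equiv.swap_apply_of_ne_of_ne (by rintro rfl; rw [ha] at hcon'; omega) hc] at h3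
            rw [ha] at hcon'
            omega
        · by_cases ha' : a = j
          · rw [ha', Equiv.swap_apply_right] at h3
            by_cases hc : c = i
            · rw [ha', hc, Equiv.swap_apply_left, Equiv.swap_apply_right] at hac
              exact hnij hac
            · have hc' : c ≠ j := by
                rintro rfl
                rw [ha'] at hcon'
                omega
              rw [Equiv.swap_apply_of_ne_of_ne hc hc'] at h3
              have h4 : c.val ≠ i.val := fun h => hc (Fin.ext h)
              rw [ha'] at hcon'
              omega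
          · rw [Equiv.swap_apply_of_ne_of_ne ha ha'] at h3
            by_cases hc : c = i
            · rw [hc, Equiv.swap_apply_left] at h3
              have h4 : a.val ≠ j.val := fun h => ha' (Fin.ext h)
              rw [hc] at hcon'
              omega
            · by_cases hc' : c = j
              · rw [hc', Equiv.swap_apply_right] at h3
                rw [hc'] at hcon'
                omega
              · rw [Equiv.swap_apply_of_ne_of_ne hc hc'] at h3
                omega
      · intro a c hac
        exact h2 _ _ hac

end Pool.Agent.Helper51.PE
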