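import Pool.Agent.Helper51.PE.St

/-!
PROJECT PE2, module E7: coordinates of an intersection of two linear orders.
-/

set_option autoImplicit false

namespace Pool.Agent.Helper51.PE

private theorem rank_E7 (n : ℕ) (l : Fin n → Fin n → Prop) (hr : ∀ a, l a a)
    (ha : ∀ a b, l a b → l b a → a = b) (ht : ∀ a b c, l a b → l b c → l a c)
    (htot : ∀ a b, l a b ∨ l b a) : ∃ f : Equiv.Perm (Fin n), ∀ a c, l a c ↔ f a ≤ f c := by
  classical
  set S : Fin n → Finset (Fin n) := fun a => Finset.univ.filter fun x => x ≠ a ∧ l x a with hS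
  have hlt : ∀ a, (S a).card < n := by
    intro a
    have h1 : S a ⊆ Finset.univ.erase a := by
      intro x hx
      rw [hS, Finset.mem_filter] at hx
      exact Finset.mem_erase.2 ⟨hx.2.1, Finset.mem_univ _⟩
    have h2 := Finset.card_le_card h1
    rw [Finset.card_erase_of_mem (Finset.mem_univ _), Finset.card_univ, Fintype.card_fin] at h2
    have h3 := a.isLt
    omega
  have hsub : ∀ a c, l a c → S a ⊆ S c := by
    intro a c hac x hx
    rw [hS, Finset.mem_filter] at hx ⊢
    refine ⟨Finset.mem_univ _, ?_, ht _ _ _ hx.2.2 hac⟩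
    rintro rfl
    exact hx.2.1 (ha _ _ hx.2.2 hac)
  have hstrict : ∀ a c, l a c → a ≠ c → (S a).card < (S c).card := by
    intro a c hac hne
    refine Finset.card_lt_card ⟨hsub a c hac, fun h => ?_⟩
    have h1 : a ∈ S c := by
      rw [hS, Finset.mem_filter]
      exact ⟨Finset.mem_univ _, hne, hac⟩
    have h2 := h h1
    rw [hS, Finset.mem_filter] at h2
    exact h2.2.1 rfl
  set f : Fin n → Fin n := fun a => ⟨(S a).card, hlt a⟩ with hf
  have hinj : Function.Injective f := by
    intro a c hac
    by_contra hne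
    have h1 : (S a).card = (S c).card := congrArg Fin.val hac
    rcases htot a c with h | h
    · have := hstrict a c h hne
      omega
    · have := hstrict c a h (Ne.symm hne)
      omega
  refine ⟨Equiv.ofBijective f (Finite.injective_iff_bijective.1 hinj), fun a c => ?_⟩
  rw [Equiv.ofBijective_apply, Equiv.ofBijective_apply]
  constructor
  · intro h
    exact Finset.card_le_card (hsub a c h)
  · intro h
    rcases htot a c with h1 | h1
    · exact h1
    · by_cases hne : a = c
      · rw [hne]
        exact hr c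
      · have h2 := hstrict c a h1 (Ne.symm hne)
        have h3 : (S a).card ≤ (S c).card := h
        omega

/-- coordinates -/
theorem pf_Coord : StCoord := by
  intro n le l1 l2 r1 a1 t1 tot1 r2 a2 t2 tot2 hle
  obtain ⟨π, hπ⟩ := rank_E7 n l1 r1 a1 t1 tot1
  obtain ⟨ρ, hρ⟩ := rank_E7 n l2 r2 a2 t2 tot2
  set b : ℕ → ℕ := fun v => if h : v < n then (ρ (π.symm ⟨v, h⟩)).val else v with hb
  have hbv : ∀ a : Fin n, b a.val = (ρ (π.symm a)).val := by
    intro a
    rw [hb]
    simp only [a.isLt, dif_pos]
  have hbinj : ∀ a c : Fin n, b a.val = b c.val → a = c := by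
    intro a c h
    rw [hbv, hbv] at h
    exact π.symm.injective (ρ.injective (Fin.ext h))
  refine ⟨π, b, ?_, ?_, ?_⟩
  · intro x hx z hz h
    exact congrArg Fin.val (hbinj ⟨x, hx⟩ ⟨z, hz⟩ h)
  · intro a c h
    exact (hπ a c).1 ((hle a c).1 h).1
  · intro a c
    rw [hle, hπ, hρ, Equiv.apply_symm_apply, Equiv.apply_symm_apply, Fin.le_def, Fin.le_def, ← hbv,
      ← hbv]
    unfold leb
    constructor
    · rintro ⟨h1, h2⟩
      by_cases hac : a = c
      · exact Or.inl (congrArg Fin.val hac)
      · right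
        refine ⟨lt_of_le_of_ne h1 fun h => hac (Fin.ext h), lt_of_le_of_ne h2 fun h => hac (hbinj a c h)⟩
    · rintro (h | ⟨h1, h2⟩)
      · rw [h]
        exact ⟨le_rfl, le_rfl⟩
      · exact ⟨h1.le, h2.le⟩

end Pool.Agent.Helper51.PE
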