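import Pool.Agent.Helper51.PE.St

/-!
PROJECT PE2 (MP_6da2a2_co), module E8: the final statement.
-/

set_option autoImplicit false

namespace Pool.Agent.Helper51.PE

open Pool.Agent.Helper16.PEul (IsExt des leN numExt)
open Pool.Agent.Helper50.PE (exts nd)

theorem pf_Final (e4 : StMain) (e6 : StNat) (e7 : StCoord) : StFinal := by
  intro n hn le l1 l2 h1r h1a h1t h1o h2r h2a h2t h2o hle hnat k hk
  obtain ⟨π, b, hb, hπ, hl⟩ := e7 n le l1 l2 h1r h1a h1t h1o h2r h2a h2t h2o hle
  have himg : (Finset.univ : Finset (Fin n)).image Fin.val = Finset.range n := by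
    ext x
    simp only [Finset.mem_image, Finset.mem_univ, true_and, Finset.mem_range]
    exact ⟨fun ⟨a, ha⟩ => ha ▸ a.2, fun hx => ⟨⟨x, hx⟩, rfl⟩⟩
  have key : ∀ j, numExt le j = nd (leb b) (Finset.range n) j := by
    intro j
    rw [e6 n le π hnat hπ j]
    have h1 : (fun a c : Fin n => le (π.symm a) (π.symm c)) =
        fun a c : Fin n => leb b a.val c.val := by
      funext a c
      exact propext (hl a c)
    rw [h1, ← himg]
    exact (Pool.Agent.Helper14.PE.pf_Relab n (leb b) Fin.val (fun _ _ h => h) j).symm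
  rw [key, key, key]
  exact e4 b n k hn hb hk

end Pool.Agent.Helper51.PE
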