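import Pool.Agent.Helper51.PE.M_A1
import Pool.Agent.Helper51.PE.M_A2
import Pool.Agent.Helper51.PE.M_A3
import Pool.Agent.Helper51.PE.M_A3b
import Pool.Agent.Helper51.PE.M_A4
import Pool.Agent.Helper51.PE.M_A5
import Pool.Agent.Helper51.PE.M_A6
import Pool.Agent.Helper51.PE.M_B1
import Pool.Agent.Helper51.PE.M_B2
import Pool.Agent.Helper51.PE.M_B3
import Pool.Agent.Helper51.PE.M_B4
import Pool.Agent.Helper51.PE.M_B5
import Pool.Agent.Helper51.PE.M_C1
import Pool.Agent.Helper51.PE.M_C2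
import Pool.Agent.Helper51.PE.M_C3
import Pool.Agent.Helper51.PE.M_C4
import Pool.Agent.Helper51.PE.M_C5
import Pool.Agent.Helper51.PE.M_C6
import Pool.Agent.Helper51.PE.M_C7
import Pool.Agent.Helper51.PE.M_D1
import Pool.Agent.Helper51.PE.M_D2
import Pool.Agent.Helper51.PE.M_D3
import Pool.Agent.Helper51.PE.M_D4
import Pool.Agent.Helper51.PE.M_D5
import Pool.Agent.Helper51.PE.M_D6
import Pool.Agent.Helper51.PE.M_E1
import Pool.Agent.Helper51.PE.M_E2
import Pool.Agent.Helper51.PE.M_E3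
import Pool.Agent.Helper51.PE.M_E4
import Pool.Agent.Helper51.PE.M_E5
import Pool.Agent.Helper51.PE.M_E6
import Pool.Agent.Helper51.PE.M_E7
import Pool.Agent.Helper51.PE.M_E8

/-!
PROJECT PE2 (MP_6da2a2_co): assembly of the modules.
-/

set_option autoImplicit false

namespace Pool.Agent.Helper51.PE

open Pool.Agent.Helper16.PEul (numExt)

theorem final : StFinal := by
  have a1 := pf_Low
  have a2 := pf_Bot a1
  have a3 := pf_Leib a1
  have a3b := pf_Up a1 a3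
  have a4 := pf_Pos a1
  have a5 := pf_Mono a1 a2 a3 a4
  have a6 := pf_DMono a5
  have b1 := pf_Psi a1
  have b4 := pf_Path a4 a6 b1 pf_RCS pf_Real
  have b5 := pf_AF b4 a1
  have c2 := pf_DU pf_Boch
  have c3 := pf_T c2 pf_RCS
  have c5 := pf_ULC c3 pf_Count
  have c6 := pf_LorV a4 b5
  have c7 := pf_Cont a1
  have d1 := pf_Van a1
  have d2 := pf_SS a2 a3b
  have d4 := pf_Eqv a5
  have d6 := pf_Static d1 d2 pf_Tel d4 pf_SplSX
  have e2 := pf_Words pf_Ins
  have e3 := pf_Coef a4 d6 e2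
  have e4 := pf_Main c5 c6 c7 e3
  exact pf_Final e4 (pf_Nat pf_Swap) pf_Coord

/-- ultra-log-concavity implies log-concavity -/
theorem logConc_of_final (n : ℕ) (hn : 1 ≤ n) (le l1 l2 : Fin n → Fin n → Prop)
    (h1 : ∀ a, l1 a a) (h2 : ∀ a b, l1 a b → l1 b a → a = b)
    (h3 : ∀ a b c, l1 a b → l1 b c → l1 a c) (h4 : ∀ a b, l1 a b ∨ l1 b a)
    (h5 : ∀ a, l2 a a) (h6 : ∀ a b, l2 a b → l2 b a → a = b)
    (h7 : ∀ a b c, l2 a b → l2 b c → l2 a c) (h8 : ∀ a b, l2 a b ∨ l2 b a)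
    (h9 : ∀ a b, le a b ↔ l1 a b ∧ l2 a b) (h10 : ∀ a b, le a b → a ≤ b)
    (hv : ∀ k, n ≤ k → numExt le k = 0) (k : ℕ) :
    numExt le k * numExt le (k + 2) ≤ numExt le (k + 1) ^ 2 := by
  rcases Nat.lt_or_ge (k + 2) n with hk | hk
  · have h := final n hn le l1 l2 h1 h2 h3 h4 h5 h6 h7 h8 h9 h10 (k + 1) (by omega)
    rw [show k + 1 - 1 = k by omega, show k + 1 + 1 = k + 2 by omega] at h
    have h11 : (k + 1) * (n - 1 - (k + 1)) ≤ (k + 2) * (n - (k + 1)) :=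
      Nat.mul_le_mul (by omega) (by omega)
    have h12 : 0 < (k + 2) * (n - (k + 1)) := Nat.mul_pos (by omega) (by omega)
    exact Nat.le_of_mul_le_mul_left (h.trans (Nat.mul_le_mul_right _ h11)) h12
  · rw [hv (k + 2) hk, Nat.mul_zero]
    exact Nat.zero_le _

end Pool.Agent.Helper51.PE
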