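import Pool.Agent.Helper50.PE.Final

/-!
PROJECT PE2 (MP_6da2a2_co, helper51): ultra-log-concavity of `W_P` for naturally labelled posets of
dimension at most two.  Definitions.

World `e`: the labels `0, ..., e-1` have been inserted, `e` is the next element.  The second coordinate of
the label `v` is `b v`; `u <_P v` iff `u < v` and `b u < b v`.  A token `(β, α)` may be used by
the element `v` iff `α ≤ v` and `b v < β`.
-/

set_option autoImplicit false

namespace Pool.Agent.Helper51.PE

open MvPolynomial

/-- a token `(threshold, first label which may use it)` -/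
abbrev Tok := ℕ × ℕ

/-- polynomials in the tokens -/
abbrev Alg := MvPolynomial Tok ℝ

/-- the element `e` may use the token `c` -/
def has (b : ℕ → ℕ) (e : ℕ) (c : Tok) : Prop := c.2 ≤ e ∧ b e < c.1

instance (b : ℕ → ℕ) (e : ℕ) (c : Tok) : Decidable (has b e c) := by unfold has; infer_instance

/-- the token `c` after `e` has been placed to the right of it -/
def cut (b : ℕ → ℕ) (e : ℕ) (c : Tok) : Tok := if has b e c then (b e, 0) else c

/-- the width of a token in the direction `e`: `1`, or `ε` if `e` may not use it -/
noncomputable def wt (b : ℕ → ℕ) (ε : ℝ) (e : ℕ) (c : Tok) : ℝ := if has b e c then 1 else ε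

/-- tokens which `e` may not use come first, the others are sorted by threshold -/
def key (b : ℕ → ℕ) (e : ℕ) (c : Tok) : ℕ := if has b e c then c.1 + 1 else 0

/-- the order of the tokens in the world `e` (for equal thresholds the larger activation label first) -/
def tle (b : ℕ → ℕ) (e : ℕ) (c c' : Tok) : Prop :=
  key b e c < key b e c' ∨ (key b e c = key b e c' ∧ (c.1 < c'.1 ∨ (c.1 = c'.1 ∧ c'.2 ≤ c.2)))

instance (b : ℕ → ℕ) (e : ℕ) : DecidableRel (tle b e) := fun c c' => by unfold tle; infer_instance

instance (b : ℕ → ℕ) (e : ℕ) : IsTrans Tok (tle b e) where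
  trans := by
    intro x y z h1 h2
    unfold tle at *
    omega

instance (b : ℕ → ℕ) (e : ℕ) : Std.Antisymm (tle b e) where
  antisymm := by
    intro x y h1 h2
    unfold tle at h1 h2
    have a1 : x.1 = y.1 := by omega
    have a2 : x.2 = y.2 := by omega
    exact Prod.ext a1 a2

instance (b : ℕ → ℕ) (e : ℕ) : Std.Total (tle b e) where
  total := by
    intro x y
    unfold tle
    omega

/-- the product of a list of tokens -/
noncomputable def pr (l : List Tok) : Alg := (l.map X).prod

/-- the product of a multiset of tokens -/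
noncomputable def mon (S : Multiset Tok) : Alg := (S.map X).prod

/-- `e` uses one of the tokens of the sorted list; those before it are cut, those after it are not -/
noncomputable def phiL (b : ℕ → ℕ) (ε : ℝ) (e : ℕ) : List Tok → Alg
  | [] => 0
  | c :: l => C (wt b ε e c) * pr l + X (cut b e c) * phiL b ε e l

/-- the operator `Φ_e` -/
noncomputable def phi (b : ℕ → ℕ) (ε : ℝ) (e : ℕ) : Alg →ₗ[ℝ] Alg :=
  (basisMonomials Tok ℝ).constr ℝ
    (fun m => phiL b ε e ((Finsupp.toMultiset m).sort (tle b e)))

/-- constant coefficient -/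
noncomputable def cc0 : Alg →ₗ[ℝ] ℝ where
  toFun p := coeff 0 p
  map_add' p q := coeff_add 0 p q
  map_smul' r p := coeff_smul 0 r p

/-- the number of ways (with widths) to use up the tokens by the last `d` of the `n` elements -/
noncomputable def V (b : ℕ → ℕ) (ε : ℝ) (n : ℕ) : ℕ → Alg →ₗ[ℝ] ℝ
  | 0 => cc0
  | d + 1 => (V b ε n d).comp (phi b ε (n - (d + 1)))

/-- the linear form of a finitely supported function -/
noncomputable def lin (v : Tok →₀ ℝ) : Alg := v.sum fun c r => C r * X c

/-- `D_c` = (uncut - cut) / width -/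
noncomputable def DD (b : ℕ → ℕ) (ε : ℝ) (e : ℕ) (c : Tok) : Alg :=
  C ((wt b ε e c)⁻¹) * (X c - X (cut b e c))

/-- at most one positive direction: nonpositive on the kernel of a linear functional -/
def Hyp {W : Type*} [AddCommGroup W] [Module ℝ W] (q : W → ℝ) : Prop :=
  ∃ φ : W →ₗ[ℝ] ℝ, ∀ v, φ v = 0 → q v ≤ 0

/-- items of a sorted list: a fixed token, or a token with a coefficient -/
abbrev Item := Tok × Option ℝ

/-- product of the fixed tokens -/
noncomputable def fixP : List Item → Alg
  | [] => 1
  | (c, none) :: l => X c * fixP l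
  | (_, some _) :: l => fixP l

/-- number of fixed tokens -/
def nfix : List Item → ℕ
  | [] => 0
  | (_, none) :: l => nfix l + 1
  | (_, some _) :: l => nfix l

/-- the linear form of the other tokens -/
noncomputable def varP : List Item → Alg
  | [] => 0
  | (_, none) :: l => varP l
  | (c, some r) :: l => C r * X c + varP l

/-- contributions of all uses of tokens of the list `l`, if the lower variable part (already cut)
is the linear form `y` -/
noncomputable def Psi (b : ℕ → ℕ) (ε : ℝ) (e : ℕ) (l : List Item) (y : Alg) : Alg :=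
  phi b ε e (fixP l * varP l ^ 2) + 2 * y * phi b ε e (fixP l * varP l)
    + y ^ 2 * phi b ε e (fixP l)

/-! ### multi-affine functions (lifting) -/

/-- directional derivative of the multi-affine polynomial with coefficients `f` -/
def DU {ι : Type*} [Fintype ι] [DecidableEq ι] (u : ι → ℝ) (f : Finset ι → ℝ) : Finset ι → ℝ :=
  fun K => ∑ g ∈ Kᶜ, u g * f (insert g K)

/-- all derivatives of order `d - 2` are hyperbolic and the coefficients of degree `d` positive -/
def Lor {ι : Type*} [Fintype ι] [DecidableEq ι] (d : ℕ) (f : Finset ι → ℝ) : Prop :=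
  (∀ K : Finset ι, K.card = d → 0 < f K) ∧
  ∀ S : Finset ι, S.card + 2 = d →
    Hyp (fun v : ι → ℝ => ∑ x ∈ Sᶜ, ∑ z ∈ Sᶜ, if x = z then 0 else f (insert x (insert z S)) * v x * v z)

/-! ### the static model -/

/-- the token `y_u` -/
def yt (b : ℕ → ℕ) (u : ℕ) : Tok := (b u, u)

open Classical in
/-- the token `x_u` -/
noncomputable def xt (b : ℕ → ℕ) (n u : ℕ) : Tok :=
  if ∃ v, u < v ∧ v < n ∧ b u < b v then (b u + 1, u) else (b u, u)

/-- weight of a type: `true` = a descent is created = `y`, `false` = 1 -/
noncomputable def tw (y : ℝ) (t : Bool) : ℝ := if t then y else 1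

/-- product over the present links (threshold, type) -/
noncomputable def prodL (y : ℝ) : List (ℕ × Bool) → Alg
  | [] => 1
  | (β, t) :: L => (1 + C (tw y t) * X (β, 0)) * prodL y L

/-- the factors of the tokens of the last `d` elements -/
noncomputable def fut (b : ℕ → ℕ) (n : ℕ) (y : ℝ) : ℕ → Alg
  | 0 => 1
  | d + 1 => (1 + C y * X (yt b (n - (d + 1)))) * (1 + X (xt b n (n - (d + 1)))) * fut b n y d

/-- the cut link -/
def cutL (b : ℕ → ℕ) (e : ℕ) (p : ℕ × Bool) : ℕ × Bool := (min p.1 (b e), p.2)

/-- all insertions of `e` into the list of links (decreasing thresholds, head = last link): the type of the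
link which is used and the new list of links -/
def spl (b : ℕ → ℕ) (e : ℕ) : List (ℕ × Bool) → List (Bool × List (ℕ × Bool))
  | [] => []
  | (β, t) :: L =>
      (if b e < β then [(t, (β, false) :: (b e, true) :: L.map (cutL b e))] else []) ++
        (spl b e L).map (fun p => (p.1, (β, t) :: p.2))

/-- sum over the uses of a link by `e`, without the new tokens -/
noncomputable def SS (b : ℕ → ℕ) (e : ℕ) (y : ℝ) : List (ℕ × Bool) → Alg
  | [] => 0
  | (β, t) :: L => (if b e < β then C (tw y t) * prodL y (L.map (cutL b e)) else 0) +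
      (1 + C (tw y t) * X (β, 0)) * SS b e y L

/-- the same with the new token `x_e = (β, 0)` -/
noncomputable def SX (b : ℕ → ℕ) (e : ℕ) (y : ℝ) : List (ℕ × Bool) → Alg
  | [] => 0
  | (β, t) :: L =>
      (if b e < β then C (tw y t) * (1 + X (β, 0)) * prodL y (L.map (cutL b e)) else 0) +
      (1 + C (tw y t) * X (β, 0)) * SX b e y L

/-- generating function of the insertions of the last `d` elements, by descents -/
noncomputable def FF (b : ℕ → ℕ) (n : ℕ) (y : ℝ) : ℕ → List (ℕ × Bool) → ℝ
  | 0, _ => 1
  | d + 1, L => ((spl b (n - (d + 1)) L).map (fun p => tw y p.1 * FF b n y d p.2)).sum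

/-- the links of a word (head = last letter) below its last link: thresholds and types -/
def linksA (b : ℕ → ℕ) : ℕ → List ℕ → List (ℕ × Bool)
  | _, [] => []
  | β, [x] => [(min β (b x), true)]
  | β, x :: z :: l => (min β (b x), decide (z < x)) :: linksA b (min β (b x)) (z :: l)

/-- all links of a word -/
def links (b : ℕ → ℕ) (N : ℕ) (l : List ℕ) : List (ℕ × Bool) := (N, false) :: linksA b N l

/-- the poset of the second coordinate `b` -/
def leb (b : ℕ → ℕ) (x z : ℕ) : Prop := x = z ∨ (x < z ∧ b x < b z)

/-- the ground set of the multi-affine polynomial -/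
noncomputable def gt (b : ℕ → ℕ) (n N : ℕ) (g : Fin n × Bool) : Tok :=
  if g.1.val = 0 then (if g.2 then (b 0, 0) else (N, 0)) else
    (if g.2 then yt b g.1.val else xt b n g.1.val)

/-- the sum over all squarefree `K` of size `n - 1` with `k` elements of type `true` -/
noncomputable def aa (b : ℕ → ℕ) (ε : ℝ) (n N k : ℕ) : ℝ :=
  ∑ K ∈ (Finset.univ : Finset (Finset (Fin n × Bool))).filter
    (fun K => K.card = n - 1 ∧ (K.filter (fun g => g.2 = true)).card = k),
    V b ε n (n - 1) (∏ g ∈ K, X (gt b n N g))

end Pool.Agent.Helper51.PE
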