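import Pool.Agent.Helper51.PE.St

/-!
PROJECT PE2, module A1: the operator on sorted monomials.
-/

set_option autoImplicit false

namespace Pool.Agent.Helper51.PE

open MvPolynomial

theorem pr_eq_monomial_A1 (l : List Tok) :
    pr l = monomial (Multiset.toFinsupp (l : Multiset Tok)) (1 : ℝ) := by
  induction l with
  | nil =>
    unfold pr
    simp
  | cons c l ih =>
    have h1 : pr (c :: l) = X c * pr l := by
      unfold pr
      simp
    have h2 : ((c :: l : List Tok) : Multiset Tok) = {c} + (l : Multiset Tok) := by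
      simp
    rw [h1, ih, h2, map_add, Multiset.toFinsupp_singleton, X, monomial_mul, one_mul]

theorem sort_coe_A1 (b : ℕ → ℕ) (e : ℕ) (l : List Tok) (hl : l.Pairwise (tle b e)) :
    ((l : Multiset Tok)).sort (tle b e) = l := by
  rw [Multiset.coe_sort]
  exact List.mergeSort_eq_self _ (by simpa using hl)

theorem phi_sorted_A1 (b : ℕ → ℕ) (ε : ℝ) (e : ℕ) (l : List Tok) (hl : l.Pairwise (tle b e)) :
    phi b ε e (pr l) = phiL b ε e l := by
  rw [pr_eq_monomial_A1]
  have h := (basisMonomials Tok ℝ).constr_basis ℝ
    (fun m => phiL b ε e ((Finsupp.toMultiset m).sort (tle b e))) (Multiset.toFinsupp (l : Multiset Tok))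
  rw [coe_basisMonomials] at h
  unfold phi
  rw [h, Multiset.toFinsupp_toMultiset, sort_coe_A1 b e l hl]

theorem pf_Low : StLow := by
  intro b ε e
  refine ⟨fun l hl => phi_sorted_A1 b ε e l hl, ?_⟩
  intro c g hg
  have key : ∀ m ∈ g.support, phi b ε e (X c * monomial m (coeff m g)) =
      C (wt b ε e c) * monomial m (coeff m g) + X (cut b e c) * phi b ε e (monomial m (coeff m g)) := by
    intro m hm
    set l := (Finsupp.toMultiset m).sort (tle b e) with hldef
    have hls : l.Pairwise (tle b e) := Multiset.pairwise_sort _ _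
    have hlc : (l : Multiset Tok) = Finsupp.toMultiset m := Multiset.sort_eq _ _
    have hmon : monomial m (coeff m g) = (coeff m g) • pr l := by
      rw [pr_eq_monomial_A1, hlc, Finsupp.toMultiset_toFinsupp, smul_monomial, smul_eq_mul, mul_one]
    have hcl : (c :: l).Pairwise (tle b e) := by
      rw [List.pairwise_cons]
      refine ⟨fun a ha => hg a ?_, hls⟩
      rw [mem_vars]
      refine ⟨m, hm, ?_⟩
      have : a ∈ Finsupp.toMultiset m := by
        rw [← hlc]
        exact Multiset.mem_coe.2 ha
      rwa [Finsupp.mem_toMultiset] at this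
    have h1 : X c * pr l = pr (c :: l) := by
      unfold pr
      simp
    rw [hmon, mul_smul_comm, map_smul, h1, phi_sorted_A1 b ε e _ hcl, map_smul,
      phi_sorted_A1 b ε e _ hls, phiL, smul_add, mul_smul_comm, mul_smul_comm]
  conv_lhs => rw [g.as_sum]
  conv_rhs => rw [g.as_sum]
  rw [Finset.mul_sum, map_sum, Finset.sum_congr rfl key, Finset.sum_add_distrib, map_sum,
    Finset.mul_sum, Finset.mul_sum]

end Pool.Agent.Helper51.PE
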