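import Pool.Agent.Helper51.PE.St

/-! PROJECT PE2, module C2: the directional derivative preserves `Lor`. -/

set_option autoImplicit false

namespace Pool.Agent.Helper51.PE

open Finset

set_option linter.unusedSectionVars false

section C2

variable {ι : Type} [Fintype ι] [DecidableEq ι] (f : Finset ι → ℝ) (S : Finset ι)

/-- the coefficients of the third derivatives -/
private def cc_C2 (g x z : ι) : ℝ :=
  if g ≠ x ∧ x ≠ z ∧ g ≠ z then f (insert g (insert x (insert z S))) else 0

private theorem cc_pos_C2 {g x z : ι} (h1 : g ≠ x) (h2 : x ≠ z) (h3 : g ≠ z) :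
    cc_C2 f S g x z = f (insert g (insert x (insert z S))) := if_pos ⟨h1, h2, h3⟩

private theorem cc_self1_C2 (x z : ι) : cc_C2 f S x x z = 0 := if_neg fun h => h.1 rfl

private theorem cc_self2_C2 (g x : ι) : cc_C2 f S g x x = 0 := if_neg fun h => h.2.1 rfl

private theorem cc_self3_C2 (g x : ι) : cc_C2 f S g x g = 0 := if_neg fun h => h.2.2 rfl

private theorem cc_swap23_C2 (g x z : ι) : cc_C2 f S g x z = cc_C2 f S g z x := by
  unfold cc_C2
  rw [Finset.insert_comm x z S]
  by_cases h : g ≠ x ∧ x ≠ z ∧ g ≠ z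
  · rw [if_pos h, if_pos ⟨h.2.2, h.2.1.symm, h.1⟩]
  · rw [if_neg h, if_neg fun h' => h ⟨h'.2.2, h'.2.1.symm, h'.1⟩]

private theorem cc_swap12_C2 (g x z : ι) : cc_C2 f S g x z = cc_C2 f S x g z := by
  unfold cc_C2
  rw [Finset.insert_comm g x]
  by_cases h : g ≠ x ∧ x ≠ z ∧ g ≠ z
  · rw [if_pos h, if_pos ⟨h.1.symm, h.2.2, h.2.1⟩]
  · rw [if_neg h, if_neg fun h' => h ⟨h'.1.symm, h'.2.2, h'.2.1⟩]

private theorem termDU_C2 (u : ι → ℝ) (v : ι → ℝ) (x z : ι) :
    (if x = z then 0 else DU u f (insert x (insert z S)) * v x * v z) =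
      ∑ g ∈ Sᶜ, u g * cc_C2 f S g x z * v x * v z := by
  by_cases hxz : x = z
  · subst hxz
    rw [if_pos rfl]
    symm
    refine Finset.sum_eq_zero fun g _ => ?_
    rw [cc_self2_C2]
    ring
  · rw [if_neg hxz]
    unfold DU
    rw [Finset.sum_mul, Finset.sum_mul]
    have hsub : (insert x (insert z S))ᶜ ⊆ Sᶜ := by
      intro g hg
      rw [Finset.mem_compl] at hg ⊢
      exact fun h => hg (Finset.mem_insert_of_mem (Finset.mem_insert_of_mem h))
    rw [← Finset.sum_subset hsub]
    · refine Finset.sum_congr rfl fun g hg => ?_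
      rw [Finset.mem_compl, Finset.mem_insert, Finset.mem_insert, not_or, not_or] at hg
      rw [cc_pos_C2 f S hg.1 hxz hg.2.1]
    · intro g hg hg'
      rw [Finset.mem_compl] at hg
      rw [Finset.mem_compl, not_not, Finset.mem_insert, Finset.mem_insert] at hg'
      rcases hg' with h | h | h
      · subst h
        rw [cc_self1_C2]
        ring
      · subst h
        rw [cc_self3_C2]
        ring
      · exact absurd h hg

private theorem formg_C2 (g : ι) (hg : g ∉ S) (v : ι → ℝ) :
    (∑ x ∈ (insert g S)ᶜ, ∑ z ∈ (insert g S)ᶜ,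
      if x = z then 0 else f (insert x (insert z (insert g S))) * v x * v z) =
      ∑ x ∈ Sᶜ, ∑ z ∈ Sᶜ, cc_C2 f S g x z * v x * v z := by
  have hsub : (insert g S)ᶜ ⊆ Sᶜ := by
    intro x hx
    rw [Finset.mem_compl] at hx ⊢
    exact fun h => hx (Finset.mem_insert_of_mem h)
  rw [← Finset.sum_subset hsub]
  · refine Finset.sum_congr rfl fun x hx => ?_
    rw [← Finset.sum_subset hsub]
    · refine Finset.sum_congr rfl fun z hz => ?_
      rw [Finset.mem_compl, Finset.mem_insert, not_or] at hx hz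
      by_cases hxz : x = z
      · subst hxz
        rw [if_pos rfl, cc_self2_C2]
        ring
      · rw [if_neg hxz, cc_pos_C2 f S (Ne.symm hx.1) hxz (Ne.symm hz.1)]
        congr 3
        rw [Finset.insert_comm z g, Finset.insert_comm x g]
    · intro z hz hz'
      rw [Finset.mem_compl] at hz
      rw [Finset.mem_compl, not_not, Finset.mem_insert] at hz'
      rcases hz' with h | h
      · subst h
        rw [cc_self3_C2]
        ring
      · exact absurd h hz
  · intro x hx hx'
    rw [Finset.mem_compl] at hx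
    rw [Finset.mem_compl, not_not, Finset.mem_insert] at hx'
    rcases hx' with h | h
    · subst h
      refine Finset.sum_eq_zero fun z _ => ?_
      rw [cc_self1_C2]
      ring
    · exact absurd h hx

private theorem sumJ_C2 (F : ι → ℝ) : ∑ x ∈ Sᶜ, F x = ∑ x : {x // x ∉ S}, F x.1 :=
  Finset.sum_subtype Sᶜ (fun _ => Finset.mem_compl) F

/-- extension by zero -/
private def extJ_C2 : ({x // x ∉ S} → ℝ) →ₗ[ℝ] (ι → ℝ) where
  toFun v x := if h : x ∉ S then v ⟨x, h⟩ else 0
  map_add' v w := by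
    funext x
    by_cases h : x ∈ S
    · simp [h]
    · simp [h]
  map_smul' c v := by
    funext x
    by_cases h : x ∈ S
    · simp [h]
    · simp [h]

private theorem extJ_apply_C2 (v : {x // x ∉ S} → ℝ) (x : {x // x ∉ S}) : extJ_C2 S v x.1 = v x :=
  dif_pos x.2

/-- restriction -/
private def resJ_C2 : (ι → ℝ) →ₗ[ℝ] ({x // x ∉ S} → ℝ) where
  toFun v x := v x.1
  map_add' _ _ := rfl
  map_smul' _ _ := rfl

end C2

theorem pf_DU (c1 : StBoch) : StDU := by
  intro ι _ _ d f u hd hcard hu hL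
  obtain ⟨hpos, hhyp⟩ := hL
  constructor
  · intro K hK
    unfold DU
    apply Finset.sum_pos
    · intro g hg
      rw [Finset.mem_compl] at hg
      refine mul_pos (hu g) (hpos _ ?_)
      rw [Finset.card_insert_of_notMem hg, hK]
      omega
    · rw [← Finset.card_pos, Finset.card_compl, hK]
      omega
  · intro S hS
    have hform : ∀ v : ι → ℝ,
        (∑ x ∈ Sᶜ, ∑ z ∈ Sᶜ, if x = z then 0 else DU u f (insert x (insert z S)) * v x * v z) =
        ∑ g : {x // x ∉ S}, ∑ a : {x // x ∉ S}, ∑ b : {x // x ∉ S},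
          u g.1 * cc_C2 f S g.1 a.1 b.1 * v a.1 * v b.1 := by
      intro v
      have e1 : (∑ x ∈ Sᶜ, ∑ z ∈ Sᶜ, if x = z then 0 else DU u f (insert x (insert z S)) * v x * v z) =
          ∑ x ∈ Sᶜ, ∑ z ∈ Sᶜ, ∑ g ∈ Sᶜ, u g * cc_C2 f S g x z * v x * v z :=
        Finset.sum_congr rfl fun x _ => Finset.sum_congr rfl fun z _ => termDU_C2 f S u v x z
      have e2 : (∑ x ∈ Sᶜ, ∑ z ∈ Sᶜ, ∑ g ∈ Sᶜ, u g * cc_C2 f S g x z * v x * v z) =
          ∑ g ∈ Sᶜ, ∑ x ∈ Sᶜ, ∑ z ∈ Sᶜ, u g * cc_C2 f S g x z * v x * v z := by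
        rw [Finset.sum_comm' (s' := fun _ => Sᶜ) (t' := Sᶜ) (by simp)]
        rw [Finset.sum_congr rfl fun x _ => Finset.sum_comm]
        rw [Finset.sum_comm]
        refine Finset.sum_congr rfl fun g _ => Finset.sum_comm
      rw [e1, e2, sumJ_C2]
      refine Finset.sum_congr rfl fun g _ => ?_
      rw [sumJ_C2]
      refine Finset.sum_congr rfl fun a _ => ?_
      rw [sumJ_C2]
    have h1 := c1 {x // x ∉ S} (fun g a b => cc_C2 f S g.1 a.1 b.1) (fun g => u g.1)
      (fun g a b => cc_swap23_C2 f S _ _ _) (fun g a b => cc_swap12_C2 f S _ _ _)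
      (fun g a b hga hab hgb => by
        have k1 : g.1 ≠ a.1 := fun h => hga (Subtype.ext h)
        have k2 : a.1 ≠ b.1 := fun h => hab (Subtype.ext h)
        have k3 : g.1 ≠ b.1 := fun h => hgb (Subtype.ext h)
        show 0 < cc_C2 f S g.1 a.1 b.1
        rw [cc_pos_C2 f S k1 k2 k3]
        apply hpos
        have m3 : b.1 ∉ S := b.2
        have m2 : a.1 ∉ insert b.1 S := by
          rw [Finset.mem_insert, not_or]
          exact ⟨k2, a.2⟩
        have m1 : g.1 ∉ insert a.1 (insert b.1 S) := by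
          rw [Finset.mem_insert, Finset.mem_insert, not_or, not_or]
          exact ⟨k1, k3, g.2⟩
        rw [Finset.card_insert_of_notMem m1, Finset.card_insert_of_notMem m2, Finset.card_insert_of_notMem m3]
        omega)
      (fun g b => cc_self1_C2 f S _ _) (fun g => hu g.1)
      (fun g => by
        obtain ⟨φ, hφ⟩ := hhyp (insert g.1 S) (by rw [Finset.card_insert_of_notMem g.2]; omega)
        refine ⟨φ.comp (extJ_C2 S), fun v hv => ?_⟩
        have h2 := hφ (extJ_C2 S v) hv
        simp only at h2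
        rw [formg_C2 f S g.1 g.2, sumJ_C2] at h2
        refine le_trans (le_of_eq ?_) h2
        refine Finset.sum_congr rfl fun a _ => ?_
        rw [sumJ_C2]
        refine Finset.sum_congr rfl fun b _ => ?_
        rw [extJ_apply_C2, extJ_apply_C2])
    obtain ⟨φ, hφ⟩ := h1
    refine ⟨φ.comp (resJ_C2 S), fun v hv => ?_⟩
    simp only
    rw [hform v]
    exact hφ (resJ_C2 S v) hv

end Pool.Agent.Helper51.PE
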