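import Pool.Agent.Helper51.PE.St

/-!
PROJECT PE2 (MP_6da2a2_co), module E3: the numbers of linear extensions as coefficients
-/

set_option autoImplicit false

namespace Pool.Agent.Helper51.PE

open MvPolynomial
open Pool.Agent.Helper16.PEul (IsExt des leN numExt)
open Pool.Agent.Helper50.PE (exts nd)

private theorem fut_E3 (b : ℕ → ℕ) (n : ℕ) (y : ℝ) : ∀ d : ℕ, d ≤ n →
    fut b n y d = ∏ u ∈ Finset.Ico (n - d) n, ((1 + C y * X (yt b u)) * (1 + X (xt b n u))) := by
  intro d
  induction d with
  | zero =>
    intro _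
    simp [fut]
  | succ d ih =>
    intro hd
    have h1 : n - (d + 1) < n := by omega
    rw [Finset.prod_eq_prod_Ico_succ_bot h1, fut, ih (by omega)]
    have h2 : n - (d + 1) + 1 = n - d := by omega
    rw [h2]

private theorem prod_E3 (b : ℕ → ℕ) (n N : ℕ) (y : ℝ) (hn : 1 ≤ n) (h0 : b 0 < N) :
    prodL y (links b N [0]) * fut b n y (n - 1) =
      ∏ g : Fin n × Bool, (1 + C (tw y g.2) * X (gt b n N g)) := by
  have hG : (∏ g : Fin n × Bool, (1 + C (tw y g.2) * X (gt b n N g)) : Alg) =
      ∏ i ∈ Finset.range n, ((1 + C y * X (if i = 0 then ((b 0, 0) : Tok) else yt b i)) *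
        (1 + C 1 * X (if i = 0 then ((N, 0) : Tok) else xt b n i))) := by
    rw [Fintype.prod_prod_type, Finset.prod_range]
    refine Finset.prod_congr rfl fun i _ => ?_
    rw [Fintype.prod_bool]
    unfold gt tw
    simp
  rw [hG, Finset.range_eq_Ico, Finset.prod_eq_prod_Ico_succ_bot (by omega : 0 < n),
    fut_E3 b n y (n - 1) (by omega)]
  have h1 : n - (n - 1) = 1 := by omega
  rw [h1]
  have h2 : ∏ u ∈ Finset.Ico 1 n, ((1 + C y * X (yt b u)) * (1 + X (xt b n u)) : Alg) =
      ∏ i ∈ Finset.Ico (0 + 1) n, ((1 + C y * X (if i = 0 then ((b 0, 0) : Tok) else yt b i)) *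
        (1 + C 1 * X (if i = 0 then ((N, 0) : Tok) else xt b n i))) := by
    refine Finset.prod_congr rfl fun i hi => ?_
    have : i ≠ 0 := by
      have := (Finset.mem_Ico.1 hi).1
      omega
    rw [if_neg this, if_neg this, C_1, one_mul]
  rw [← h2]
  have h3 : min N (b 0) = b 0 := by omega
  unfold links linksA prodL prodL prodL tw
  rw [h3]
  simp only [if_true, C_1, one_mul, mul_one, Bool.false_eq_true, if_false]
  ring

private theorem V_mul_C_E3 (b : ℕ → ℕ) (ε : ℝ) (n d : ℕ) (r : ℝ) (p : Alg) :
    V b ε n d (C r * p) = r * V b ε n d p := by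
  rw [← smul_eq_C_mul, map_smul, smul_eq_mul]

private theorem V_expand_E3 (b : ℕ → ℕ) (n N : ℕ) (y : ℝ) :
    V b 0 n (n - 1) (∏ g : Fin n × Bool, (1 + C (tw y g.2) * X (gt b n N g))) =
      ∑ K : Finset (Fin n × Bool), y ^ (K.filter (fun g => g.2 = true)).card *
        V b 0 n (n - 1) (∏ g ∈ K, X (gt b n N g)) := by
  rw [Finset.prod_one_add, Finset.powerset_univ, map_sum]
  refine Finset.sum_congr rfl fun K _ => ?_
  rw [Finset.prod_mul_distrib, ← map_prod, V_mul_C_E3]
  congr 1
  rw [Finset.card_filter, ← Finset.prod_pow_eq_pow_sum]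
  refine Finset.prod_congr rfl fun g _ => ?_
  unfold tw
  split_ifs <;> simp

theorem pf_Coef (h4 : StPos) (d6 : StStatic) (e2 : StWords) : StCoef := by
  classical
  intro b n N k hn hb hN
  have h0 : b 0 < N := hN 0 (by omega)
  -- the two polynomials
  have key : (∑ w ∈ exts (leb b) (Finset.range n), (Polynomial.X : Polynomial ℝ) ^ des w) =
      ∑ K ∈ (Finset.univ : Finset (Finset (Fin n × Bool))).filter (fun K => K.card = n - 1),
        Polynomial.C (V b 0 n (n - 1) (∏ g ∈ K, X (gt b n N g))) *
          Polynomial.X ^ (K.filter (fun g => g.2 = true)).card := by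
    refine Polynomial.funext fun y => ?_
    rw [Polynomial.eval_finsetSum, Polynomial.eval_finsetSum]
    have e1 : ∑ w ∈ exts (leb b) (Finset.range n), Polynomial.eval y (Polynomial.X ^ des w) =
        ∑ w ∈ exts (leb b) (Finset.range n), y ^ des w := by
      refine Finset.sum_congr rfl fun w _ => ?_
      simp
    rw [e1, e2 b n N y hn hb hN, d6 b n y hb (n - 1) (by omega) (links b N [0]) (by
      unfold links linksA
      rw [List.pairwise_cons]
      refine ⟨?_, List.pairwise_singleton _ _⟩
      intro a ha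
      rw [List.mem_singleton] at ha
      rw [ha]
      exact min_le_left _ _), prod_E3 b n N y hn h0, V_expand_E3, Finset.sum_filter]
    refine Finset.sum_congr rfl fun K _ => ?_
    split_ifs with hK
    · simp [mul_comm]
    · have h5 : (∏ g ∈ K, X (gt b n N g) : Alg) = mon (K.val.map (gt b n N)) := by
        unfold mon
        rw [Multiset.map_map]
        rfl
      rw [h5, (h4 b 0 n (n - 1) (K.val.map (gt b n N))).2.2 (by
        rw [Multiset.card_map]
        exact hK), mul_zero]
  have h6 := congrArg (fun p => Polynomial.coeff p k) key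
  simp only [Polynomial.finsetSum_coeff, Polynomial.coeff_X_pow, Polynomial.coeff_C_mul] at h6
  unfold nd aa
  rw [Finset.card_filter]
  push_cast
  have h7 : ∑ x ∈ exts (leb b) (Finset.range n), (if des x = k then (1 : ℝ) else 0) =
      ∑ x ∈ exts (leb b) (Finset.range n), (if k = des x then (1 : ℝ) else 0) := by
    refine Finset.sum_congr rfl fun x _ => ?_
    simp only [eq_comm]
  rw [h7, h6]
  rw [← Finset.filter_filter, Finset.sum_filter (s := Finset.univ.filter _)]
  refine Finset.sum_congr rfl fun K _ => ?_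
  split_ifs with h8 h9 h9
  · rw [mul_one]
  · exact absurd h8.symm h9
  · exact absurd h9.symm h8
  · rw [mul_zero]

end Pool.Agent.Helper51.PE
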