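import Pool.Agent.Helper51.PE.Defs

/-!
PROJECT PE2 (MP_6da2a2_co, helper51).  Statements of the modules, with complete proofs.

Every statement is a `Prop`; a module proves `theorem pf_X : StX` (or from the statements named in its
docstring as hypotheses, e.g. `theorem pf_Psi (h : StLow) : StPsi`).
Notation: `e = n - (d+1)` is the element processed by the step from `V b ε n (d+1)` to
`V b ε n d`; the next world is `e + 1 = n - d`.
-/

set_option autoImplicit false

namespace Pool.Agent.Helper51.PE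

open MvPolynomial
open Pool.Agent.Helper16.PEul (IsExt des leN numExt)
open Pool.Agent.Helper50.PE (exts nd)

/-! ## Part A: the operator -/

/-- A1 (60 lines).  On monomials `phi` is `phiL` of the sorted list:
`phi b ε e (pr l) = phiL b ε e l` for a list sorted by `tle`; and for a token `c` which is `tle` all tokens
(variables) of `g`:  `phi (X c * g) = wt c * g + X (cut c) * phi g`.
PROOF.  `pr l` is the monomial with multiset `(l : Multiset Tok)`; `Basis.constr_basis`; the sort of the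
multiset of a sorted list is the list (`Multiset.coe_sort`, `List.mergeSort_of_pairwise` or uniqueness of sorted
permutations, as in the definition of `Multiset.sort`).  Second part: both sides are linear in
`g`, and `g` is a sum of monomials in its variables (`MvPolynomial.as_sum`, `mem_support` implies all
tokens in `vars`), so let `g = pr l`, `l` sorted; then `c :: l` is sorted and `phiL` has the stated value by
definition. -/
def StLow : Prop := ∀ (b : ℕ → ℕ) (ε : ℝ) (e : ℕ),
  (∀ l : List Tok, l.Pairwise (tle b e) → phi b ε e (pr l) = phiL b ε e l) ∧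
  (∀ (c : Tok) (g : Alg), (∀ a ∈ g.vars, tle b e c a) →
    phi b ε e (X c * g) = C (wt b ε e c) * g + X (cut b e c) * phi b ε e g)

/-- A2 (80 lines; uses A1).  A token which `e` may not use can be taken out of `phi` whatever the other
factor is: `phi (X c * g) = C ε * g + X c * phi g`, all `g`.
PROOF.  By linearity `g = pr l`, `l` sorted.  Insert `c` into `l` at its place: `l = l1 ++ l2`,
`l1` tokens below `c` in `tle` (so `key = 0`, `e` may not use them, `cut a = a`), `l2` above.  Induction on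
`l1` with `phiL (a :: l') = C (wt a) * pr l' + X (cut a) * phiL l'`, `wt a = ε`, `cut a = a`; base case
`l1 = []`: definition of `phiL (c :: l2)`, `cut c = c`.  (It is convenient to prove: for all lists `l1` of
tokens with `¬ has`: `phiL (l1 ++ c :: l2) = C ε * pr (l1 ++ l2) + X c * phiL (l1 ++ l2)`.) -/
def StBot : Prop := ∀ (b : ℕ → ℕ) (ε : ℝ) (e : ℕ) (c : Tok) (g : Alg), ¬ has b e c →
  phi b ε e (X c * g) = C ε * g + X c * phi b ε e g

/-- A3 (60 lines; uses A1).  Leibniz rule: if the concatenation `l1 ++ l2` is sorted then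
`phi (pr l1 * pr l2) = phi (pr l1) * pr l2 + pr (l1.map cut) * phi (pr l2)`.
PROOF.  `phi (pr l) = phiL l` for sorted `l`; induction on `l1` with the definition of `phiL`. -/
def StLeib : Prop := ∀ (b : ℕ → ℕ) (ε : ℝ) (e : ℕ) (l1 l2 : List Tok),
  (l1 ++ l2).Pairwise (tle b e) →
  phi b ε e (pr l1 * pr l2) = phi b ε e (pr l1) * pr l2 + pr (l1.map (cut b e)) * phi b ε e (pr l2)

/-- A3b (60 lines; uses A1, A3).  Upper Leibniz rule: if all variables of `g` are `tle` the token `c` then
`phi (X c * g) = X c * phi g + wt c * (g with all tokens cut)`.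
PROOF.  Linearity, `g = pr l`, `l` sorted, `l ++ [c]` sorted, A3 with `l2 = [c]`, `phi (X c) = wt c`,
`rename (cut b e) (pr l) = pr (l.map (cut b e))`. -/
def StUp : Prop := ∀ (b : ℕ → ℕ) (ε : ℝ) (e : ℕ) (c : Tok) (g : Alg), (∀ a ∈ g.vars, tle b e a c) →
  phi b ε e (X c * g) = X c * phi b ε e g + C (wt b ε e c) * rename (cut b e) g

/-- A4 (90 lines; uses A1).  Signs and degrees.  For `0 ≤ ε`, `V` is nonnegative on monomials, positive on
monomials of degree `d` if `0 < ε`, and zero on monomials of any other degree (any `ε`).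
PROOF.  Induction on `d`.  `V 0 (mon S)` is the constant coefficient of a monomial.  For `d + 1`: `mon S = pr l`,
`l` the sorted list; `phiL l` is a sum over the positions of `l` of `wt ≥ 0` (`> 0` if `ε > 0`) times
monomials of degree `card S - 1` (induction on `l`; the sum is empty iff `l = []`). -/
def StPos : Prop := ∀ (b : ℕ → ℕ) (ε : ℝ) (n d : ℕ) (S : Multiset Tok),
  (0 ≤ ε → 0 ≤ V b ε n d (mon S)) ∧
  (0 < ε → Multiset.card S = d → 0 < V b ε n d (mon S)) ∧
  (Multiset.card S ≠ d → V b ε n d (mon S) = 0)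

/-- A5 (250 lines; uses A1-A4).  MONOTONICITY.  Let `0 ≤ ε ≤ 1`, `d ≤ n`, let `a`, `c` be active in
the world `n - d` (`a.2, c.2 ≤ n - d`) and let every remaining element which may use `a` be allowed to use `c`.
Then `V (mon m * X a) ≤ V (mon m * X c)` for all `m`.
PROOF.  Induction on `d`; `d = 0`: both sides are 0.  Step `d + 1`, `e = n - (d+1)`, write
`V' = V b ε n d`, `Φ = phi b ε e`, `A = (b e, 0)`.
(i) `e` may use neither: A2 gives the difference `V' ((X c - X a) * Φ (mon m))`, `Φ (mon m)` is a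
nonnegative combination of monomials, use the induction hypothesis.
(ii) `e` may use `c` only.  Let `c_1 ≤ ... ≤ c_p` be the sorted tokens of `m` which `e` may use, `r` the product
of the others.  Put `Q_k = prod_{i<k} X(cut c_i) * prod_{i>k} X(c_i)` (without `c_k`), so that (ε part aside)
`Φ (mon m) = r * sum_k Q_k + E`, `E = ε * (derivative of r) * prod X(c_i)`.
For a token `a` which `e` may use, inserted after `c_1..c_j`:
  `Φ (mon m * X a) = r * (sum_{k ≤ j} Q_k X a + sum_{k > j} Q_k A + G_j) + E * X a`,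
  `G_j = prod_{i ≤ j} X(cut c_i) prod_{i > j} X(c_i)`, `G_j = G_0 + sum_{k ≤ j} (A - X c_k) Q_k`, so
  `V (mon m * X a) = V' (r G_0) + V' (E X a) + V' (A r sum_k Q_k) + sum_{k ≤ j} V' ((X a - X c_k) r Q_k)`
  `             = V' (r G_0) + V' (E X a) + V' (A r sum_k Q_k) + sum_{all k} max (0, V' ((X a - X c_k) r Q_k))`
because by the induction hypothesis the terms with `c_k ≤ a` are `≥ 0` and those with `c_k ≥ a` are `≤ 0`.
(iii) Both usable: every summand of the last formula is monotone in `a` by the induction hypothesis.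
(ii) `a` not usable: `V (mon m * X a) = V' (ε mon m + X a * Φ (mon m))`, `mon m = r G_0`, and `a.1 ≤ b e` so
`V' (X a ..) ≤ V' (A ..)` on `r Q_k`, and `V'(E X a) ≤ V' (E X c)`; the maxima are `≥ 0` and `ε ≤ 1`.
(An equivalent way: move `a` to `c` through the tokens `c_k` between them; next to each other the difference is
`phi(g1) (X c - X a) g2` by A3.) -/
def StMono : Prop := ∀ (b : ℕ → ℕ) (ε : ℝ) (n d : ℕ), 0 ≤ ε → ε ≤ 1 → d ≤ n →
  ∀ (m : Multiset Tok) (a c : Tok), a.2 ≤ n - d → c.2 ≤ n - d →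
  (∀ v, n - d ≤ v → v < n → b v < a.1 → b v < c.1) →
  V b ε n d (mon m * X a) ≤ V b ε n d (mon m * X c)

/-- A6 (60 lines; uses A5).  If `tle b e c0 c`, `e = n - (d+1)`, then `V b ε n d (mon m * DD c0) ≤ V (mon m * DD c)`.
PROOF.  A token which `e` may not use has `DD = 0`.  If `e` may use `c0` then it may use `c` (key), both cuts are
`(b e, 0)`, both widths 1, and `DD c - DD c0 = X c - X c0` with `c0.1 ≤ c.1`: A5.  If only `c` is usable:
`DD c = X c - X (b e, 0)`, `b v < b e` implies `b v < c.1`: A5. -/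
def StDMono : Prop := ∀ (b : ℕ → ℕ) (ε : ℝ) (n d : ℕ), 0 < ε → ε ≤ 1 → d + 1 ≤ n →
  ∀ (m : Multiset Tok) (c0 c : Tok), tle b (n - (d + 1)) c0 c →
  V b ε n d (mon m * DD b ε (n - (d + 1)) c0) ≤ V b ε n d (mon m * DD b ε (n - (d + 1)) c)

/-! ## Part B: Alexandrov-Fenchel -/

/-- B1 (60 lines; uses A1).  The recursions of `Psi` for a sorted list of items, `F = fixP l`,
`v = varP l`:  `Psi ((c, none) :: l) y = wt c * F * (y + v)^2 + X(cut c) * Psi l y`,
`Psi ((c, some r) :: l) y = r * wt c * F * (2 (y + v) + r (X c + X (cut c))) + Psi l (y + r X(cut c))`.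
PROOF.  Second part of A1 for `g = F v^2, F v, F` and `X c * F` (their variables are tokens of `l`, or `c`),
linearity of `phi` (`phi (C r * p) = C r * phi p`) and `ring`. -/
def StPsi : Prop := ∀ (b : ℕ → ℕ) (ε : ℝ) (e : ℕ) (c : Tok) (l : List Item) (y : Alg),
  (∀ p ∈ l, tle b e c p.1) →
  (Psi b ε e ((c, none) :: l) y =
    C (wt b ε e c) * fixP l * (y + varP l) ^ 2 + X (cut b e c) * Psi b ε e l y) ∧
  (∀ r : ℝ, Psi b ε e ((c, some r) :: l) y =
    C (r * wt b ε e c) * fixP l * (2 * (y + varP l) + C r * (X c + X (cut b e c)))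
      + Psi b ε e l (y + C r * X (cut b e c)))

/-- B2 (30 lines, independent).  Reversed Cauchy-Schwarz.  `q` is the diagonal of a symmetric bilinear form `B`
which is `≤ 0` on the kernel of a linear functional; if `B p p > 0` then `B x x * B p p ≤ (B x p)^2`.
PROOF.  `φ p ≠ 0` (else `B p p ≤ 0`).  `z = x - t p`, `t = φ x / φ p`, has `φ z = 0`, so
`B x x - 2 t B x p + t^2 B p p ≤ 0`; multiply by `B p p`: `B x x B p p ≤ 2 t B x p B p p - (t B p p)^2 ≤ (B x p)^2`. -/
def StRCS : Prop := ∀ (W : Type) [AddCommGroup W] [Module ℝ W] (B : W →ₗ[ℝ] W →ₗ[ℝ] ℝ),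
  (∀ x z, B x z = B z x) → Hyp (fun v => B v v) → ∀ x p, 0 < B p p → B x x * B p p ≤ (B x p) ^ 2

/-- B3 (25 lines, independent).  The real inequality of the fixed step.  Here `κ = B(c,c) > 0`,
`η = B(c, cut c) ≥ 0`, `α = B(Y, c)`, `β = B(Y, cut c)`, `q = B(Y,Y)`, `θ = B(cut c, cut c)`, `ρ > 0` the
width, `σ` the old parameter.  If `(q + 2 (σ/ρ) β + (σ/ρ)^2 θ) κ ≤ (α + (σ/ρ) η)^2` then, with
`τ = (α + (σ/ρ) η)/κ`, `ρ q + 2 σ β - σ^2 (η - θ)/ρ ≤ 2 (ρ τ) α - (ρ τ)^2 (κ - η)/ρ`.
PROOF.  `t = σ/ρ`.  Divide by `ρ`: `q + 2 t β - t^2 (η - θ) ≤ (α + t η)^2/κ - t^2 η = κ τ^2 - t^2 η`, and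
`2 τ α - τ^2 (κ - η) = 2 τ (κ τ - t η) - τ^2 κ + τ^2 η = κ τ^2 - 2 t τ η + τ^2 η`; the difference is
`η (τ - t)^2 ≥ 0`. -/
def StReal : Prop := ∀ q α β θ η κ ρ σ : ℝ, 0 < κ → 0 ≤ η → 0 < ρ →
  (q + 2 * (σ / ρ) * β + (σ / ρ) ^ 2 * θ) * κ ≤ (α + (σ / ρ) * η) ^ 2 →
  ∃ σ' : ℝ, ρ * q + 2 * σ * β - σ ^ 2 * ((η - θ) / ρ) ≤ 2 * σ' * α - σ' ^ 2 * ((κ - η) / ρ)

/-- B4 (200 lines; uses A4, A6, B1, B2, B3).  PATH LEMMA.  `e = n - (d+1)`; assume that the forms of degree `d`
are hyperbolic.  For every sorted list `l` of items, every multiset `s` with `card s + nfix l + 1 = d`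
and every linear form `y = lin v` there is `σ` such that for all `c0` below `l` in the order `tle`
`V (s * Psi l y) ≤ 2 σ V (s F (y + varP l)) - σ^2 V (s F DD(c0))`, `F = fixP l`, `V = V b ε n d`.
PROOF.  Induction on `l`, for all `s`, `v`.  `l = []`: `Psi = 0` because `phi 1 = 0`; `σ = 0`.
Let `c` be the token of the first item, `l'` the rest, `F = fixP l'`, `Y = y + varP l'`.
VARIABLE `(c, some r)`: the induction hypothesis for `l'`, `s`, `y' = y + r X(cut c)` (again `lin` of something) and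
`c0 := c` gives `σ` with `V(s Psi l' y') ≤ 2 σ λ(Y + r cut c) - σ^2 λ(DD c)`, `λ(x) = V (s F x)`.  Put
`ρ = wt c`, `ℓ' = λ(Y + r cut c)`, `ℓ = λ(Y + r X c) = ℓ' + r ρ λ(DD c)`.  By B1
`V (s Psi l y) = r ρ (ℓ + ℓ') + V (s Psi l' y')`, and with `σ' = σ + r ρ` one has the identity
`r ρ (ℓ + ℓ') + 2 σ ℓ' - σ^2 λ(DD c) = 2 σ' ℓ - σ'^2 λ(DD c)`.  Finally `λ(DD c0) ≤ λ(DD c)` by A6
(`s F` is a monomial).
FIXED `(c, none)`: `B(p,q) = V (s F p q)` is a symmetric form, hyperbolic on linear forms by assumption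
(`card s + nfix l' + 2 = d`, `s F` is a monomial), `B(X c, X c) > 0`, `η = B(X c, X(cut c)) ≥ 0` by A4.  The
induction hypothesis for `l'`, `s' = s + {cut c}`, the same `y`, and `c0 := c`:
`V (s X(cut c) Psi l' y) ≤ 2 σ B(X(cut c), Y) - σ^2 B(X(cut c), DD c)`, where
`B(X(cut c), DD c) = (η - θ)/ρ`, `θ = B(cut c, cut c)`.  B1: `V (s Psi l y) = ρ B(Y,Y) + V (s X(cut c) Psi l' y)`.
B2 with `x = Y + (σ/ρ) X(cut c)`, `p = X c` gives the hypothesis of B3, hence `σ'` with
`V (s Psi l y) ≤ 2 σ' B(X c, Y) - σ'^2 (κ - η)/ρ` and `(κ - η)/ρ = B(X c, DD c) ≥ B(X c, DD c0)` by A6. -/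
def StPath : Prop := ∀ (b : ℕ → ℕ) (ε : ℝ) (n d : ℕ), 0 < ε → ε ≤ 1 → d + 1 ≤ n →
  (∀ S : Multiset Tok, Multiset.card S + 2 = d →
    Hyp (fun v : Tok →₀ ℝ => V b ε n d (mon S * lin v ^ 2))) →
  ∀ (l : List Item), l.Pairwise (fun p q => tle b (n - (d + 1)) p.1 q.1) →
  ∀ (s : Multiset Tok), Multiset.card s + nfix l + 1 = d → ∀ v : Tok →₀ ℝ,
  ∃ σ : ℝ, ∀ c0 : Tok, (∀ p ∈ l, tle b (n - (d + 1)) c0 p.1) →
    V b ε n d (mon s * Psi b ε (n - (d + 1)) l (lin v)) ≤
      2 * σ * V b ε n d (mon s * fixP l * (lin v + varP l))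
        - σ ^ 2 * V b ε n d (mon s * fixP l * DD b ε (n - (d + 1)) c0)

/-- B5 (120 lines; uses B4).  ALEXANDROV-FENCHEL.
PROOF.  Induction on `d`.  `d = 0`: impossible.  `d + 1`, `card S + 2 = d + 1`: `φ v = V b ε n d (mon S * lin v)`
is linear.  Let `φ v = 0`.  Let `l` be the list of the items `(c, none)`, `c ∈ S`, and `(c, some (v c))`,
`c ∈ supp v`, sorted by `tle` of the tokens (`List.mergeSort` or `insertionSort`; `fixP`, `varP`, `nfix` are
invariant under permutations), so `fixP l = mon S`, `varP l = lin v`, `nfix l = card S`.  B4 with `s = 0` and the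
zero linear form: `V (d+1) (mon S * lin v ^ 2) = V d (Psi l 0) ≤ 2 σ V d (mon S * lin v) - σ^2 V d (.. * DD c0)`;
choose `c0 = (0, M)`, `M` larger than all second coordinates in `l`: `c0` is below `l`, `DD c0 = 0`. -/
def StAF : Prop := ∀ (b : ℕ → ℕ) (ε : ℝ) (n d : ℕ), 0 < ε → ε ≤ 1 → d ≤ n →
  ∀ S : Multiset Tok, Multiset.card S + 2 = d →
    Hyp (fun v : Tok →₀ ℝ => V b ε n d (mon S * lin v ^ 2))

/-! ## Part C: lifting -/

/-- C1 (150 lines, independent).  BOCHNER / LOCAL-GLOBAL LEMMA.  `c` symmetric, `c g a b > 0` if `g, a, b` are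
distinct and `= 0` otherwise; `u > 0`.  If all forms `sum_{a,b} c g a b v_a v_b` are hyperbolic then so
is `sum_g u_g c g a b v_a v_b`.
PROOF.  If `card ι < 3` the form is 0.  Let `H a b = sum_g u_g c g a b` (symmetric, `> 0` off the diagonal, 0 on
the diagonal), `w_a = (H u)_a = sum_b H a b u_b > 0`.  For each `g` the form `H_g = c g` satisfies
`(H_g u)_a = H g a` and `<u, H_g u> = w_g > 0`, so by the reversed Cauchy-Schwarz inequality (B2 argument)
`<v, H_g v> w_g ≤ ((H v)_g)^2`.  Multiply by `u_g / w_g` and sum: (1) `<v, H v> ≤ sum_g (u_g / w_g) ((H v)_g)^2`.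
Put `D_g = w_g / u_g > 0`, `M = D^{-1/2} H D^{-1/2}` (symmetric), `x0 = D^{1/2} u`: `M x0 = x0`.  With
`v = D^{-1/2} x`: (1) says `<x, M x> ≤ |M x|^2`.  Moreover
`<x, x> - <x, M x> = sum_g D_g v_g^2 - <v, H v> = 1/2 sum_{a,b} H a b u_a u_b (v_a/u_a - v_b/u_b)^2 ≥ 0` with equality iff
`v` is a multiple of `u`.  Let `x_i` be an orthonormal eigenbasis of `M` (`Matrix.IsHermitian`), eigenvalues
`λ_i`.  `λ_i ≤ λ_i^2` so `λ_i ≤ 0` or `λ_i ≥ 1`; in the second case `<x_i, x_i> - <x_i, M x_i> ≤ 0`, hence `x_i` is a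
multiple of `x0`.  So for `x ⟂ x0`: `<x, M x> = sum λ_i <x, x_i>^2 ≤ 0`.  In terms of `v`: `φ v = sum_g w_g v_g`. -/
def StBoch : Prop := ∀ (ι : Type) [Fintype ι] [DecidableEq ι] (c : ι → ι → ι → ℝ) (u : ι → ℝ),
  (∀ g a b, c g a b = c g b a) → (∀ g a b, c g a b = c a g b) →
  (∀ g a b, g ≠ a → a ≠ b → g ≠ b → 0 < c g a b) → (∀ g b, c g g b = 0) → (∀ g, 0 < u g) →
  (∀ g, Hyp (fun v : ι → ℝ => ∑ a, ∑ b, c g a b * v a * v b)) →
  Hyp (fun v : ι → ℝ => ∑ g, ∑ a, ∑ b, u g * c g a b * v a * v b)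

/-- C2 (120 lines; uses C1).  The directional derivative in a positive direction preserves `Lor`, `3 ≤ d ≤ card ι`
(degree `d` to degree `d - 1`).
PROOF.  Positivity: `DU u f K` for `card K = d - 1 < card ι` is a nonempty sum of positive numbers.
Hyperbolicity: let `card S + 2 = d - 1`.  On the index type `J = {x // x ∉ S}` put
`c g a b = f (insert g (insert a (insert b S)))` if `g, a, b` are distinct, 0 otherwise.  For fixed `g` the form
is the form of `f` for `insert g S` (`card + 2 = d`; restrict vectors to the complement), hence hyperbolic.  C1 gives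
that `sum_g u_g c g a b v_a v_b` is hyperbolic on `J → ℝ`, and this is the form of `DU u f` for `S`. -/
def StDU : Prop := ∀ (ι : Type) [Fintype ι] [DecidableEq ι] (d : ℕ) (f : Finset ι → ℝ) (u : ι → ℝ),
  3 ≤ d → d ≤ Fintype.card ι → (∀ g, 0 < u g) → Lor d f → Lor (d - 1) (DU u f)

/-- C3 (120 lines; uses C2, B2).  For positive `u, w` and `Lor d f`, `2 ≤ d ≤ card ι`, `i + j + 2 = d`: with
`T p q = (DU u)^[p] ((DU w)^[q] f) ∅`  one has  `T (i+2) j * T i (j+2) ≤ (T (i+1) (j+1))^2`.
PROOF.  `DU u (DU w f) = DU w (DU u f)` (both are `sum_{g ≠ h, both not in K} u_g w_h f(K+g+h)`).  By C2 (iterated, `i`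
times `u` and `j` times `w`) `q = (DU u)^[i] ((DU w)^[j] f)` is `Lor 2`, i.e. the form
`Q(x, z) = sum_{a ≠ b} q {a, b} x_a z_b` is hyperbolic, and `DU x (DU z q) ∅ = Q(x, z)`; `Q(u,u) > 0`; B2. -/
def StT : Prop := ∀ (ι : Type) [Fintype ι] [DecidableEq ι] (d : ℕ) (f : Finset ι → ℝ) (u w : ι → ℝ)
  (i j : ℕ), d ≤ Fintype.card ι → i + j + 2 = d → (∀ g, 0 < u g) → (∀ g, 0 < w g) → Lor d f →
  ((DU u)^[i + 2] ((DU w)^[j] f) ∅) * ((DU u)^[i] ((DU w)^[j + 2] f) ∅) ≤
    ((DU u)^[i + 1] ((DU w)^[j + 1] f) ∅) ^ 2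

/-- C4 (100 lines, independent).  If `u` is the indicator function of `A` and `w` that of the complement
then `(DU u)^[p] ((DU w)^[q] f) ∅ = p! q! sum over K, card K = p + q, card (K ∩ A) = p, of f K`.
PROOF.  Induction: `(DU u)^[p] f K = p! * sum over L ⊆ A \ K, card L = p, of f (K ∪ L)` (each `L` with `p + 1`
elements is obtained from `p + 1` pairs), and similarly for `w`. -/
def StCount : Prop := ∀ (ι : Type) [Fintype ι] [DecidableEq ι] (f : Finset ι → ℝ) (A : Finset ι)
  (p q : ℕ), (DU (fun g => if g ∈ A then 1 else 0))^[p]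
    ((DU (fun g => if g ∈ A then 0 else 1))^[q] f) ∅ =
  (p.factorial : ℝ) * (q.factorial : ℝ) *
    ∑ K ∈ (Finset.univ : Finset (Finset ι)).filter (fun K => K.card = p + q ∧ (K ∩ A).card = p), f K

/-- C5 (80 lines; uses C3, C4).  ULTRA-LOG-CONCAVITY of `A_k = sum over K, card K = d, card (K ∩ A) = k, of f K`:
`(k+1) (d-k+1) A_(k-1) A_(k+1) ≤ k (d-k) A_k^2`, `1 ≤ k`, `k + 1 ≤ d`, `d ≤ card ι`.
PROOF.  C3 with `i = k - 1`, `j = d - k - 1` for `u = 1_A + δ 1_{A^c}`, `w = 1_{A^c} + δ 1_A`, `δ > 0`; both sides are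
continuous (polynomial) in `δ`; let `δ → 0` (`ge_of_tendsto`/`le_of_tendsto_of_tendsto'`), C4, divide by factorials. -/
def StULC : Prop := ∀ (ι : Type) [Fintype ι] [DecidableEq ι] (d k : ℕ) (f : Finset ι → ℝ)
  (A : Finset ι), d ≤ Fintype.card ι → 1 ≤ k → k + 1 ≤ d → Lor d f →
  ((k : ℝ) + 1) * ((d : ℝ) - k + 1) *
      ((∑ K ∈ (Finset.univ : Finset (Finset ι)).filter (fun K => K.card = d ∧ (K ∩ A).card = k - 1), f K) *
       (∑ K ∈ (Finset.univ : Finset (Finset ι)).filter (fun K => K.card = d ∧ (K ∩ A).card = k + 1), f K)) ≤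
    (k : ℝ) * ((d : ℝ) - k) *
      (∑ K ∈ (Finset.univ : Finset (Finset ι)).filter (fun K => K.card = d ∧ (K ∩ A).card = k), f K) ^ 2

/-- C6 (80 lines; uses A4, B5).  `f K = V b ε n d (prod_{g in K} X (t g))` is `Lor d` for every family `t` of
tokens, `0 < ε ≤ 1`, `d ≤ n`.
PROOF.  Positivity: A4.  Let `card S + 2 = d`.  For `v : ι → ℝ` let `v' = sum_{x not in S} v_x single (t x)`; by B5
`V (mon .. * lin v' ^ 2) = sum_{x, z not in S} v_x v_z V (S x z)` is `≤ 0` on the kernel of a functional; the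
diagonal terms `v_x^2 V (S x x)` are `≥ 0` (A4), omit them. -/
def StLorV : Prop := ∀ (ι : Type) [Fintype ι] [DecidableEq ι] (b : ℕ → ℕ) (ε : ℝ) (n d : ℕ)
  (t : ι → Tok), 0 < ε → ε ≤ 1 → d ≤ n →
  Lor d (fun K : Finset ι => V b ε n d (∏ g ∈ K, X (t g)))

/-- C7 (60 lines; uses A1).  `ε ↦ V b ε n d p` is continuous, for every polynomial `p`.
PROOF.  Induction on `d`, by linearity for monomials `p = pr l`, `l` sorted: `phiL b ε e l` is a finite sum
(induction on `l`) of monomials with coefficients `wt b ε e c ∈ {1, ε}`.  (Prove: for all `q`,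
`ε ↦ V b ε n d (q * phiL b ε e l)` is continuous, by induction on `l`.) -/
def StCont : Prop := ∀ (b : ℕ → ℕ) (n d : ℕ) (p : Alg), Continuous (fun ε : ℝ => V b ε n d p)

/-! ## Part D: the static identity (`ε = 0`) -/

/-- D1 (60 lines; uses A1).  VANISHING.  If `n - d ≤ z < n` and all variables of `f` have threshold at most `b z`
then `V b 0 n d f = 0`.
PROOF.  Induction on `d`.  By linearity `f = pr l`, `l` sorted in the world `e = n - (d+1)`.  If `e = z` no
token of `l` may be used by `e`, all widths are `ε = 0`, `phiL = 0`.  If `e < z`, the variables of `phiL l` are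
tokens of `l` or `(b e, 0)` with `b e < c.1 ≤ b z`: induction hypothesis. -/
def StVan : Prop := ∀ (b : ℕ → ℕ) (n d z : ℕ) (f : Alg), d ≤ n → n - d ≤ z → z < n →
  (∀ c ∈ f.vars, c.1 ≤ b z) → V b 0 n d f = 0

/-- D2 (80 lines; uses A2, A3b).  `ε = 0`, `L` with decreasing thresholds.
(1) `phi (g * h) = g * phi h` if `e` may not use the variables of `g` (A2 and linearity);
(2) `phi (prodL L) = SS L`;
(3) `phi (prodL L * (1 + X (b e + 1, e))) = prodL L + (1 + X (b e, 0)) * SS L`.
PROOF of (2), (3).  Induction on `L`.  `phi 1 = 0`, `phi (X c) = wt c`.  For `(β,t) :: L` with `β ≤ b e`: the token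
`(β,0)` is not usable, (1).  With `b e < β`: `(β,0)` is above all variables of `prodL L` and above
`(b e + 1, e)` in `tle` (for `β = b e + 1` because `0 ≤ e`), A3b with
`rename (cut) (prodL L) = prodL (L.map cutL)`, `cut (b e + 1, e) = (b e, 0)`; then `ring`. -/
def StSS : Prop := ∀ (b : ℕ → ℕ) (e : ℕ) (y : ℝ),
  (∀ g h : Alg, (∀ c ∈ g.vars, ¬ has b e c) → phi b 0 e (g * h) = g * phi b 0 e h) ∧
  (∀ L : List (ℕ × Bool), L.Pairwise (fun p q => q.1 ≤ p.1) →
    phi b 0 e (prodL y L) = SS b e y L ∧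
    phi b 0 e (prodL y L * (1 + X (b e + 1, e))) = prodL y L + (1 + X (b e, 0)) * SS b e y L)

/-- D3 (50 lines, independent).  TELESCOPING:  `SX L + prodL (L.map cutL) = (1 + X (b e, 0)) * SS L + prodL L`.
PROOF.  Induction on `L`.  `(β,t) :: L`, `w = w_t`, `P = prodL L`, `P' = prodL (L.map cutL)`.  If `b e < β`:
`SX = w (1 + Xβ) P' + (1 + w Xβ) SX L`, `SS = w P' + (1 + w Xβ) SS L`, `cutL (β,t) = (b e, t)`; multiply the
induction hypothesis by `1 + w Xβ` and use `ring`.  If `β ≤ b e`: everything is multiplied by `1 + w Xβ`. -/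
def StTel : Prop := ∀ (b : ℕ → ℕ) (e : ℕ) (y : ℝ) (L : List (ℕ × Bool)),
  SX b e y L + prodL y (L.map (cutL b e)) = (1 + X (b e, 0)) * SS b e y L + prodL y L

/-- D4 (50 lines; uses A5).  Equivalent tokens: if `a, c` are active in the world `n - d` and the same remaining
elements may use them, then `V b 0 n d (f * X a) = V b 0 n d (f * X c)` for every polynomial `f`.
PROOF.  A5 with `ε = 0` in both directions for monomials `f = mon m`, linearity. -/
def StEqv : Prop := ∀ (b : ℕ → ℕ) (n d : ℕ) (a c : Tok) (f : Alg), d ≤ n → a.2 ≤ n - d → c.2 ≤ n - d →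
  (∀ v, n - d ≤ v → v < n → (b v < a.1 ↔ b v < c.1)) →
  V b 0 n d (f * X a) = V b 0 n d (f * X c)

/-- D5 (60 lines, independent).  The recursion of `FF` in terms of `SX`: if `K : Alg →ₗ ℝ` and
`F : List _ → ℝ` satisfy `F L' = K (prodL L' * r)` for all lists `L'` with decreasing thresholds, then
`sum over p in spl b e L of tw p.1 * F p.2 = K (SX L * (1 + C y * X (b e, 0)) * r)`, `L` with decreasing thresholds.
PROOF.  First: `sum of tw p.1 * K (q * prodL p.2 * r) = K (q * SX L * (1 + C y X(b e,0)) * r)` for all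
`q`, by induction on `L` from the recursive definitions of `spl` and `SX` (`tw y false = 1`, `tw y true = y`).  Every
`p.2` with `p` in `spl b e L` has decreasing thresholds (induction: the head threshold is `≤` the head threshold
of `L`; `min β (b e) ≤ b e < β`). -/
def StSplSX : Prop := ∀ (b : ℕ → ℕ) (e : ℕ) (y : ℝ) (K : Alg →ₗ[ℝ] ℝ) (F : List (ℕ × Bool) → ℝ) (r : Alg),
  (∀ L' : List (ℕ × Bool), L'.Pairwise (fun p q => q.1 ≤ p.1) → F L' = K (prodL y L' * r)) →
  ∀ L : List (ℕ × Bool), L.Pairwise (fun p q => q.1 ≤ p.1) →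
  ((spl b e L).map (fun p => tw y p.1 * F p.2)).sum = K (SX b e y L * (1 + C y * X (b e, 0)) * r)

/-- D6 (150 lines; uses D1-D5).  STATIC IDENTITY:  `FF L = V b 0 n d (prodL L * fut)`.
PROOF.  Induction on `d`; `d = 0`: `V 0 = constant coefficient`, `coeff 0 (prodL L) = 1`.  Step, `e = n-(d+1)`,
`V' = V b 0 n d`, `R = fut b n y d` (its variables have second coordinate `≥ e + 1`, so `e` may not use them).
By D5 (with the induction hypothesis, `r = R`) the left side is `V' (SX L * (1 + y X(b e,0)) * R)`.  Right side: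
`V (d+1) (prodL L * ((1 + y X(b e,e)) (1 + X(xt e)) R))`, and `(b e, e)` is not usable.
(a) There is `v`, `e < v < n`, `b e < b v`: `xt e = (b e + 1, e)`; D2: right side
`= V' ((1 + y X(b e,e)) R (prodL L + (1 + X(b e,0)) SS L)) = V' ((1 + y X(b e,e)) R (SX L + prodL (L.map cutL)))` by D3.
The second part is 0 by D1 with `z` = an element of `(e, n)` with maximal `b z` (`b e < b z`): thresholds are
`≤ b e`, or `b u ≤ b z`, or `b u + 1` for a `u` with `b u < b v ≤ b z`.  Replace `X(b e,e)` by `X(b e,0)` (D4).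
(b) No such `v`: `b v < b e` for all `e < v < n` (injectivity), `xt e = (b e, e)`, not usable; D2: right side
`= V' ((1 + y X(b e,e)) (1 + X(b e,e)) R SS L)`; and `SX L`, `(1 + X(b e, 0)) SS L` have the same value because
in `SX` every factor `1 + X(β,0)`, `β > b e`, may be replaced by `1 + X(b e,0)` (D4; induction on `L` with an
arbitrary multiplier). -/
def StStatic : Prop := ∀ (b : ℕ → ℕ) (n : ℕ) (y : ℝ), Set.InjOn b (Set.Iio n) →
  ∀ (d : ℕ), d ≤ n → ∀ L : List (ℕ × Bool), L.Pairwise (fun p q => q.1 ≤ p.1) →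
  FF b n y d L = V b 0 n d (prodL y L * fut b n y d)

/-! ## Part E: combinatorics -/

open Classical in
/-- E1 (180 lines, independent).  INSERTION.  The insertions of the largest letter `t` into a word (list, head = last
letter) which give linear extensions of `leb b` correspond to `spl b t (links w)`; a link of type `true`
creates one more descent; the second components are the links of the new words.
`List.permutations'Aux t w` is the list of all insertions: `[[t]]` for `[]`, and
`(t :: x :: l) :: (permutations'Aux t l).map (x :: ·)` for `x :: l`.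
PROOF.  Prove by induction on `l` the corresponding statement for insertions strictly after the head of `x :: l`
(x the letter to the right of all insertions, `β` the threshold of the link to the right of `x`):
`sum over w' ∈ permutations'Aux t l, (x :: w') allowed, of y^des(x :: w') * G (linksA β (x :: w'))`
`= y^des(x :: l) * sum over p ∈ spl b t (linksA β (x :: l)) of tw p.1 * G p.2`.
An insertion is allowed iff every letter `z` to the right of `t` (before it in the list) has `b t < b z`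
(`b z ≠ b t`, `z < t`), i.e. iff `b t` is smaller than the threshold of the link.  The link between `z < x` and
`x` has type `true`: `des (x :: t :: z :: ..) = des (x :: z :: ..) + 1`; for `z > x` type `false`: equal
number of descents; the link before the first letter has type `true`, the one after the last letter `false`.  The
links to the left of `t` get `min` with `b t` (`cutL`), the two new links are `(β', false)`, `(b t, true)`. -/
def StIns : Prop := ∀ (b : ℕ → ℕ) (N t : ℕ) (y : ℝ) (w : List ℕ) (G : List (ℕ × Bool) → ℝ), w ≠ [] →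
  (∀ x ∈ w, x < t ∧ b x ≠ b t ∧ b x < N) → b t < N → w.Pairwise (fun x z => ¬ leb b x z) →
  (((List.permutations'Aux t w).filter (fun w' => decide (w'.Pairwise (fun x z => ¬ leb b x z)))).map
    (fun w' => y ^ Helper16.PEul.des w' * G (links b N w'))).sum =
  y ^ Helper16.PEul.des w * ((spl b t (links b N w)).map (fun p => tw y p.1 * G p.2)).sum

/-- E2 (150 lines; uses E1).  The generating function of descents is `FF`.
PROOF.  For `1 ≤ t ≤ n` let `Z t = sum over w ∈ exts (leb b) (range t) of y^des w * FF b n y (n-t) (links b N w)`.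
`Z t = Z (t+1)` for `t < n`: `exts (leb b) (range (t+1))` is the disjoint union over `w ∈ exts (range t)` of the
(distinct) allowed insertions of `t` into `w` (erase `t`), then E1 with `G = FF b n y (n-t-1)`; note
`n - ((n-t-1)+1) = t`.  `Z 1`: the only word is `[0]`, `des [0] = 0`; `Z n`: `FF .. 0 = 1`. -/
def StWords : Prop := ∀ (b : ℕ → ℕ) (n N : ℕ) (y : ℝ), 1 ≤ n → Set.InjOn b (Set.Iio n) →
  (∀ v, v < n → b v < N) →
  ∑ w ∈ exts (leb b) (Finset.range n), y ^ Helper16.PEul.des w = FF b n y (n - 1) (links b N [0])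

/-- E3 (120 lines; uses A4, D6, E2).  `nd (leb b) (range n) k = aa b 0 n N k`.
PROOF.  For all real `y`: `sum_k nd k * y^k = sum over words of y^des = FF = V b 0 n (n-1) (prodL (links [0]) * fut (n-1))`,
and the argument is `prod over g : Fin n × Bool of (1 + C (tw y g.2) * X (gt b n N g))`
`= sum over K of y^(card of K.filter true) * prod_{g in K} X (gt g)` (`Finset.prod_one_add` / `Finset.prod_add`);
only `card K = n - 1` contributes (A4).  So two polynomials in `y` (degree `< n` resp. `≤ 2n`) are equal as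
functions on `ℝ`: compare coefficients (`Polynomial.funext`). -/
def StCoef : Prop := ∀ (b : ℕ → ℕ) (n N k : ℕ), 1 ≤ n → Set.InjOn b (Set.Iio n) →
  (∀ v, v < n → b v < N) → (nd (leb b) (Finset.range n) k : ℝ) = aa b 0 n N k

/-- E4 (80 lines; uses C5, C6, C7, E3).  Ultra-log-concavity of `nd (leb b) (range n)`, `1 ≤ k`:
`(k+1) (n-k) nd(k-1) nd(k+1) ≤ k (n-1-k) nd(k)^2` (natural numbers; trivial for `n ≤ k + 1`, there `nd (k+1) = 0`).
PROOF.  C5 for `ι = Fin n × Bool`, `d = n - 1`, `A = univ.filter (·.2 = true)`, `f` from C6 with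
`t = gt b n N`, `N = 1 + sup b`; the sums are `aa b ε n N k`; let `ε → 0` (C7), E3. -/
def StMain : Prop := ∀ (b : ℕ → ℕ) (n k : ℕ), 1 ≤ n → Set.InjOn b (Set.Iio n) → 1 ≤ k →
  (k + 1) * (n - k) * (nd (leb b) (Finset.range n) (k - 1) * nd (leb b) (Finset.range n) (k + 1)) ≤
    k * (n - 1 - k) * (nd (leb b) (Finset.range n) k) ^ 2

/-- E5 (120 lines, independent).  Exchanging two consecutive incomparable labels `i`, `j = i + 1` does not
change the numbers of linear extensions with `k` descents.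
PROOF.  `s = swap i j`, `le' a c = le (s a) (s c)`.  The linear extensions `σ` of `le` (as in `numExt`: `σ p` is the
element at the position `p`) correspond bijectively to those of `le'`: `σ ↦ σ` if `i`, `j` are at adjacent
positions in `σ`, and `σ ↦ s ∘ σ` otherwise (the same map in the other direction is the inverse).  `s ∘ σ` is a
linear extension of `le'`, and so is `σ` itself if `i`, `j` are adjacent in `σ` and incomparable.
Descents: `s ∘ σ` and `σ` have the same descents because `s` preserves all comparisons except that of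
`i` and `j`, which are not adjacent. -/
def StSwap : Prop := ∀ (n : ℕ) (le : Fin n → Fin n → Prop) (i j : Fin n), j.val = i.val + 1 →
  ¬ le i j → ¬ le j i → ∀ k,
  numExt le k = numExt (fun a c => le (Equiv.swap i j a) (Equiv.swap i j c)) k

/-- E6 (120 lines; uses E5).  `W` does not depend on the natural labelling: if the identity and `π` are natural then
`numExt le = numExt (le transported by π)`.
PROOF.  Induction on the number of inversions of `π`.  If `π` is not the identity there are `i`, `j = i + 1`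
with `π j < π i`; then `i`, `j` are incomparable.  `le1 a c = le (s a) (s c)`, `π1 = π ∘ s`, `s = swap i j`:
`le1 a c → a ≤ c` (only the pair `i, j` changes its order), `le1 a c → π1 a ≤ π1 c`, `π1` has one inversion less, and
the transport of `le1` by `π1` is the transport of `le` by `π`.  E5. -/
def StNat : Prop := ∀ (n : ℕ) (le : Fin n → Fin n → Prop) (π : Equiv.Perm (Fin n)),
  (∀ a c, le a c → a ≤ c) → (∀ a c, le a c → π a ≤ π c) → ∀ k,
  numExt le k = numExt (fun a c => le (π.symm a) (π.symm c)) k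

/-- E7 (120 lines, independent).  COORDINATES.  If `le` is the intersection of the linear orders `l1`, `l2` then there
are a permutation `π` and an injective `b` with `le a c → π a ≤ π c` and
`le (π⁻¹ a) (π⁻¹ c) ↔ leb b a c`.
PROOF.  `π a` = number of `x ≠ a` with `l1 x a`, `b (π a)` = number of `x ≠ a` with `l2 x a`. -/
def StCoord : Prop := ∀ (n : ℕ) (le l1 l2 : Fin n → Fin n → Prop),
  (∀ a, l1 a a) → (∀ a b, l1 a b → l1 b a → a = b) → (∀ a b c, l1 a b → l1 b c → l1 a c) →
  (∀ a b, l1 a b ∨ l1 b a) →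
  (∀ a, l2 a a) → (∀ a b, l2 a b → l2 b a → a = b) → (∀ a b c, l2 a b → l2 b c → l2 a c) →
  (∀ a b, l2 a b ∨ l2 b a) → (∀ a b, le a b ↔ l1 a b ∧ l2 a b) →
  ∃ (π : Equiv.Perm (Fin n)) (b : ℕ → ℕ), Set.InjOn b (Set.Iio n) ∧ (∀ a c, le a c → π a ≤ π c) ∧
    ∀ a c : Fin n, le (π.symm a) (π.symm c) ↔ leb b a.val c.val

/-- E8 (100 lines; uses E4, E6, E7, `Helper50.PE.StRelab`, `StGap`, `StStrong`).  FINAL.
PROOF.  E7, E6: `numExt le k = numExt (fun a c => leb b a.val c.val) k = nd (leb b) (range n) k`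
(`Helper50.PE.StRelab` for `f = Fin.val`), then E4. -/
def StFinal : Prop := ∀ (n : ℕ), 1 ≤ n → ∀ (le l1 l2 : Fin n → Fin n → Prop),
  (∀ a, l1 a a) → (∀ a b, l1 a b → l1 b a → a = b) → (∀ a b c, l1 a b → l1 b c → l1 a c) →
  (∀ a b, l1 a b ∨ l1 b a) →
  (∀ a, l2 a a) → (∀ a b, l2 a b → l2 b a → a = b) → (∀ a b c, l2 a b → l2 b c → l2 a c) →
  (∀ a b, l2 a b ∨ l2 b a) → (∀ a b, le a b ↔ l1 a b ∧ l2 a b) →
  (∀ a b, le a b → a ≤ b) → ∀ k, 1 ≤ k →
  (k + 1) * (n - k) * (numExt le (k - 1) * numExt le (k + 1)) ≤ k * (n - 1 - k) * (numExt le k) ^ 2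

end Pool.Agent.Helper51.PE
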